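import Pool.Agent.NTI.F

/-!
# MP_e73337_co, families of modules permuted by the class automorphisms: the theorem (helper77)
-/

set_option autoImplicit false

namespace Pool.Agent.NTI

open Finset Pool.Agent.Lib_helper61.SwitchBasic

section

variable {α : Type} [DecidableEq α] [Fintype α] {B : SimpleGraph α} {F : Finset (Finset α)} {b : ℕ}

/-- switching at a module of the family exchanges the two classes of the support -/
theorem flipBoth {f : Finset α → ℚ} (h : Two B f) (hF : Fam B F b)
    (hb : 2 * b < Fintype.card α) {V : Finset α} (hV : V ∈ F) (hR : Rich B V F.card) (S : Finset α) :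
    (0 < f S → f (symmDiff S V) < 0) ∧ (f S < 0 → 0 < f (symmDiff S V)) := by
  obtain ⟨Y₀, hY, hno⟩ := rich_no h hF hb hV hR
  refine ⟨fun hS => (partner h hF hb hV Y₀ hY hno S hS).1, fun hS => ?_⟩
  have := (partner h.flip hF hb hV Y₀ hY (fun S hS => by simp [hno S hS]) S (by simpa using hS)).1
  simpa using this

/-- the size of a module in the family is even -/
theorem evenB {f : Finset α → ℚ} (h : Two B f) (hF : Fam B F b)
    (hb : 2 * b < Fintype.card α) {V : Finset α} (hV : V ∈ F) (hR : Rich B V F.card) (S : Finset α)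
    (hS : 0 < f S) : Even b := by
  obtain ⟨Y₀, hY, hno⟩ := rich_no h hF hb hV hR
  obtain ⟨-, Y, h1, h2, h3⟩ := partner h hF hb hV Y₀ hY hno S hS
  have e1 := card_sd Y₀ (S ∩ V)
  have e2 := card_sd Y₀ Y
  rw [Nat.even_iff]
  omega

/-- toggling at several modules of the family -/
theorem toggles {f : Finset α → ℚ} (h : Two B f) (hF : Fam B F b)
    (hb : 2 * b < Fintype.card α) (hR : ∀ V ∈ F, Rich B V F.card) :
    ∀ F' : Finset (Finset α), F' ⊆ F → ∀ S, f S ≠ 0 →
      0 < (-1 : ℚ) ^ F'.card * f S * f (symmDiff S (F'.biUnion id)) := by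
  intro F'
  induction F' using Finset.induction_on with
  | empty =>
    intro _ S hS
    simp only [card_empty, pow_zero, one_mul, biUnion_empty, sd_empty]
    exact mul_self_pos.2 hS
  | insert V F' hVF ih =>
    intro hsub S hS
    have hV : V ∈ F := hsub (mem_insert_self _ _)
    have hsub' : F' ⊆ F := (subset_insert _ _).trans hsub
    have h1 := flipBoth h hF hb hV (hR V hV) S
    have h2 : f (symmDiff S V) ≠ 0 := by
      rcases lt_or_gt_of_ne hS with h0 | h0
      · exact (h1.2 h0).ne'
      · exact (h1.1 h0).ne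
    have h3 := ih hsub' (symmDiff S V) h2
    have h4 : Disjoint V (F'.biUnion id) := by
      rw [disjoint_biUnion_right]
      intro W hW
      exact hF.disj V hV W (hsub' hW) (fun h => hVF (h ▸ hW))
    have h5 : symmDiff S ((insert V F').biUnion id) = symmDiff (symmDiff S V) (F'.biUnion id) := by
      rw [biUnion_insert, id, symmDiff_assoc]
      congr 1
      ext x
      have h9 : x ∈ V → x ∉ F'.biUnion id := fun h => disjoint_left.1 h4 h
      rw [mem_union, mem_symmDiff]
      tauto
    rw [h5, card_insert_of_notMem hVF, pow_succ]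
    have h6 : f S * f (symmDiff S V) < 0 := by
      rcases lt_or_gt_of_ne hS with h0 | h0
      · exact mul_neg_of_neg_of_pos h0 (h1.2 h0)
      · exact mul_neg_of_pos_of_neg h0 (h1.1 h0)
    have h7 : 0 < (-1 : ℚ) ^ F'.card * f (symmDiff S V) *
        f (symmDiff (symmDiff S V) (F'.biUnion id)) := h3
    have h8 : 0 < ((-1 : ℚ) ^ F'.card * f (symmDiff S V) *
        f (symmDiff (symmDiff S V) (F'.biUnion id))) * (-(f S * f (symmDiff S V))) :=
      mul_pos h7 (by linarith)
    have h9 : ((-1 : ℚ) ^ F'.card * f (symmDiff S V) *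
        f (symmDiff (symmDiff S V) (F'.biUnion id))) * (-(f S * f (symmDiff S V))) =
        ((-1 : ℚ) ^ F'.card * (-1) * f S * f (symmDiff (symmDiff S V) (F'.biUnion id))) *
          (f (symmDiff S V) * f (symmDiff S V)) := by ring
    rw [h9] at h8
    exact (mul_pos_iff_of_pos_right (mul_self_pos.2 h2)).1 h8

/-- balance -/
theorem balanced {f : Finset α → ℚ} (h : Two B f) (hF : Fam B F b)
    (hb : 2 * b < Fintype.card α) {V : Finset α} (hV : V ∈ F) (hk : 2 * F.card < b) (S : Finset α)
    (hS : f S ≠ 0) : 2 * (S ∩ V).card = b := by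
  have key : ∀ (g : Finset α → ℚ), Two B g → ∀ S, 0 < g S → b ≤ 2 * (S ∩ V).card := by
    intro g hg S hS
    by_contra hcon
    push Not at hcon
    obtain ⟨c, hc, hno⟩ := size_no hg hF hb hV hk.le
    have hcs := hno S hS.ne'
    have hVc := hF.card V hV
    rcases lt_or_gt_of_ne hcs with hlt | hlt
    · -- `S ∩ V` is smaller than `c`
      obtain ⟨Y₀, h1, h2, h3⟩ := exists_subsuperset_card_eq
        (inter_subset_right : S ∩ V ⊆ V) hlt.le (by omega : c ≤ V.card)
      obtain ⟨-, Y, h4, h5, h6⟩ := partner hg hF hb hV Y₀ h2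
        (fun T hT => by
          by_contra h0
          exact hno T h0 (by rw [hT, h3])) S hS
      have e1 := card_sd Y₀ (S ∩ V)
      have e2 := card_sd Y₀ Y
      have e3 : Y₀ ∩ (S ∩ V) = S ∩ V := inter_eq_right.2 h1
      rw [e3] at e1
      omega
    · obtain ⟨Y₀, h1, h3⟩ := exists_subset_card_eq hlt.le
      have h2 : Y₀ ⊆ V := h1.trans inter_subset_right
      obtain ⟨-, Y, h4, h5, h6⟩ := partner hg hF hb hV Y₀ h2
        (fun T hT => by
          by_contra h0
          exact hno T h0 (by rw [hT, h3])) S hS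
      have e1 := card_sd Y₀ (S ∩ V)
      have e2 := card_sd Y₀ Y
      have e3 : Y₀ ∩ (S ∩ V) = Y₀ := inter_eq_left.2 h1
      rw [e3] at e1
      omega
  have hR : Rich B V F.card := rich_of_le V (by rw [hF.card V hV]; omega)
  have h1 := flipBoth h hF hb hV hR S
  have h2 : ((symmDiff S V) ∩ V).card + (S ∩ V).card = b := by
    have h3 := card_sdiff_add_card_inter V S
    have h4 : (symmDiff S V) ∩ V = V \ S := by
      ext x
      simp only [mem_inter, mem_symmDiff, mem_sdiff]
      tauto
    rw [h4, inter_comm S V, h3, hF.card V hV]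
  rcases lt_or_gt_of_ne hS with h0 | h0
  · have h3 := key (fun S => - f S) h.flip S (by simpa using h0)
    have h4 := key f h (symmDiff S V) (h1.2 h0)
    omega
  · have h3 := key f h S h0
    have h4 := key (fun S => - f S) h.flip (symmDiff S V) (by simpa using h1.1 h0)
    omega

end

section

variable {α : Type} [DecidableEq α] [Fintype α] {B : SimpleGraph α} {F : Finset (Finset α)} {b : ℕ}

theorem prop5 (A B x y u v : Prop) (h : (A ↔ (x ↔ y)) ↔ (B ↔ (u ↔ v))) :
    (A ↔ (x ∧ ¬ u ∨ u ∧ ¬ x ↔ y ∧ ¬ v ∨ v ∧ ¬ y)) ↔ B := by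
  by_cases a1 : A <;> by_cases a2 : B <;> by_cases a3 : x <;> by_cases a4 : y <;>
    by_cases a5 : u <;> by_cases a6 : v <;> simp [a1, a2, a3, a4, a5, a6] at h ⊢

omit [Fintype α] in
/-- class automorphisms do not see switching -/
theorem caut_sw (G : SimpleGraph α) (S : Finset α) (σ : Equiv.Perm α) :
    IsClassAut (sw G S) σ ↔ IsClassAut G σ := by
  have key : ∀ (K : SimpleGraph α) (R : Finset α), IsClassAut (sw K R) σ → IsClassAut K σ := by
    rintro K R ⟨T, hT⟩
    refine ⟨symmDiff (symmDiff R T) (R.map σ.toEmbedding), fun u v => ?_⟩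
    have h1 := hT u v
    rw [sw_sw] at h1
    rw [sw_adj] at h1 ⊢
    rw [sw_adj] at h1
    simp only [mem_symmDiff, mem_map_perm] at h1 ⊢
    by_cases huv : u = v
    · subst huv
      simp
    · have h3 : σ u ≠ σ v := fun h => huv (σ.injective h)
      simp only [huv, h3, ne_eq, not_false_eq_true, true_and] at h1 ⊢
      exact prop5 _ _ _ _ _ _ h1
  constructor
  · exact key G S
  · intro h
    refine key (sw G S) S ?_
    rw [sw_sw, symmDiff_self, Finset.bot_eq_empty, sw_empty]
    exact h

/-- the two-class function, based at `B` -/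
theorem two_ff {S₀ : Finset α} {H : SimpleGraph α} (hdeck : SameDeck (sw B S₀) H) (i : α) :
    Two B (fun S => ff (sw B S₀) H (symmDiff S₀ S)) := by
  have hp := cntGH hdeck i
  have e : ∀ S, sw (sw B S₀) (symmDiff S₀ S) = sw B S := by
    intro S
    rw [sw_sw, ← symmDiff_assoc, symmDiff_self, bot_symmDiff]
  have hval : ∀ S, ff (sw B S₀) H (symmDiff S₀ S) = cnt (sw B S₀) H * ind (sw B S) (sw B S₀) -
      cnt (sw B S₀) (sw B S₀) * ind (sw B S) H := by
    intro S
    unfold ff
    rw [e S]
  have h0 : 0 < cnt (sw B S₀) (sw B S₀) := cntGG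
  have hpos : ∀ S, 0 < ff (sw B S₀) H (symmDiff S₀ S) → Nonempty (sw B S ≃g sw B S₀) := by
    intro S hS
    by_contra hcon
    rw [hval, ind_of_not _ _ hcon] at hS
    have := mul_nonneg h0.le (ind_nonneg (sw B S) H)
    linarith
  have hneg : ∀ S, ff (sw B S₀) H (symmDiff S₀ S) < 0 → Nonempty (sw B S ≃g H) := by
    intro S hS
    by_contra hcon
    rw [hval, ind_of_not _ _ hcon] at hS
    have := mul_nonneg hp.le (ind_nonneg (sw B S) (sw B S₀))
    linarith
  refine ⟨fun S => ?_, fun S T hST => ?_, fun S T hS hT => ?_, fun S T hS hT => ?_⟩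
  · have := sum_ff hdeck (symmDiff S₀ S)
    rw [← this]
    refine sum_congr rfl fun i _ => ?_
    rw [symmDiff_assoc]
  · show ff (sw B S₀) H (symmDiff S₀ S) = ff (sw B S₀) H (symmDiff S₀ T)
    rw [hval, hval, ind_congr_left _ hST, ind_congr_left _ hST]
  · obtain ⟨φ⟩ := hpos S hS
    obtain ⟨ψ⟩ := hpos T hT
    exact ⟨φ.trans ψ.symm⟩
  · obtain ⟨φ⟩ := hneg S hS
    obtain ⟨ψ⟩ := hneg T hT
    exact ⟨φ.trans ψ.symm⟩

/-- **Families of modules.** -/
theorem family (hn : Fintype.card α ≠ 4) (hF : Fam B F b) (hne' : F.Nonempty)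
    (hb : 2 * b < Fintype.card α) (hR : ∀ V ∈ F, Rich B V F.card) {S₀ : Finset α}
    {H : SimpleGraph α} (hdeck : SameDeck (sw B S₀) H) (hne : ¬ Nonempty (sw B S₀ ≃g H)) :
    Even b ∧ (Odd F.card → b % 4 = 2) ∧ (∀ V ∈ F, Nonempty (sw (sw B S₀) V ≃g H)) ∧
      (2 * F.card < b → ∀ V ∈ F, 2 * (S₀ ∩ V).card = b) := by
  classical
  obtain ⟨i⟩ : Nonempty α := by
    rw [← Fintype.card_pos_iff]
    omega
  have hp := cntGH hdeck i
  have h := two_ff hdeck i
  have hf0 : (0 : ℚ) < (fun S => ff (sw B S₀) H (symmDiff S₀ S)) S₀ := by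
    show 0 < ff (sw B S₀) H (symmDiff S₀ S₀)
    rw [symmDiff_self, Finset.bot_eq_empty, ff_empty hne]
    exact hp
  obtain ⟨V₀, hV₀⟩ := hne'
  have heven : Even b := evenB h hF hb hV₀ (hR V₀ hV₀) S₀ hf0
  refine ⟨heven, fun hodd => ?_, fun V hV => ?_, fun hk V hV =>
    balanced h hF hb hV hk S₀ hf0.ne'⟩
  · have h1 := toggles h hF hb hR F (Subset.refl _) S₀ hf0.ne'
    rw [hodd.neg_one_pow] at h1
    -- the union of the family is invariant
    have hinv : IsInvariant (sw B S₀) (F.biUnion id) := by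
      intro σ hσ v
      rw [caut_sw] at hσ
      constructor
      · intro hv
        rw [mem_biUnion] at hv ⊢
        obtain ⟨W, hW, hvW⟩ := hv
        refine ⟨_, hF.perm W hW σ⁻¹ (caut_inv hσ), ?_⟩
        have h3 := mem_map_perm (σ⁻¹ : Equiv.Perm α) W (σ v)
        rw [show σ⁻¹ (σ v) = v from σ.symm_apply_apply v] at h3
        exact h3.2 hvW
      · intro hv
        rw [mem_biUnion] at hv ⊢
        obtain ⟨W, hW, hvW⟩ := hv
        exact ⟨_, hF.perm W hW σ hσ, (mem_map_perm σ W v).2 hvW⟩
    have hcard : (F.biUnion id).card = F.card * b := by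
      have h8 := card_biUnion (s := F) (t := id) (fun V hV W hW hVW => hF.disj V hV W hW hVW)
      have h9 : ∑ V ∈ F, (id V).card = ∑ _V ∈ F, b := sum_congr rfl fun V hV => hF.card V hV
      rw [h8, h9, sum_const, smul_eq_mul]
    obtain ⟨m, hm⟩ := heven
    have hm2 : b = 2 * m := by omega
    have hj : (F.biUnion id).card = 2 * (F.card * m) := by
      rw [hcard, hm2]
      ring
    have h4 := ff_switch hn hdeck hinv (F.card * m) hj ∅
    rw [show symmDiff (∅ : Finset α) (F.biUnion id) = F.biUnion id by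
      rw [← Finset.bot_eq_empty, bot_symmDiff], ff_empty hne] at h4
    have h5 : ff (sw B S₀) H (symmDiff S₀ (symmDiff S₀ (F.biUnion id))) =
        ff (sw B S₀) H (F.biUnion id) := by
      rw [← symmDiff_assoc, symmDiff_self, bot_symmDiff]
    simp only at h1 hf0
    rw [h5] at h1
    have h6 : ff (sw B S₀) H (F.biUnion id) < 0 := by
      by_contra hcon
      push Not at hcon
      have := mul_nonneg hf0.le hcon
      linarith
    rcases Nat.even_or_odd m with hme | hmo
    · exfalso
      rw [Int.negOnePow_even _ (by exact_mod_cast hme.mul_left F.card)] at h4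
      push_cast at h4
      linarith
    · obtain ⟨t, ht⟩ := hmo
      omega
  · have h1 := (flipBoth h hF hb hV (hR V hV) S₀).1 hf0
    have h2 : ff (sw B S₀) H V < 0 := by
      have : (fun S => ff (sw B S₀) H (symmDiff S₀ S)) (symmDiff S₀ V) = ff (sw B S₀) H V := by
        show ff (sw B S₀) H (symmDiff S₀ (symmDiff S₀ V)) = _
        rw [← symmDiff_assoc, symmDiff_self, bot_symmDiff]
      rw [← this]
      exact h1
    by_contra hcon
    unfold ff at h2
    rw [ind_of_not _ _ hcon] at h2
    have := mul_nonneg hp.le (ind_nonneg (sw (sw B S₀) V) (sw B S₀))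
    linarith

end

end Pool.Agent.NTI
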