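import Pool.Agent.NTI.N

/-!
# MP_e73337_co, families of modules permuted by the class automorphisms (helper77)
-/

set_option autoImplicit false

namespace Pool.Agent.NTI

open Finset Pool.Agent.Lib_helper61.SwitchBasic

section

variable {α : Type} [DecidableEq α] [Fintype α]

/-- `V` is a module (homogeneous set) of `B`. -/
def Hom (B : SimpleGraph α) (V : Finset α) : Prop :=
  ∀ x ∈ V, ∀ y ∈ V, ∀ z, z ∉ V → (B.Adj z x ↔ B.Adj z y)

/-- `F` is a family of pairwise disjoint modules of `B` with `b` vertices each, permuted by the automorphisms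
of the switching class. -/
structure Fam (B : SimpleGraph α) (F : Finset (Finset α)) (b : ℕ) : Prop where
  mod : ∀ V ∈ F, Hom B V
  disj : ∀ V ∈ F, ∀ W ∈ F, V ≠ W → Disjoint V W
  perm : ∀ V ∈ F, ∀ σ : Equiv.Perm α, IsClassAut B σ → V.map σ.toEmbedding ∈ F
  card : ∀ V ∈ F, V.card = b

theorem prop4 (P p t0 t1 t2 s0 s1 s2 : Prop) (e1 : (P ↔ (t0 ↔ t1)) ↔ (p ↔ (s0 ↔ s1)))
    (e2 : (P ↔ (t0 ↔ t2)) ↔ (p ↔ (s0 ↔ s2))) : (t1 ↔ s1) ↔ (t2 ↔ s2) := by
  by_cases a1 : P <;> by_cases a2 : p <;> by_cases a3 : t0 <;> by_cases a4 : s0 <;>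
    simp only [a1, a2, a3, a4, true_iff, false_iff, not_not] at e1 e2 ⊢ <;> tauto

omit [Fintype α] in
theorem core {B : SimpleGraph α} {V W S T : Finset α} {σ : Equiv.Perm α}
    (hσ : ∀ u v, (sw B T).Adj (σ u) (σ v) ↔ (sw B S).Adj u v) (hV : Hom B V) (hW : Hom B W)
    (hVW : ∀ x, σ x ∈ W ↔ x ∈ V) (hz : ∃ z, z ∉ V) :
    (∀ u ∈ V, (σ u ∈ T ↔ u ∈ S)) ∨ (∀ u ∈ V, (σ u ∈ T ↔ ¬ u ∈ S)) := by
  obtain ⟨z, hz⟩ := hz
  have key : ∀ u ∈ V, ∀ v ∈ V, ((σ u ∈ T ↔ u ∈ S) ↔ (σ v ∈ T ↔ v ∈ S)) := by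
    intro u hu v hv
    have e1 := hσ z u
    have e2 := hσ z v
    have m1 := hV u hu v hv z hz
    have m2 := hW (σ u) ((hVW u).2 hu) (σ v) ((hVW v).2 hv) (σ z) (fun h => hz ((hVW z).1 h))
    have n1 : z ≠ u := fun h => hz (h ▸ hu)
    have n2 : z ≠ v := fun h => hz (h ▸ hv)
    have n3 : σ z ≠ σ u := fun h => n1 (σ.injective h)
    have n4 : σ z ≠ σ v := fun h => n2 (σ.injective h)
    rw [sw_adj, sw_adj] at e1 e2
    simp only [n1, n2, n3, n4, ne_eq, not_false_eq_true, true_and] at e1 e2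
    rw [← m1, ← m2] at e2
    exact prop4 _ _ _ _ _ _ _ _ e1 e2
  by_cases h : ∃ u ∈ V, (σ u ∈ T ↔ u ∈ S)
  · obtain ⟨u, hu, h⟩ := h
    exact Or.inl fun v hv => (key u hu v hv).1 h
  · right
    intro u hu
    have : ¬ (σ u ∈ T ↔ u ∈ S) := fun h' => h ⟨u, hu, h'⟩
    tauto

omit [Fintype α] in
/-- the restriction of a class automorphism to a module which it preserves is an automorphism -/
theorem restrB {B : SimpleGraph α} {V : Finset α} (hV : Hom B V) (hz : ∃ z, z ∉ V)
    {σ : Equiv.Perm α} (hσ : IsClassAut B σ) (hσV : ∀ x, σ x ∈ V ↔ x ∈ V) :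
    ∃ τ : Equiv.Perm α, (∀ u v, B.Adj (τ u) (τ v) ↔ B.Adj u v) ∧ (∀ x ∈ V, τ x = σ x) ∧
      (∀ x, x ∉ V → τ x = x) := by
  classical
  have hinv : ∀ x, σ⁻¹ x ∈ V ↔ x ∈ V := by
    intro x
    have h10 := hσV (σ⁻¹ x)
    rw [show σ (σ⁻¹ x) = x from σ.apply_symm_apply x] at h10
    exact h10.symm
  let ρ : Equiv.Perm α :=
    { toFun := fun x => if x ∈ V then σ x else x
      invFun := fun x => if x ∈ V then σ⁻¹ x else x
      left_inv := by
        intro x
        by_cases hx : x ∈ V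
        · simp [hx, hσV]
        · simp [hx]
      right_inv := by
        intro x
        by_cases hx : x ∈ V
        · have h9 := (hinv x).2 hx
          show (if (if x ∈ V then σ⁻¹ x else x) ∈ V then
            σ (if x ∈ V then σ⁻¹ x else x) else (if x ∈ V then σ⁻¹ x else x)) = x
          rw [if_pos hx, if_pos h9]
          exact σ.apply_symm_apply x
        · simp [hx] }
  have hρ : ∀ x, ρ x = if x ∈ V then σ x else x := fun x => rfl
  refine ⟨ρ, fun u v => ?_, fun x hx => by rw [hρ, if_pos hx], fun x hx => by rw [hρ, if_neg hx]⟩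
  obtain ⟨T, hT⟩ := hσ
  have hc := core (S := ∅) (T := T) (σ := σ) (fun u v => by rw [sw_empty]; exact hT u v) hV hV
    hσV hz
  have hin : ∀ u ∈ V, ∀ v ∈ V, (B.Adj (σ u) (σ v) ↔ B.Adj u v) := by
    intro u hu v hv
    by_cases huv : u = v
    · subst huv
      simp
    · have n : σ u ≠ σ v := fun h => huv (σ.injective h)
      have e := hT u v
      rw [sw_adj] at e
      simp only [n, ne_eq, not_false_eq_true, true_and] at e
      rcases hc with h | h
      · have h1 := h u hu
        have h2 := h v hv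
        simp only [notMem_empty, iff_false] at h1 h2
        rw [← e]
        tauto
      · have h1 := h u hu
        have h2 := h v hv
        simp only [notMem_empty, not_false_eq_true, iff_true] at h1 h2
        rw [← e]
        tauto
  by_cases hu : u ∈ V
  · by_cases hv : v ∈ V
    · rw [hρ, hρ, if_pos hu, if_pos hv]
      exact hin u hu v hv
    · rw [hρ, hρ, if_pos hu, if_neg hv, B.adj_comm, B.adj_comm u v]
      exact (hV u hu (σ u) ((hσV u).2 hu) v hv).symm
  · by_cases hv : v ∈ V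
    · rw [hρ, hρ, if_neg hu, if_pos hv]
      exact (hV v hv (σ v) ((hσV v).2 hv) u hu).symm
    · rw [hρ, hρ, if_neg hu, if_neg hv]

/-- the same unsigned letter -/
def Lett (B : SimpleGraph α) (V V' S S' : Finset α) : Prop :=
  ∃ σ : Equiv.Perm α, IsClassAut B σ ∧ (∀ x, σ x ∈ V' ↔ x ∈ V) ∧
    ((∀ x ∈ V, (σ x ∈ S' ↔ x ∈ S)) ∨ (∀ x ∈ V, (σ x ∈ S' ↔ ¬ x ∈ S)))

omit [Fintype α] [DecidableEq α] in
theorem caut_one (B : SimpleGraph α) : IsClassAut B (1 : Equiv.Perm α) :=
  ⟨∅, fun u v => by rw [sw_empty]; rfl⟩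

omit [Fintype α] [DecidableEq α] in
theorem lett_refl (B : SimpleGraph α) (V S : Finset α) : Lett B V V S S :=
  ⟨1, caut_one B, fun _ => Iff.rfl, Or.inl fun _ _ => Iff.rfl⟩

omit [Fintype α] in
theorem Lett.symm' {B : SimpleGraph α} {V V' S S' : Finset α} (h : Lett B V V' S S') :
    Lett B V' V S' S := by
  obtain ⟨σ, h1, h2, h3⟩ := h
  have e : ∀ x, σ (σ⁻¹ x) = x := fun x => σ.apply_symm_apply x
  refine ⟨σ⁻¹, caut_inv h1, fun x => ?_, ?_⟩
  · have := h2 (σ⁻¹ x)
    rw [e] at this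
    exact this.symm
  · have h4 : ∀ x, σ⁻¹ x ∈ V ↔ x ∈ V' := by
      intro x
      have := h2 (σ⁻¹ x)
      rw [e] at this
      exact this.symm
    rcases h3 with h3 | h3
    · left
      intro x hx
      have := h3 (σ⁻¹ x) ((h4 x).2 hx)
      rw [e] at this
      exact this.symm
    · right
      intro x hx
      have := h3 (σ⁻¹ x) ((h4 x).2 hx)
      rw [e] at this
      tauto

omit [Fintype α] in
theorem Lett.trans' {B : SimpleGraph α} {V V' V'' S S' S'' : Finset α} (h : Lett B V V' S S')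
    (k : Lett B V' V'' S' S'') : Lett B V V'' S S'' := by
  obtain ⟨σ, h1, h2, h3⟩ := h
  obtain ⟨ρ, k1, k2, k3⟩ := k
  refine ⟨ρ * σ, caut_mul k1 h1, fun x => ?_, ?_⟩
  · rw [Equiv.Perm.mul_apply, k2, h2]
  · simp only [Equiv.Perm.mul_apply]
    rcases h3 with h3 | h3 <;> rcases k3 with k3 | k3
    · left
      intro x hx
      rw [k3 _ ((h2 x).2 hx), h3 x hx]
    · right
      intro x hx
      rw [k3 _ ((h2 x).2 hx), h3 x hx]
    · right
      intro x hx
      rw [k3 _ ((h2 x).2 hx), h3 x hx]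
    · left
      intro x hx
      rw [k3 _ ((h2 x).2 hx), h3 x hx, not_not]

open Classical in
/-- the number of positions with a given letter -/
noncomputable def num (B : SimpleGraph α) (F : Finset (Finset α)) (V₀ S₀ S : Finset α) : ℕ :=
  (F.filter fun V => Lett B V V₀ S S₀).card

theorem num_iso {B : SimpleGraph α} {F : Finset (Finset α)} {b : ℕ} (hF : Fam B F b)
    (hb : b < Fintype.card α) (V₀ S₀ S T : Finset α) (φ : sw B S ≃g sw B T) :
    num B F V₀ S₀ S = num B F V₀ S₀ T := by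
  classical
  have hσ : IsClassAut B φ.toEquiv := classAut_of_iso B S T φ
  have hadj : ∀ u v, (sw B T).Adj (φ.toEquiv u) (φ.toEquiv v) ↔ (sw B S).Adj u v :=
    fun u v => φ.map_rel_iff'
  generalize φ.toEquiv = σ at hσ hadj
  have hz : ∀ V ∈ F, ∃ z, z ∉ V := by
    intro V hV
    by_contra hcon
    push Not at hcon
    have : V = univ := eq_univ_iff_forall.2 hcon
    have h1 := hF.card V hV
    rw [this, card_univ] at h1
    omega
  have hL : ∀ V ∈ F, Lett B V (V.map σ.toEmbedding) S T := by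
    intro V hV
    have hW := hF.mod _ (hF.perm V hV σ hσ)
    exact ⟨σ, hσ, fun x => mem_map_perm σ V x,
      core hadj (hF.mod V hV) hW (fun x => mem_map_perm σ V x) (hz V hV)⟩
  unfold num
  refine card_bij (fun V _ => V.map σ.toEmbedding) ?_ ?_ ?_
  · intro V hV
    rw [mem_filter] at hV ⊢
    exact ⟨hF.perm V hV.1 σ hσ, (hL V hV.1).symm'.trans' hV.2⟩
  · intro V _ W _ h
    exact (map_injective _) h
  · intro W hW
    rw [mem_filter] at hW
    have h1 := hF.perm W hW.1 σ⁻¹ (caut_inv hσ)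
    have h2 : (W.map (σ⁻¹ : Equiv.Perm α).toEmbedding).map σ.toEmbedding = W := by
      ext x
      obtain ⟨y, rfl⟩ := σ.surjective x
      rw [mem_map_perm]
      have h3 := mem_map_perm (σ⁻¹ : Equiv.Perm α) W (σ y)
      rw [show σ⁻¹ (σ y) = y from σ.symm_apply_apply y] at h3
      exact h3
    refine ⟨W.map (σ⁻¹ : Equiv.Perm α).toEmbedding, ?_, h2⟩
    rw [mem_filter]
    refine ⟨h1, ?_⟩
    have h4 := hL _ h1
    rw [h2] at h4
    exact h4.trans' hW.2

end

section content

variable {α : Type} [DecidableEq α] [Fintype α] (f : Finset α → ℚ)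
  (hf : ∀ S, ∑ i : α, f (symmDiff S {i}) = 0)

include hf in
theorem trace0 (V : Finset α) (hV : 2 * V.card < Fintype.card α) (Y : Finset α) (hY : Y ⊆ V) :
    ∑ S : Finset α, (if S ∩ V = Y then f S else 0) = 0 := by
  set g : Finset α → ℚ := fun Y => ∑ S : Finset α, (if S ∩ V = Y then f S else 0) with hg
  have h1 : ∀ Y ⊆ V, ∑ i ∈ V, g (symmDiff Y {i}) + ((Fintype.card α : ℚ) - V.card) * g Y = 0 := by
    intro Y hY
    have e1 : ∀ i ∈ V, g (symmDiff Y {i}) =
        ∑ S : Finset α, (if S ∩ V = Y then f (symmDiff S {i}) else 0) := by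
      intro i hi
      rw [hg]
      simp only
      rw [← Equiv.sum_comp (flipE i)]
      refine sum_congr rfl fun S _ => ?_
      rw [flipE_apply]
      have : (symmDiff S {i}) ∩ V = symmDiff Y {i} ↔ S ∩ V = Y := by
        constructor
        · intro h
          ext x
          have hx := Finset.ext_iff.1 h x
          simp only [mem_inter, mem_symmDiff, mem_singleton] at hx ⊢
          by_cases hxi : x = i
          · subst hxi
            simp only [hi, and_true, not_true_eq_false, and_false, true_and, false_or] at hx ⊢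
            tauto
          · simp only [hxi, not_false_eq_true, and_true, false_and, or_false] at hx
            exact hx
        · rintro rfl
          ext x
          simp only [mem_inter, mem_symmDiff, mem_singleton]
          by_cases hxi : x = i
          · subst hxi
            simp only [hi, and_true, not_true_eq_false, and_false, true_and, false_or]
          · simp only [hxi, not_false_eq_true, and_true, false_and, or_false]
      simp only [this]
    have e2 : ∀ i ∈ Vᶜ, g Y =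
        ∑ S : Finset α, (if S ∩ V = Y then f (symmDiff S {i}) else 0) := by
      intro i hi
      rw [mem_compl] at hi
      rw [hg]
      simp only
      rw [← Equiv.sum_comp (flipE i)]
      refine sum_congr rfl fun S _ => ?_
      rw [flipE_apply]
      have : (symmDiff S {i}) ∩ V = S ∩ V := by
        ext x
        simp only [mem_inter, mem_symmDiff, mem_singleton]
        by_cases hxi : x = i
        · subst hxi
          simp only [hi, and_false]
        · simp only [hxi, not_false_eq_true, and_true, false_and, or_false]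
      rw [this]
    have e3 : ∑ i ∈ V, g (symmDiff Y {i}) + ∑ _i ∈ Vᶜ, g Y = 0 := by
      rw [sum_congr rfl e1, sum_congr rfl e2, sum_add_sum_compl, sum_comm]
      refine sum_eq_zero fun S _ => ?_
      by_cases h : S ∩ V = Y
      · simp only [h, if_true]
        exact hf S
      · simp only [h, if_false, sum_const_zero]
    rw [sum_const, nsmul_eq_mul, card_compl, Nat.cast_sub (by omega)] at e3
    exact e3
  obtain ⟨Y₁, hY₁, hmax⟩ := exists_max_image V.powerset (fun Y => |g Y|) ⟨∅, by simp⟩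
  rw [mem_powerset] at hY₁
  have h2 := h1 Y₁ hY₁
  have h3 : |∑ i ∈ V, g (symmDiff Y₁ {i})| ≤ (V.card : ℚ) * |g Y₁| := by
    refine (abs_sum_le_sum_abs _ _).trans ?_
    rw [← nsmul_eq_mul]
    refine sum_le_card_nsmul _ _ _ fun i hi => ?_
    refine hmax _ ?_
    rw [mem_powerset]
    intro x hx
    simp only [mem_symmDiff, mem_singleton] at hx
    rcases hx with h | h
    · exact hY₁ h.1
    · rw [h.1]; exact hi
  have h4 : ∑ i ∈ V, g (symmDiff Y₁ {i}) = -(((Fintype.card α : ℚ) - V.card) * g Y₁) := by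
    linarith
  have h5 : (0 : ℚ) < (Fintype.card α : ℚ) - V.card - V.card := by
    have : (2 * V.card : ℚ) < Fintype.card α := by exact_mod_cast hV
    linarith
  have h9 : (0 : ℚ) ≤ (V.card : ℚ) := Nat.cast_nonneg _
  have h10 : (0 : ℚ) < (Fintype.card α : ℚ) - V.card := by linarith
  have h6 : |g Y₁| = 0 := by
    rw [h4, abs_neg, abs_mul, abs_of_pos h10] at h3
    have h7 := abs_nonneg (g Y₁)
    nlinarith
  have h8 := hmax Y (mem_powerset.2 hY)
  rw [h6] at h8
  exact abs_eq_zero.1 (le_antisymm h8 (abs_nonneg _))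

include hf in
theorem content (V : Finset α) (hV : 2 * V.card < Fintype.card α) (P : Finset α → Prop)
    [DecidablePred P] (hP : ∀ S T, S ∩ V = T ∩ V → (P S ↔ P T)) :
    ∑ S : Finset α, (if P S then f S else 0) = 0 := by
  have h1 : ∀ S : Finset α, (if P S then f S else 0) =
      ∑ Y ∈ V.powerset, (if P Y then (if S ∩ V = Y then f S else 0) else 0) := by
    intro S
    rw [sum_eq_single (S ∩ V)]
    · have := hP S (S ∩ V) (by rw [inter_assoc, inter_self])
      by_cases h : P S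
      · rw [if_pos h, if_pos (this.1 h), if_pos rfl]
      · rw [if_neg h, if_neg (fun h' => h (this.2 h'))]
    · intro Y _ hne
      rw [if_neg (show ¬ (S ∩ V = Y) from fun h => hne h.symm)]
      split_ifs <;> rfl
    · intro h
      exact absurd (mem_powerset.2 inter_subset_right) h
  rw [sum_congr rfl fun S _ => h1 S, sum_comm]
  refine sum_eq_zero fun Y hY => ?_
  by_cases h : P Y
  · exact (sum_congr rfl fun S _ => if_pos h).trans (trace0 f hf V hV Y (mem_powerset.1 hY))
  · exact sum_eq_zero fun S _ => if_neg h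

end content

section main

variable {α : Type} [DecidableEq α] [Fintype α] {B : SimpleGraph α} {F : Finset (Finset α)} {b : ℕ}

/-- a function on the sets which is killed by the neighbour sums and whose support consists of two classes -/
structure Two (B : SimpleGraph α) (f : Finset α → ℚ) : Prop where
  sum : ∀ S, ∑ i : α, f (symmDiff S {i}) = 0
  iso : ∀ S T, Nonempty (sw B S ≃g sw B T) → f S = f T
  pos : ∀ S T, 0 < f S → 0 < f T → Nonempty (sw B S ≃g sw B T)
  neg : ∀ S T, f S < 0 → f T < 0 → Nonempty (sw B S ≃g sw B T)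

theorem Two.flip {f : Finset α → ℚ} (h : Two B f) : Two B (fun S => - f S) where
  sum := by
    intro S
    rw [sum_neg_distrib, h.sum, neg_zero]
  iso := fun S T hST => by rw [h.iso S T hST]
  pos := fun S T hS hT => h.neg S T (by linarith) (by linarith)
  neg := fun S T hS hT => h.pos S T (by linarith) (by linarith)

theorem num_sum {f : Finset α → ℚ} (h : Two B f) (hF : Fam B F b)
    (hb : 2 * b < Fintype.card α) (V₀ S₀ : Finset α) :
    ∑ S : Finset α, f S * (num B F V₀ S₀ S : ℚ) = 0 := by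
  classical
  have h1 : ∀ S, f S * (num B F V₀ S₀ S : ℚ) =
      ∑ V ∈ F, (if Lett B V V₀ S S₀ then f S else 0) := by
    intro S
    unfold num
    rw [card_filter, Nat.cast_sum, mul_sum]
    refine sum_congr rfl fun V _ => ?_
    split_ifs <;> simp
  rw [sum_congr rfl fun S _ => h1 S, sum_comm]
  refine sum_eq_zero fun V hV => ?_
  refine content f h.sum V (by rw [hF.card V hV]; exact hb) (fun S => Lett B V V₀ S S₀) ?_
  intro S T hST
  have h2 : ∀ x ∈ V, (x ∈ S ↔ x ∈ T) := by
    intro x hx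
    have := Finset.ext_iff.1 hST x
    simp only [mem_inter, hx, and_true] at this
    exact this
  have h3 : Lett B V V S T := ⟨1, caut_one B, fun _ => Iff.rfl, Or.inl fun x hx => (h2 x hx).symm⟩
  exact ⟨fun h4 => h3.symm'.trans' h4, fun h4 => h3.trans' h4⟩

theorem num_eq {f : Finset α → ℚ} (h : Two B f) (hF : Fam B F b)
    (hb : 2 * b < Fintype.card α) (V₀ S₀ S T : Finset α) (hS : f S ≠ 0) (hT : f T ≠ 0) :
    num B F V₀ S₀ S = num B F V₀ S₀ T := by
  have hb' : b < Fintype.card α := by omega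
  -- opposite signs
  have key : ∀ S T, 0 < f S → f T < 0 → num B F V₀ S₀ S = num B F V₀ S₀ T := by
    intro S T hS hT
    have e1 := num_sum h hF hb V₀ S₀
    have e2 : ∑ R : Finset α, f R = 0 := by
      have := content f h.sum ∅ (by simp; omega) (fun _ => True) (fun _ _ _ => Iff.rfl)
      simpa using this
    have e3 : ∑ R : Finset α, f R * ((num B F V₀ S₀ R : ℚ) - num B F V₀ S₀ T) = 0 := by
      have : ∀ R, f R * ((num B F V₀ S₀ R : ℚ) - num B F V₀ S₀ T) =
          f R * (num B F V₀ S₀ R : ℚ) - f R * num B F V₀ S₀ T := fun R => by ring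
      rw [sum_congr rfl fun R _ => this R, sum_sub_distrib, e1, ← sum_mul, e2]
      ring
    have e4 : ∀ R, f R * ((num B F V₀ S₀ R : ℚ) - num B F V₀ S₀ T) =
        (if 0 < f R then f R else 0) * ((num B F V₀ S₀ S : ℚ) - num B F V₀ S₀ T) := by
      intro R
      split_ifs with hR
      · obtain ⟨φ⟩ := h.pos R S hR hS
        rw [num_iso hF hb' V₀ S₀ R S φ]
      · rcases eq_or_lt_of_le (not_lt.1 hR) with h0 | h0
        · rw [h0]; ring
        · obtain ⟨φ⟩ := h.neg R T h0 hT
          rw [num_iso hF hb' V₀ S₀ R T φ]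
          ring
    rw [sum_congr rfl fun R _ => e4 R, ← sum_mul] at e3
    have e5 : 0 < ∑ R : Finset α, (if 0 < f R then f R else 0) := by
      refine sum_pos' (fun R _ => ?_) ⟨S, mem_univ _, ?_⟩
      · split_ifs with hR
        · exact hR.le
        · exact le_refl _
      · rw [if_pos hS]
        exact hS
    have e6 : ((num B F V₀ S₀ S : ℚ) - num B F V₀ S₀ T) = 0 := by
      rcases mul_eq_zero.1 e3 with h0 | h0
      · exact absurd h0 e5.ne'
      · exact h0
    have e7 : (num B F V₀ S₀ S : ℚ) = num B F V₀ S₀ T := by linarith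
    exact_mod_cast e7
  rcases lt_or_gt_of_ne hS with h1 | h1 <;> rcases lt_or_gt_of_ne hT with h2 | h2
  · obtain ⟨φ⟩ := h.neg S T h1 h2
    exact num_iso hF hb' V₀ S₀ S T φ
  · exact (key T S h2 h1).symm
  · exact key S T h1 h2
  · obtain ⟨φ⟩ := h.pos S T h1 h2
    exact num_iso hF hb' V₀ S₀ S T φ

/-- the fibre lemma -/
theorem fibre {f : Finset α → ℚ} (h : Two B f) (hF : Fam B F b)
    (hb : 2 * b < Fintype.card α) {V : Finset α} (hV : V ∈ F) (S T : Finset α) (hS : f S ≠ 0)
    (hT : f T ≠ 0) (hST : ∀ x, x ∉ V → (x ∈ S ↔ x ∈ T)) : Lett B V V T S := by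
  classical
  by_contra hcon
  have h1 := num_eq h hF hb V S S T hS hT
  unfold num at h1
  have h2 : (F.filter fun W => Lett B W V T S) ⊂ (F.filter fun W => Lett B W V S S) := by
    rw [ssubset_iff_of_subset]
    · refine ⟨V, mem_filter.2 ⟨hV, lett_refl B V S⟩, fun h3 => hcon (mem_filter.1 h3).2⟩
    · intro W hW
      rw [mem_filter] at hW ⊢
      refine ⟨hW.1, ?_⟩
      have hne : W ≠ V := fun h3 => hcon (h3 ▸ hW.2)
      have hd := hF.disj W hW.1 V hV hne
      have h4 : Lett B W W S T := ⟨1, caut_one B, fun _ => Iff.rfl,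
        Or.inl fun x hx => (hST x (disjoint_left.1 hd hx)).symm⟩
      exact h4.trans' hW.2
  have h5 := card_lt_card h2
  omega

theorem out {V : Finset α} (hV : V.card < Fintype.card α) : ∃ z, z ∉ V := by
  by_contra hcon
  push Not at hcon
  have : V = univ := eq_univ_iff_forall.2 hcon
  rw [this, card_univ] at hV
  omega

/-- two sets in the support with opposite signs, which agree outside `V` -/
theorem opp {f : Finset α → ℚ} (h : Two B f) (hF : Fam B F b)
    (hb : 2 * b < Fintype.card α) {V : Finset α} (hV : V ∈ F) (S T : Finset α) (hS : 0 < f S)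
    (hT : f T < 0) (hST : ∀ x, x ∉ V → (x ∈ S ↔ x ∈ T)) :
    f (symmDiff S V) < 0 ∧ (T ∩ V).card + (S ∩ V).card = b := by
  have hz := out (V := V) (by rw [hF.card V hV]; omega)
  obtain ⟨σ, h1, h2, h3⟩ := fibre h hF hb hV S T hS.ne' hT.ne hST
  obtain ⟨τ, t1, t2, t3⟩ := restrB (hF.mod V hV) hz h1 h2
  have t4 : ∀ x, τ x ∈ V ↔ x ∈ V := by
    intro x
    by_cases hx : x ∈ V
    · rw [t2 x hx]
      exact h2 x
    · rw [t3 x hx]
  -- transport along `τ`
  have tr : ∀ R : Finset α, (∀ x, τ x ∈ R ↔ x ∈ T) → Nonempty (sw B T ≃g sw B R) := by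
    intro R hR
    refine ⟨⟨τ, fun {u v} => ?_⟩⟩
    rw [sw_adj, sw_adj, t1, hR, hR]
    simp
  rcases h3 with h3 | h3
  · exfalso
    have := h.iso T S (tr S fun x => by
      by_cases hx : x ∈ V
      · rw [t2 x hx]
        exact h3 x hx
      · rw [t3 x hx]
        exact hST x hx)
    linarith
  · constructor
    · have := h.iso T (symmDiff S V) (tr (symmDiff S V) fun x => by
        by_cases hx : x ∈ V
        · rw [mem_symmDiff, t4, t2 x hx, h3 x hx]
          simp only [hx, not_true_eq_false, and_false, true_and, false_or, not_not]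
        · rw [mem_symmDiff, t4, t3 x hx]
          simp only [hx, not_false_eq_true, and_true, false_and, or_false]
          exact hST x hx)
      linarith
    · have h5 : V \ S = (T ∩ V).map τ.toEmbedding := by
        ext x
        obtain ⟨y, rfl⟩ := τ.surjective x
        rw [mem_map_perm, mem_sdiff, mem_inter, t4]
        by_cases hy : y ∈ V
        · rw [t2 y hy, h3 y hy]
          simp only [hy, not_not, true_and, and_true]
        · simp [hy]
      have h6 := card_map (s := T ∩ V) τ.toEmbedding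
      rw [← h5] at h6
      have h7 := card_sdiff_add_card_inter V S
      rw [h6, hF.card V hV, inter_comm V S] at h7
      exact h7

omit [Fintype α] in
theorem card_sd (X Y : Finset α) : (symmDiff X Y).card + 2 * (X ∩ Y).card = X.card + Y.card := by
  have h1 : symmDiff X Y = (X \ Y) ∪ (Y \ X) := rfl
  have h2 : Disjoint (X \ Y) (Y \ X) := by
    rw [disjoint_left]
    intro x hx hy
    exact (mem_sdiff.1 hy).2 (mem_sdiff.1 hx).1
  have h3 := card_union_of_disjoint h2
  have h4 := card_sdiff_add_card_inter X Y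
  have h5 := card_sdiff_add_card_inter Y X
  rw [inter_comm Y X] at h5
  rw [h1]
  omega

/-- the partner of a set in the support -/
theorem partner {f : Finset α → ℚ} (h : Two B f) (hF : Fam B F b)
    (hb : 2 * b < Fintype.card α) {V : Finset α} (hV : V ∈ F) (Y₀ : Finset α) (hY : Y₀ ⊆ V)
    (hno : ∀ S, S ∩ V = Y₀ → f S = 0) (S : Finset α) (hS : 0 < f S) :
    f (symmDiff S V) < 0 ∧ ∃ Y : Finset α, Y ⊆ V ∧ Y.card = (symmDiff Y₀ (S ∩ V)).card ∧
      (symmDiff Y₀ Y).card + (S ∩ V).card = b := by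
  have e1 : (symmDiff (S \ V) Y₀) ∩ V = Y₀ := by
    ext x
    have : x ∈ Y₀ → x ∈ V := fun h => hY h
    simp only [mem_inter, mem_symmDiff, mem_sdiff]
    tauto
  have e2 := lemQ f h.sum V Y₀ hno (symmDiff Y₀ (S ∩ V)).card _ e1
  have e3 : symmDiff (symmDiff (S \ V) Y₀) (symmDiff Y₀ (S ∩ V)) = S := by
    ext x
    simp only [mem_inter, mem_symmDiff, mem_sdiff]
    tauto
  have e4 : symmDiff Y₀ (S ∩ V) ∈ V.powersetCard (symmDiff Y₀ (S ∩ V)).card := by
    rw [mem_powersetCard]
    refine ⟨fun x hx => ?_, rfl⟩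
    rw [mem_symmDiff, mem_inter] at hx
    rcases hx with hx | hx
    · exact hY hx.1
    · exact hx.1.2
  obtain ⟨Y, hY1, hY2⟩ : ∃ Y ∈ V.powersetCard (symmDiff Y₀ (S ∩ V)).card,
      f (symmDiff (symmDiff (S \ V) Y₀) Y) < 0 := by
    by_contra hcon
    push Not at hcon
    have := sum_pos' hcon ⟨_, e4, by rw [e3]; exact hS⟩
    linarith
  rw [mem_powersetCard] at hY1
  have e5 : ∀ x, x ∉ V → (x ∈ S ↔ x ∈ symmDiff (symmDiff (S \ V) Y₀) Y) := by
    intro x hx
    have h1 : x ∉ Y₀ := fun h => hx (hY h)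
    have h2 : x ∉ Y := fun h => hx (hY1.1 h)
    simp only [mem_symmDiff, mem_sdiff]
    tauto
  obtain ⟨h1, h2⟩ := opp h hF hb hV S _ hS hY2 e5
  refine ⟨h1, Y, hY1.1, hY1.2, ?_⟩
  have e6 : (symmDiff (symmDiff (S \ V) Y₀) Y) ∩ V = symmDiff Y₀ Y := by
    ext x
    have h3 : x ∈ Y₀ → x ∈ V := fun h => hY h
    have h4 : x ∈ Y → x ∈ V := fun h => hY1.1 h
    simp only [mem_inter, mem_symmDiff, mem_sdiff]
    tauto
  rw [e6] at h2
  exact h2

/-- `V` has more than `2 k` subsets no two of which are equivalent under the automorphisms of `B` which fix all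
vertices outside `V`. -/
def Rich (B : SimpleGraph α) (V : Finset α) (k : ℕ) : Prop :=
  ∃ E : Finset (Finset α), 2 * k < E.card ∧ (∀ Y ∈ E, Y ⊆ V) ∧
    ∀ Y ∈ E, ∀ Z ∈ E, (∃ τ : Equiv.Perm α, (∀ u v, B.Adj (τ u) (τ v) ↔ B.Adj u v) ∧
      (∀ x, x ∉ V → τ x = x) ∧ ∀ x, (τ x ∈ Z ↔ x ∈ Y)) → Y = Z

/-- the same signed letter -/
def SLett (B : SimpleGraph α) (V V' S S' : Finset α) : Prop :=
  ∃ σ : Equiv.Perm α, IsClassAut B σ ∧ (∀ x, σ x ∈ V' ↔ x ∈ V) ∧ (∀ x ∈ V, (σ x ∈ S' ↔ x ∈ S))

theorem Lett.signed {V V' S S' : Finset α} (h : Lett B V V' S S') :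
    SLett B V V' S S' ∨ SLett B V V' Sᶜ S' := by
  obtain ⟨σ, h1, h2, h3⟩ := h
  rcases h3 with h3 | h3
  · exact Or.inl ⟨σ, h1, h2, h3⟩
  · exact Or.inr ⟨σ, h1, h2, fun x hx => by rw [mem_compl]; exact h3 x hx⟩

omit [Fintype α] in
theorem SLett.card {V V' S S' : Finset α} (h : SLett B V V' S S') :
    (S' ∩ V').card = (S ∩ V).card := by
  obtain ⟨σ, h1, h2, h3⟩ := h
  have : S' ∩ V' = (S ∩ V).map σ.toEmbedding := by
    ext x
    obtain ⟨y, rfl⟩ := σ.surjective x
    rw [mem_map_perm, mem_inter, mem_inter, h2]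
    constructor
    · rintro ⟨a, c⟩
      exact ⟨(h3 y c).1 a, c⟩
    · rintro ⟨a, c⟩
      exact ⟨(h3 y c).2 a, c⟩
  rw [this, card_map]

/-- each letter in the support occurs at some position of each set of the support -/
theorem occurs {f : Finset α → ℚ} (h : Two B f) (hF : Fam B F b)
    (hb : 2 * b < Fintype.card α) {V : Finset α} (hV : V ∈ F) (S T : Finset α) (hS : f S ≠ 0)
    (hT : f T ≠ 0) : ∃ W ∈ F, Lett B W V T S := by
  classical
  have h1 := num_eq h hF hb V S S T hS hT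
  unfold num at h1
  have h2 : 0 < (F.filter fun W => Lett B W V S S).card :=
    card_pos.2 ⟨V, mem_filter.2 ⟨hV, lett_refl B V S⟩⟩
  rw [h1, card_pos] at h2
  obtain ⟨W, hW⟩ := h2
  rw [mem_filter] at hW
  exact ⟨W, hW.1, hW.2⟩

/-- a letter which does not occur -/
theorem rich_no {f : Finset α → ℚ} (h : Two B f) (hF : Fam B F b)
    (hb : 2 * b < Fintype.card α) {V : Finset α} (hV : V ∈ F) (hR : Rich B V F.card) :
    ∃ Y₀ ⊆ V, ∀ S, S ∩ V = Y₀ → f S = 0 := by
  classical
  by_contra hcon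
  push Not at hcon
  obtain ⟨E, hE1, hE2, hE3⟩ := hR
  have hz := out (V := V) (by rw [hF.card V hV]; omega)
  obtain ⟨S₁, hS₁⟩ : ∃ S, f S ≠ 0 := by
    obtain ⟨S, -, hS⟩ := hcon ∅ (empty_subset _)
    exact ⟨S, hS⟩
  have h1 : ∀ Y ∈ E, ∃ q : Finset α × Finset α, q ∈ F ×ˢ ({S₁, S₁ᶜ} : Finset (Finset α)) ∧
      ∃ S, S ∩ V = Y ∧ SLett B q.1 V q.2 S := by
    intro Y hY
    obtain ⟨S, hS, hfS⟩ := hcon Y (hE2 Y hY)
    obtain ⟨W, hW, hL⟩ := occurs h hF hb hV S S₁ hfS hS₁
    rcases hL.signed with hL | hL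
    · exact ⟨(W, S₁), by simp [hW], S, hS, hL⟩
    · exact ⟨(W, S₁ᶜ), by simp [hW], S, hS, hL⟩
  choose! q hq1 hq2 using h1
  have h2 : (F ×ˢ ({S₁, S₁ᶜ} : Finset (Finset α))).card < E.card := by
    rw [card_product]
    have := card_le_two (a := S₁) (b := S₁ᶜ)
    nlinarith
  obtain ⟨Y, hY, Z, hZ, hne, heq⟩ := exists_ne_map_eq_of_card_lt_of_maps_to h2 hq1
  apply hne
  obtain ⟨S, hS, σ, a1, a2, a3⟩ := hq2 Y hY
  obtain ⟨T, hT, ρ, b1, b2, b3⟩ := hq2 Z hZ
  rw [← heq] at b2 b3
  have e : ∀ x, σ (σ⁻¹ x) = x := fun x => σ.apply_symm_apply x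
  have c1 : IsClassAut B (ρ * σ⁻¹) := caut_mul b1 (caut_inv a1)
  have c4 : ∀ x, σ⁻¹ x ∈ (q Y).1 ↔ x ∈ V := by
    intro x
    have := a2 (σ⁻¹ x)
    rw [e] at this
    exact this.symm
  have c2 : ∀ x, (ρ * σ⁻¹) x ∈ V ↔ x ∈ V := by
    intro x
    rw [Equiv.Perm.mul_apply, b2, c4]
  obtain ⟨τ, t1, t2, t3⟩ := restrB (hF.mod V hV) hz c1 c2
  refine hE3 Y hY Z hZ ⟨τ, t1, t3, fun x => ?_⟩
  have hYV := hE2 Y hY
  have hZV := hE2 Z hZ
  by_cases hx : x ∈ V
  · have d1 : x ∈ Y ↔ x ∈ S := by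
      rw [← hS, mem_inter]
      simp [hx]
    have d2 : (ρ * σ⁻¹) x ∈ Z ↔ (ρ * σ⁻¹) x ∈ T := by
      rw [← hT, mem_inter]
      simp only [(c2 x).2 hx, and_true]
    have d3 := a3 (σ⁻¹ x) ((c4 x).2 hx)
    rw [e] at d3
    rw [t2 x hx, d2, Equiv.Perm.mul_apply, b3 _ ((c4 x).2 hx), d1, d3]
  · rw [t3 x hx]
    exact iff_of_false (fun h' => hx (hZV h')) (fun h' => hx (hYV h'))

/-- a small size which does not occur -/
theorem size_no {f : Finset α → ℚ} (h : Two B f) (hF : Fam B F b)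
    (hb : 2 * b < Fintype.card α) {V : Finset α} (hV : V ∈ F) (hk : 2 * F.card ≤ b) :
    ∃ c ≤ F.card, ∀ S, f S ≠ 0 → (S ∩ V).card ≠ c := by
  classical
  by_cases hex : ∃ S, f S ≠ 0
  · obtain ⟨S₁, hS₁⟩ := hex
    have h1 : ∃ c ∈ range (F.card + 1),
        c ∉ F.image (fun W => min (S₁ ∩ W).card (b - (S₁ ∩ W).card)) := by
      by_contra hcon
      push Not at hcon
      have h2 := card_le_card (show range (F.card + 1) ⊆
        F.image (fun W => min (S₁ ∩ W).card (b - (S₁ ∩ W).card)) from hcon)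
      rw [card_range] at h2
      have h3 := card_image_le (s := F) (f := fun W => min (S₁ ∩ W).card (b - (S₁ ∩ W).card))
      omega
    obtain ⟨c, hc, hc2⟩ := h1
    rw [mem_range] at hc
    refine ⟨c, by omega, fun S hS hcon => hc2 ?_⟩
    obtain ⟨W, hW, hL⟩ := occurs h hF hb hV S S₁ hS hS₁
    rw [mem_image]
    refine ⟨W, hW, ?_⟩
    have hWc := hF.card W hW
    rcases hL.signed with hL | hL
    · have := hL.card
      rw [hcon] at this
      rw [← this]
      omega
    · have h4 := hL.card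
      rw [hcon] at h4
      have h5 : (S₁ᶜ ∩ W).card + (S₁ ∩ W).card = b := by
        have h6 := card_sdiff_add_card_inter W S₁
        have h7 : S₁ᶜ ∩ W = W \ S₁ := by
          ext x
          simp only [mem_inter, mem_compl, mem_sdiff]
          tauto
        rw [h7, inter_comm S₁ W, h6, hWc]
      omega
  · refine ⟨0, by omega, fun S hS => absurd ⟨S, hS⟩ hex⟩

theorem rich_of_le (V : Finset α) {k : ℕ} (hk : 2 * k ≤ V.card) :
    Rich B V k := by
  classical
  have h1 : ∀ c ∈ range (V.card + 1), ∃ Y ⊆ V, Y.card = c := by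
    intro c hc
    rw [mem_range] at hc
    exact exists_subset_card_eq (by omega)
  choose! y hy1 hy2 using h1
  refine ⟨(range (V.card + 1)).image y, ?_, ?_, ?_⟩
  · rw [card_image_of_injOn, card_range]
    · omega
    · intro c hc d hd hcd
      rw [← hy2 c hc, ← hy2 d hd, hcd]
  · intro Y hY
    rw [mem_image] at hY
    obtain ⟨c, hc, rfl⟩ := hY
    exact hy1 c hc
  · rintro Y hY Z hZ ⟨τ, -, -, h3⟩
    rw [mem_image] at hY hZ
    obtain ⟨c, hc, rfl⟩ := hY
    obtain ⟨d, hd, rfl⟩ := hZ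
    have h4 : y d = (y c).map τ.toEmbedding := by
      ext x
      obtain ⟨z, rfl⟩ := τ.surjective x
      rw [mem_map_perm]
      exact h3 z
    have h5 := card_map (s := y c) τ.toEmbedding
    rw [← h4, hy2 c hc, hy2 d hd] at h5
    rw [h5]

end main

end Pool.Agent.NTI
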