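import Pool.Agent.Lib_helper61.SwitchBasic

/-!
# MP_e73337_co, invariant modules: class automorphisms that split over a set (helper77)
-/

set_option autoImplicit false

namespace Pool.Agent.NTI

open Finset Pool.Agent.Lib_helper61.SwitchBasic

variable {α : Type} [DecidableEq α]

/-- `U` is invariant under the automorphisms of the switching class, and restricting such an automorphism
to `U` (identity outside) gives one again. -/
def Splits (G : SimpleGraph α) (U : Finset α) : Prop :=
  IsInvariant G U ∧ ∀ σ τ : Equiv.Perm α, IsClassAut G σ → (∀ x ∈ U, τ x = σ x) →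
    (∀ x, x ∉ U → τ x = x) → IsClassAut G τ

/-- `U` is a module up to switching: two vertices of `U` are separated by none or by all of the vertices
outside `U`. -/
def IsModule (G : SimpleGraph α) (U : Finset α) : Prop :=
  ∀ x ∈ U, ∀ y ∈ U, (∀ z, z ∉ U → (G.Adj z x ↔ G.Adj z y)) ∨
    (∀ z, z ∉ U → ¬ (G.Adj z x ↔ G.Adj z y))

theorem prop1 (A B su sv s0 p p' q q' P Q : Prop) (e1 : (A ↔ (su ↔ sv)) ↔ B)
    (e2 : (P ↔ (s0 ↔ su)) ↔ p) (e3 : (Q ↔ (s0 ↔ sv)) ↔ q) (e4 : (P ↔ Q) ↔ (p' ↔ q')) :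
    (A ↔ (¬ (p ↔ p') ↔ ¬ (q ↔ q'))) ↔ B := by
  rw [← e1, ← e2, ← e3]
  have e5 : p' ↔ ((P ↔ Q) ↔ q') := by
    rw [e4]
    by_cases a1 : p' <;> by_cases a2 : q' <;> simp [a1, a2]
  rw [e5]
  clear e1 e2 e3 e4 e5
  by_cases a1 : A <;> by_cases a2 : su <;> by_cases a3 : sv <;> by_cases a4 : s0 <;>
    by_cases a5 : P <;> by_cases a6 : Q <;> by_cases a7 : q' <;> simp [a1, a2, a3, a4, a5, a6, a7]

theorem mem_map_perm (σ : Equiv.Perm α) (S : Finset α) (x : α) :
    σ x ∈ S.map σ.toEmbedding ↔ x ∈ S := by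
  simp

theorem caut_mul {G : SimpleGraph α} {σ ρ : Equiv.Perm α} (hσ : IsClassAut G σ)
    (hρ : IsClassAut G ρ) : IsClassAut G (σ * ρ) := by
  obtain ⟨S, hS⟩ := hσ
  obtain ⟨R, hR⟩ := hρ
  refine ⟨symmDiff S (R.map σ.toEmbedding), fun u v => ?_⟩
  have h1 := hS (ρ u) (ρ v)
  have h2 := hR u v
  rw [Equiv.Perm.mul_apply, Equiv.Perm.mul_apply]
  rw [sw_adj] at h1 h2 ⊢
  simp only [mem_symmDiff, mem_map_perm]
  by_cases huv : u = v
  · subst huv
    simp
  · have h3 : ρ u ≠ ρ v := fun h => huv (ρ.injective h)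
    have h4 : σ (ρ u) ≠ σ (ρ v) := fun h => h3 (σ.injective h)
    simp only [h4, h3, ne_eq, not_false_eq_true, true_and] at h1 h2 ⊢
    by_cases a1 : σ (ρ u) ∈ S <;> by_cases a2 : σ (ρ v) ∈ S <;> by_cases a3 : ρ u ∈ R <;>
      by_cases a4 : ρ v ∈ R <;> simp only [a1, a2, a3, a4] at h1 h2 ⊢ <;> tauto

theorem caut_inv {G : SimpleGraph α} {σ : Equiv.Perm α} (hσ : IsClassAut G σ) :
    IsClassAut G σ⁻¹ := by
  obtain ⟨S, hS⟩ := hσ
  refine ⟨S.map (σ⁻¹ : Equiv.Perm α).toEmbedding, fun u v => ?_⟩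
  have h1 := hS (σ⁻¹ u) (σ⁻¹ v)
  have e : ∀ x, σ (σ⁻¹ x) = x := fun x => σ.apply_symm_apply x
  rw [e, e] at h1
  rw [sw_adj] at h1 ⊢
  simp only [mem_map_perm]
  by_cases huv : u = v
  · subst huv
    simp
  · have h3 : σ⁻¹ u ≠ σ⁻¹ v := fun h => huv ((σ⁻¹ : Equiv.Perm α).injective h)
    simp only [huv, h3, ne_eq, not_false_eq_true, true_and] at h1 ⊢
    tauto

theorem splits_compl [Fintype α] {G : SimpleGraph α} {U : Finset α} (hU : Splits G U) :
    Splits G Uᶜ := by
  refine ⟨fun σ hσ v => ?_, fun σ τ hσ h1 h2 => ?_⟩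
  · rw [mem_compl, mem_compl, hU.1 σ hσ v]
  · -- the restriction of `σ` to `U`
    classical
    have hinv := hU.1 σ hσ
    let ρ : Equiv.Perm α :=
      { toFun := fun x => if x ∈ U then σ x else x
        invFun := fun x => if x ∈ U then σ⁻¹ x else x
        left_inv := by
          intro x
          by_cases hx : x ∈ U
          · simp [hx, hinv]
          · simp [hx]
        right_inv := by
          intro x
          by_cases hx : x ∈ U
          · have h9 : σ⁻¹ x ∈ U := by
              have h10 := hinv (σ⁻¹ x)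
              rw [show σ (σ⁻¹ x) = x from σ.apply_symm_apply x] at h10
              exact h10.1 hx
            show (if (if x ∈ U then σ⁻¹ x else x) ∈ U then
              σ (if x ∈ U then σ⁻¹ x else x) else (if x ∈ U then σ⁻¹ x else x)) = x
            rw [if_pos hx, if_pos h9]
            exact σ.apply_symm_apply x
          · simp [hx] }
    have hρ : ∀ x, ρ x = if x ∈ U then σ x else x := fun x => rfl
    have h3 : IsClassAut G ρ := hU.2 σ ρ hσ (fun x hx => by rw [hρ, if_pos hx])
      (fun x hx => by rw [hρ, if_neg hx])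
    have h4 : τ = σ * ρ⁻¹ := by
      ext x
      rw [Equiv.Perm.mul_apply]
      obtain ⟨y, rfl⟩ := ρ.surjective x
      rw [show ρ⁻¹ (ρ y) = y from ρ.symm_apply_apply y]
      by_cases hy : y ∈ U
      · rw [hρ, if_pos hy]
        exact h2 _ (by rw [mem_compl, not_not, hinv y]; exact hy)
      · rw [hρ, if_neg hy]
        exact h1 y (by rw [mem_compl]; exact hy)
    rw [h4]
    exact caut_mul hσ (caut_inv h3)

/-- the restriction of a class automorphism to a set over which it splits -/
theorem restr {G : SimpleGraph α} {U : Finset α} (hU : Splits G U) {σ : Equiv.Perm α}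
    (hσ : IsClassAut G σ) : ∃ τ : Equiv.Perm α, IsClassAut G τ ∧ (∀ x ∈ U, τ x = σ x) ∧
      (∀ x, x ∉ U → τ x = x) := by
  classical
  have hinv := hU.1 σ hσ
  let ρ : Equiv.Perm α :=
    { toFun := fun x => if x ∈ U then σ x else x
      invFun := fun x => if x ∈ U then σ⁻¹ x else x
      left_inv := by
        intro x
        by_cases hx : x ∈ U
        · simp [hx, hinv]
        · simp [hx]
      right_inv := by
        intro x
        by_cases hx : x ∈ U
        · have h9 : σ⁻¹ x ∈ U := by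
            have h10 := hinv (σ⁻¹ x)
            rw [show σ (σ⁻¹ x) = x from σ.apply_symm_apply x] at h10
            exact h10.1 hx
          show (if (if x ∈ U then σ⁻¹ x else x) ∈ U then
            σ (if x ∈ U then σ⁻¹ x else x) else (if x ∈ U then σ⁻¹ x else x)) = x
          rw [if_pos hx, if_pos h9]
          exact σ.apply_symm_apply x
        · simp [hx] }
  have hρ : ∀ x, ρ x = if x ∈ U then σ x else x := fun x => rfl
  exact ⟨ρ, hU.2 σ ρ hσ (fun x hx => by rw [hρ, if_pos hx]) (fun x hx => by rw [hρ, if_neg hx]),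
    fun x hx => by rw [hρ, if_pos hx], fun x hx => by rw [hρ, if_neg hx]⟩

/-- invariant modules split -/
theorem splits_of_module {G : SimpleGraph α} {U : Finset α} (hU : IsInvariant G U)
    (hm : IsModule G U) : Splits G U := by
  classical
  refine ⟨hU, fun σ τ hσ h1 h2 => ?_⟩
  obtain ⟨S, hS⟩ := hσ
  have hinv := hU σ ⟨S, hS⟩
  by_cases hall : ∀ x, x ∈ U
  · have h3 : τ = σ := by
      ext x
      exact h1 x (hall x)
    rw [h3]
    exact ⟨S, hS⟩
  · push Not at hall
    obtain ⟨w₀, hw₀⟩ := hall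
    -- `D` : the `σ u`, `u ∈ U`, separated from `u` outside
    refine ⟨(U.filter fun u => ¬ (G.Adj w₀ u ↔ G.Adj w₀ (σ u))).map σ.toEmbedding, fun u v => ?_⟩
    have hD : ∀ x, σ x ∈ (U.filter fun u => ¬ (G.Adj w₀ u ↔ G.Adj w₀ (σ u))).map σ.toEmbedding ↔
        (x ∈ U ∧ ¬ (G.Adj w₀ x ↔ G.Adj w₀ (σ x))) := by
      intro x
      rw [mem_map_perm, mem_filter]
    have hD' : ∀ x, x ∉ U →
        x ∉ (U.filter fun u => ¬ (G.Adj w₀ u ↔ G.Adj w₀ (σ u))).map σ.toEmbedding := by
      intro x hx hx'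
      rw [mem_map] at hx'
      obtain ⟨y, hy, rfl⟩ := hx'
      rw [mem_filter] at hy
      exact hx ((hinv y).2 hy.1)
    -- separation does not depend on the outside vertex
    have hsep : ∀ x ∈ U, ∀ y ∈ U, ∀ z, z ∉ U → ∀ z', z' ∉ U →
        ((G.Adj z x ↔ G.Adj z y) ↔ (G.Adj z' x ↔ G.Adj z' y)) := by
      intro x hx y hy z hz z' hz'
      rcases hm x hx y hy with h | h
      · exact iff_of_true (h z hz) (h z' hz')
      · exact iff_of_false (h z hz) (h z' hz')
    have hcross : ∀ u ∈ U, ∀ w, w ∉ U → ((sw G ((U.filter fun u => ¬ (G.Adj w₀ u ↔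
        G.Adj w₀ (σ u))).map σ.toEmbedding)).Adj (σ u) w ↔ G.Adj u w) := by
      intro u hu w hw
      have hne : σ u ≠ w := fun h => hw (h ▸ (hinv u).2 hu)
      have e1 := hsep u hu (σ u) ((hinv u).2 hu) w hw w₀ hw₀
      have e2 := hD u
      have e3 := hD' w hw
      rw [sw_adj]
      rw [G.adj_comm (σ u) w, G.adj_comm u w]
      simp only [hne, e2, e3, hu, ne_eq, not_false_eq_true, true_and]
      tauto
    by_cases hu : u ∈ U
    · by_cases hv : v ∈ U
      · rw [h1 u hu, h1 v hv, sw_adj, hD, hD]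
        have e1 := hS u v
        rw [sw_adj] at e1
        by_cases huv : u = v
        · subst huv
          simp
        · have hne : σ u ≠ σ v := fun h => huv (σ.injective h)
          have hw1 : σ w₀ ∉ U := fun h => hw₀ ((hinv w₀).1 h)
          have e2 := hS w₀ u
          have e3 := hS w₀ v
          have n2 : σ w₀ ≠ σ u := fun h => hw₀ (σ.injective h ▸ hu)
          have n3 : σ w₀ ≠ σ v := fun h => hw₀ (σ.injective h ▸ hv)
          rw [sw_adj] at e2 e3
          have e4 := hsep (σ u) ((hinv u).2 hu) (σ v) ((hinv v).2 hv) (σ w₀) hw1 w₀ hw₀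
          simp only [hne, n2, n3, hu, hv, ne_eq, not_false_eq_true, true_and] at e1 e2 e3 ⊢
          exact prop1 _ _ _ _ _ _ _ _ _ _ _ e1 e2 e3 e4
      · rw [h1 u hu, h2 v hv]
        exact hcross u hu v hv
    · by_cases hv : v ∈ U
      · rw [h2 u hu, h1 v hv]
        have e1 := hcross v hv u hu
        rw [SimpleGraph.adj_comm, e1, G.adj_comm]
      · rw [h2 u hu, h2 v hv, sw_adj]
        have e3 := hD' u hu
        have e4 := hD' v hv
        by_cases huv : u = v
        · subst huv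
          simp
        · simp only [huv, e3, e4, ne_eq, not_false_eq_true, true_and]
          tauto

end Pool.Agent.NTI
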