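import Pool.Agent.NTI.S

/-!
# MP_e73337_co, modules with few local automorphisms have many inequivalent subsets (helper77)
-/

set_option autoImplicit false

namespace Pool.Agent.NTI

open Finset Pool.Agent.Lib_helper61.SwitchBasic

variable {α : Type} [DecidableEq α] [Fintype α]

/-- the relation used in `Many` -/
def Equi (G : SimpleGraph α) (V Y Z : Finset α) : Prop :=
  ∃ φ : sw G Y ≃g sw G Z, ∀ x, x ∉ V → φ x = x

omit [Fintype α] [DecidableEq α] in
theorem equi_equiv (G : SimpleGraph α) (V : Finset α) : Equivalence (Equi G V) := by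
  refine ⟨fun Y => ⟨SimpleGraph.Iso.refl, fun x _ => rfl⟩, ?_, ?_⟩
  · rintro Y Z ⟨φ, hφ⟩
    exact ⟨φ.symm, fun x hx => by rw [RelIso.symm_apply_eq, hφ x hx]⟩
  · rintro Y Z T ⟨φ, hφ⟩ ⟨ψ, hψ⟩
    exact ⟨φ.trans ψ, fun x hx => by
      show ψ (φ x) = x
      rw [hφ x hx, hψ x hx]⟩

omit [Fintype α] in
/-- the switching set of a map is unique inside `V` -/
theorem sw_uniq (G : SimpleGraph α) (V : Finset α) (hz : ∃ z, z ∉ V) (Y Z T : Finset α)
    (hZ : Z ⊆ V) (hT : T ⊆ V) (φ : sw G Y ≃g sw G Z) (ψ : sw G Y ≃g sw G T)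
    (h : ∀ x, φ x = ψ x) : Z = T := by
  obtain ⟨w, hw⟩ := hz
  have e : ∀ u v, (sw G Z).Adj u v ↔ (sw G T).Adj u v := by
    intro u v
    obtain ⟨u, rfl⟩ := φ.surjective u
    obtain ⟨v, rfl⟩ := φ.surjective v
    have a1 : (sw G Z).Adj (φ u) (φ v) ↔ (sw G Y).Adj u v := φ.map_rel_iff'
    have a2 : (sw G T).Adj (ψ u) (ψ v) ↔ (sw G Y).Adj u v := ψ.map_rel_iff'
    rw [← h, ← h] at a2
    rw [a1, a2]
  ext y
  by_cases hy : y ∈ V
  · have hyw : y ≠ w := fun h => hw (h ▸ hy)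
    have a1 := e y w
    have n1 : w ∉ T := fun h => hw (hT h)
    have n2 : w ∉ Z := fun h => hw (hZ h)
    rw [sw_adj, sw_adj] at a1
    simp only [hyw, ne_eq, not_false_eq_true, true_and, n1, n2, iff_false] at a1
    clear e h
    by_cases b1 : G.Adj y w <;> by_cases b2 : y ∈ Z <;> by_cases b3 : y ∈ T <;>
      simp [b1, b2, b3] at a1 ⊢
  · exact iff_of_false (fun h => hy (hZ h)) (fun h => hy (hT h))

theorem many_of_loc (G : SimpleGraph α) (V : Finset α) (hz : ∃ z, z ∉ V) (k : ℕ)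
    (h : 2 * k * (Loc G V).ncard < 2 ^ V.card) : Many G V k := by
  classical
  let s : Setoid (Finset α) := ⟨Equi G V, equi_equiv G V⟩
  -- a representative inside `V`
  have hrep : ∀ q : Quotient s, ∃ Y : Finset α, (∃ Z ⊆ V, (⟦Z⟧ : Quotient s) = q) →
      Y ⊆ V ∧ (⟦Y⟧ : Quotient s) = q := by
    intro q
    by_cases hq : ∃ Z ⊆ V, (⟦Z⟧ : Quotient s) = q
    · obtain ⟨Z, hZ, hZq⟩ := hq
      exact ⟨Z, fun _ => ⟨hZ, hZq⟩⟩
    · exact ⟨∅, fun h => absurd h hq⟩
  choose rep hr using hrep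
  let ρ : Finset α → Finset α := fun Y => rep ⟦Y⟧
  have hρ : ∀ Y ⊆ V, ρ Y ⊆ V ∧ Equi G V (ρ Y) Y := by
    intro Y hY
    obtain ⟨h1, h2⟩ := hr ⟦Y⟧ ⟨Y, hY, rfl⟩
    exact ⟨h1, Quotient.exact h2⟩
  have hρ2 : ∀ Y Z : Finset α, Equi G V Y Z → ρ Y = ρ Z := by
    intro Y Z hYZ
    show rep ⟦Y⟧ = rep ⟦Z⟧
    rw [Quotient.sound (s := s) hYZ]
  refine ⟨V.powerset.image ρ, ?_, ?_, ?_⟩
  · -- each class has at most `|Loc|` members
    have h1 : V.powerset.card ≤ (Loc G V).ncard * (V.powerset.image ρ).card := by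
      refine card_le_mul_card_image _ _ ?_
      intro Y hY
      rw [mem_image] at hY
      obtain ⟨Y', hY', rfl⟩ := hY
      rw [mem_powerset] at hY'
      -- an isomorphism for each member
      have hex : ∀ Z ∈ V.powerset.filter (fun Z => ρ Z = ρ Y'),
          ∃ φ : sw G (ρ Y') ≃g sw G Z, ∀ x, x ∉ V → φ x = x := by
        intro Z hZ
        rw [mem_filter, mem_powerset] at hZ
        have := (hρ Z hZ.1).2
        rw [hZ.2] at this
        exact this
      choose φ hφ using hex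
      rw [Set.ncard_eq_toFinset_card (Loc G V) (Set.toFinite _)]
      refine card_le_card_of_injOn (fun Z => if h : Z ∈ V.powerset.filter (fun Z => ρ Z = ρ Y') then
        (φ Z h).toEquiv else 1) ?_ ?_
      · intro Z hZ
        have hZ' : Z ∈ V.powerset.filter (fun Z => ρ Z = ρ Y') := hZ
        simp only [hZ', dif_pos]
        rw [Set.Finite.coe_toFinset]
        refine ⟨classAut_of_iso G _ _ (φ Z hZ'), hφ Z hZ'⟩
      · intro Z hZ T hT hZT
        have hZ' : Z ∈ V.powerset.filter (fun Z => ρ Z = ρ Y') := hZ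
        have hT' : T ∈ V.powerset.filter (fun Z => ρ Z = ρ Y') := hT
        simp only [hZ', hT', dif_pos] at hZT
        rw [mem_filter, mem_powerset] at hZ' hT'
        exact sw_uniq G V hz (ρ Y') Z T hZ'.1 hT'.1 (φ Z hZ) (φ T hT)
          (fun x => congrArg (fun e : Equiv.Perm α => e x) hZT)
    rw [card_powerset] at h1
    by_contra hcon
    push Not at hcon
    have h2 : (Loc G V).ncard * (V.powerset.image ρ).card ≤ (Loc G V).ncard * (2 * k) :=
      Nat.mul_le_mul_left _ hcon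
    have h3 : (Loc G V).ncard * (2 * k) = 2 * k * (Loc G V).ncard := Nat.mul_comm _ _
    omega
  · intro Y hY
    rw [mem_image] at hY
    obtain ⟨Y', hY', rfl⟩ := hY
    exact (hρ Y' (mem_powerset.1 hY')).1
  · intro Y hY Z hZ hYZ
    rw [mem_image] at hY hZ
    obtain ⟨Y', hY', rfl⟩ := hY
    obtain ⟨Z', hZ', rfl⟩ := hZ
    have e1 := (hρ Y' (mem_powerset.1 hY')).2
    have e2 := (hρ Z' (mem_powerset.1 hZ')).2
    have e3 : Equi G V (ρ Y') (ρ Z') := hYZ
    have e4 := hρ2 _ _ e1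
    have e5 := hρ2 _ _ e2
    have e6 := hρ2 _ _ e3
    rw [← e4, e6, e5]

end Pool.Agent.NTI
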