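import Mathlib

/-!
# MP_e73337_co, invariant modules: the distance lemma (helper77)

If a function on the vertex sets is killed by the sum over the neighbours in the cube, and it vanishes at all
sets with a given trace `Y₀` on `U`, then its sums over the sets `S Δ Y`, `Y ⊆ U`, `|Y| = d`, vanish for all `d`
and all `S` with trace `Y₀`.
-/

set_option autoImplicit false

namespace Pool.Agent.NTI

open Finset

variable {α : Type} [DecidableEq α]

theorem swapSum (U : Finset α) (d : ℕ) (Φ : Finset α → α → ℚ) :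
    ∑ Y ∈ U.powersetCard d, ∑ i ∈ U \ Y, Φ Y i =
      ∑ Z ∈ U.powersetCard (d + 1), ∑ i ∈ Z, Φ (Z.erase i) i := by
  rw [Finset.sum_sigma', Finset.sum_sigma']
  refine Finset.sum_bij' (fun x _ => ⟨insert x.2 x.1, x.2⟩) (fun x _ => ⟨x.1.erase x.2, x.2⟩)
    ?_ ?_ ?_ ?_ ?_
  · rintro ⟨Y, i⟩ hx
    simp only [mem_sigma, mem_powersetCard, mem_sdiff] at hx ⊢
    obtain ⟨⟨h1, h2⟩, h3, h4⟩ := hx
    refine ⟨⟨insert_subset h3 h1, ?_⟩, mem_insert_self _ _⟩
    rw [card_insert_of_notMem h4, h2]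
  · rintro ⟨Z, i⟩ hx
    simp only [mem_sigma, mem_powersetCard, mem_sdiff] at hx ⊢
    obtain ⟨⟨h1, h2⟩, h3⟩ := hx
    refine ⟨⟨(erase_subset _ _).trans h1, ?_⟩, h1 h3, notMem_erase _ _⟩
    rw [card_erase_of_mem h3, h2]
    rfl
  · rintro ⟨Y, i⟩ hx
    simp only [mem_sigma, mem_powersetCard, mem_sdiff] at hx
    simp [erase_insert hx.2.2]
  · rintro ⟨Z, i⟩ hx
    simp only [mem_sigma, mem_powersetCard] at hx
    simp [insert_erase hx.2]
  · rintro ⟨Y, i⟩ hx
    simp only [mem_sigma, mem_powersetCard, mem_sdiff] at hx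
    simp [erase_insert hx.2.2]

theorem flipSum (U Y : Finset α) (hY : Y ⊆ U) (F : Finset α → ℚ) :
    ∑ i ∈ U, F (symmDiff Y {i}) = ∑ i ∈ U \ Y, F (insert i Y) + ∑ i ∈ Y, F (Y.erase i) := by
  rw [← Finset.sum_sdiff hY]
  congr 1
  · refine sum_congr rfl fun i hi => ?_
    rw [mem_sdiff] at hi
    congr 1
    ext x
    simp only [mem_symmDiff, mem_singleton, mem_insert]
    by_cases hx : x = i
    · subst hx
      simp [hi.2]
    · simp [hx]
  · refine sum_congr rfl fun i hi => ?_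
    congr 1
    ext x
    simp only [mem_symmDiff, mem_singleton, mem_erase]
    by_cases hx : x = i
    · subst hx
      simp [hi]
    · simp [hx]

/-- the sum over a layer and all flips in `U` -/
theorem layer (U : Finset α) (F : Finset α → ℚ) (d : ℕ) :
    ∑ Y ∈ U.powersetCard d, ∑ i ∈ U, F (symmDiff Y {i}) =
      ((d : ℚ) + 1) * ∑ Z ∈ U.powersetCard (d + 1), F Z +
        ∑ Y ∈ U.powersetCard d, ∑ i ∈ Y, F (Y.erase i) := by
  have h1 : ∑ Y ∈ U.powersetCard d, ∑ i ∈ U \ Y, F (insert i Y) =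
      ((d : ℚ) + 1) * ∑ Z ∈ U.powersetCard (d + 1), F Z := by
    rw [swapSum U d (fun Y i => F (insert i Y)), mul_sum]
    refine sum_congr rfl fun Z hZ => ?_
    rw [mem_powersetCard] at hZ
    rw [sum_congr rfl (g := fun _ => F Z) fun i hi => by rw [insert_erase hi], sum_const, hZ.2,
      nsmul_eq_mul]
    push_cast
    ring
  rw [← h1, ← sum_add_distrib]
  refine sum_congr rfl fun Y hY => ?_
  rw [mem_powersetCard] at hY
  exact flipSum U Y hY.1 F

theorem down (U : Finset α) (F : Finset α → ℚ) (d : ℕ)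
    (h : ∑ Y ∈ U.powersetCard d, F Y = 0) :
    ∑ Y ∈ U.powersetCard (d + 1), ∑ i ∈ Y, F (Y.erase i) = 0 := by
  rw [← swapSum U d (fun Y _ => F Y)]
  have h1 : ∀ Y ∈ U.powersetCard d, ∑ i ∈ U \ Y, F Y = ((U.card : ℚ) - d) * F Y := by
    intro Y hY
    rw [mem_powersetCard] at hY
    rw [sum_const, card_sdiff_of_subset hY.1, nsmul_eq_mul, hY.2,
      Nat.cast_sub (hY.2 ▸ card_le_card hY.1)]
  rw [sum_congr rfl h1, ← mul_sum, h, mul_zero]

theorem lemQ [Fintype α] (f : Finset α → ℚ) (hf : ∀ S, ∑ i : α, f (symmDiff S {i}) = 0)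
    (U Y₀ : Finset α) (hY : ∀ S, S ∩ U = Y₀ → f S = 0) :
    ∀ (d : ℕ) (S : Finset α), S ∩ U = Y₀ → ∑ Y ∈ U.powersetCard d, f (symmDiff S Y) = 0 := by
  have key : ∀ d : ℕ, (∀ S : Finset α, S ∩ U = Y₀ →
        ∑ Y ∈ U.powersetCard d, f (symmDiff S Y) = 0) →
      (∀ S : Finset α, S ∩ U = Y₀ →
        ∑ Y ∈ U.powersetCard d, ∑ i ∈ Y, f (symmDiff S (Y.erase i)) = 0) →
      ∀ S : Finset α, S ∩ U = Y₀ → ∑ Y ∈ U.powersetCard (d + 1), f (symmDiff S Y) = 0 := by
    intro d h1 h2 S hS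
    have h3 : ∑ Y ∈ U.powersetCard d, ∑ i : α, f (symmDiff (symmDiff S Y) {i}) = 0 :=
      sum_eq_zero fun Y _ => hf _
    have h4 : ∀ Y : Finset α, ∑ i : α, f (symmDiff (symmDiff S Y) {i}) =
        ∑ i ∈ U, f (symmDiff S (symmDiff Y {i})) +
          ∑ i ∈ Uᶜ, f (symmDiff (symmDiff S {i}) Y) := by
      intro Y
      rw [← sum_add_sum_compl U]
      congr 1
      · exact sum_congr rfl fun i _ => by rw [symmDiff_assoc]
      · exact sum_congr rfl fun i _ => by
          rw [symmDiff_assoc, symmDiff_comm Y, ← symmDiff_assoc]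
    rw [sum_congr rfl fun Y _ => h4 Y, sum_add_distrib,
      layer U (fun Y => f (symmDiff S Y)) d, h2 S hS] at h3
    have h5 : ∑ Y ∈ U.powersetCard d, ∑ i ∈ Uᶜ, f (symmDiff (symmDiff S {i}) Y) = 0 := by
      rw [sum_comm]
      refine sum_eq_zero fun i hi => h1 _ ?_
      rw [mem_compl] at hi
      rw [← hS]
      ext x
      simp only [mem_inter, mem_symmDiff, mem_singleton]
      by_cases hx : x = i
      · subst hx
        simp [hi]
      · simp [hx]
    rw [h5, add_zero, add_zero] at h3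
    have h6 : ((d : ℚ) + 1) ≠ 0 := by positivity
    exact (mul_eq_zero.1 h3).resolve_left h6
  have h0 : ∀ S : Finset α, S ∩ U = Y₀ → ∑ Y ∈ U.powersetCard 0, f (symmDiff S Y) = 0 := by
    intro S hS
    rw [powersetCard_zero, sum_singleton, ← Finset.bot_eq_empty, symmDiff_bot]
    exact hY S hS
  have h1 : ∀ S : Finset α, S ∩ U = Y₀ → ∑ Y ∈ U.powersetCard (0 + 1), f (symmDiff S Y) = 0 := by
    refine key 0 h0 fun S _ => ?_
    rw [powersetCard_zero, sum_singleton, sum_empty]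
  have h2 : ∀ d : ℕ, (∀ S : Finset α, S ∩ U = Y₀ →
        ∑ Y ∈ U.powersetCard d, f (symmDiff S Y) = 0) ∧
      (∀ S : Finset α, S ∩ U = Y₀ → ∑ Y ∈ U.powersetCard (d + 1), f (symmDiff S Y) = 0) := by
    intro d
    induction d with
    | zero => exact ⟨h0, h1⟩
    | succ d ih =>
      refine ⟨ih.2, key (d + 1) ih.2 fun S hS => ?_⟩
      exact down U (fun Y => f (symmDiff S Y)) d (ih.1 S hS)
  exact fun d => (h2 d).1

/-- the sum over all subsets of `U` -/
theorem lemQall [Fintype α] (f : Finset α → ℚ) (hf : ∀ S, ∑ i : α, f (symmDiff S {i}) = 0)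
    (U Y₀ : Finset α) (hY : ∀ S, S ∩ U = Y₀ → f S = 0) (hU : Y₀ ⊆ U) :
    ∑ Y ∈ U.powerset, f Y = 0 := by
  have h1 : ∑ Y ∈ U.powerset, f Y = ∑ Y ∈ U.powerset, f (symmDiff Y₀ Y) := by
    refine (sum_bij' (fun Y _ => symmDiff Y₀ Y) (fun Y _ => symmDiff Y₀ Y) ?_ ?_ ?_ ?_ ?_).symm
    · intro Y hYU
      rw [mem_powerset] at hYU ⊢
      intro x hx
      rw [mem_symmDiff] at hx
      rcases hx with h | h
      · exact hU h.1
      · exact hYU h.1
    · intro Y hYU
      rw [mem_powerset] at hYU ⊢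
      intro x hx
      rw [mem_symmDiff] at hx
      rcases hx with h | h
      · exact hU h.1
      · exact hYU h.1
    · intro Y _
      rw [← symmDiff_assoc, symmDiff_self, bot_symmDiff]
    · intro Y _
      rw [← symmDiff_assoc, symmDiff_self, bot_symmDiff]
    · intro Y _
      rfl
  rw [h1, sum_powerset]
  refine sum_eq_zero fun d _ => lemQ f hf U Y₀ hY d Y₀ ?_
  exact inter_eq_left.2 hU

end Pool.Agent.NTI
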