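import Pool.Agent.NTI.G
import Pool.Agent.NTI.Q

/-!
# MP_e73337_co, invariant modules: the structure theorem (helper77)
-/

set_option autoImplicit false

namespace Pool.Agent.NTI

open Finset Pool.Agent.Lib_helper61.SwitchBasic

variable {α : Type} [DecidableEq α]

/-- isomorphic by a permutation supported on `U` -/
def UEq (G : SimpleGraph α) (U X S : Finset α) : Prop :=
  ∃ τ : Equiv.Perm α, (∀ x, x ∉ U → τ x = x) ∧ (∀ x, τ x ∈ U ↔ x ∈ U) ∧
    ∀ u v, (sw G S).Adj (τ u) (τ v) ↔ (sw G X).Adj u v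

theorem UEq.iso {G : SimpleGraph α} {U X S : Finset α} (h : UEq G U X S) :
    Nonempty (sw G X ≃g sw G S) := by
  obtain ⟨τ, -, -, h3⟩ := h
  exact ⟨⟨τ, fun {u v} => h3 u v⟩⟩

theorem UEq.flip {G : SimpleGraph α} {U X S : Finset α} (h : UEq G U X S) :
    UEq G U (symmDiff X U) (symmDiff S U) := by
  obtain ⟨τ, h1, h2, h3⟩ := h
  refine ⟨τ, h1, h2, fun u v => ?_⟩
  have e := h3 u v
  rw [← sw_sw, ← sw_sw, sw_adj, sw_adj (sw G X), h2, h2, e]
  by_cases huv : u = v
  · subst huv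
    simp
  · have : τ u ≠ τ v := fun h => huv (τ.injective h)
    simp [huv]

theorem prop2 (A B su sv xu xv du dv : Prop) (e1 : (A ↔ (su ↔ sv)) ↔ (B ↔ (xu ↔ xv)))
    (e2 : (A ↔ (du ↔ dv)) ↔ B) : (du ↔ (su ↔ xu)) ↔ (dv ↔ (sv ↔ xv)) := by
  rw [← e2] at e1
  clear e2
  by_cases a1 : A <;> by_cases a2 : su <;> by_cases a3 : sv <;> by_cases a4 : xu <;>
    by_cases a5 : xv <;> by_cases a6 : du <;> by_cases a7 : dv <;>
    simp_all

theorem prop3 (A B su sv xu xv du dv : Prop) (e2 : (A ↔ (du ↔ dv)) ↔ B)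
    (e3 : du ↔ ¬ (su ↔ xu)) (e4 : dv ↔ ¬ (sv ↔ xv)) :
    (A ↔ (su ↔ sv)) ↔ (B ↔ (xu ↔ xv)) := by
  rw [← e2, e3, e4]
  clear e2 e3 e4
  by_cases a1 : A <;> by_cases a2 : su <;> by_cases a3 : sv <;> by_cases a4 : xu <;>
    by_cases a5 : xv <;> simp [a1, a2, a3, a4, a5]

theorem sw_compl [Fintype α] (G : SimpleGraph α) (D : Finset α) : sw G Dᶜ = sw G D := by
  ext u v
  rw [sw_adj, sw_adj, mem_compl, mem_compl]
  tauto

/-- the switching set of a class automorphism supported on `U` can be taken in `U` -/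
theorem restrD [Fintype α] {G : SimpleGraph α} {U : Finset α} {τ : Equiv.Perm α}
    (h : IsClassAut G τ) (hτ : ∀ x, x ∉ U → τ x = x) :
    ∃ D ⊆ U, ∀ u v, (sw G D).Adj (τ u) (τ v) ↔ G.Adj u v := by
  obtain ⟨D, hD⟩ := h
  have h1 : ∀ x, x ∉ U → ∀ y, y ∉ U → (x ∈ D ↔ y ∈ D) := by
    intro x hx y hy
    by_cases hxy : x = y
    · rw [hxy]
    · have h2 := hD x y
      rw [hτ x hx, hτ y hy, sw_adj] at h2
      simp only [hxy, ne_eq, not_false_eq_true, true_and] at h2
      tauto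
  by_cases hw : ∃ w, w ∉ U ∧ w ∈ D
  · obtain ⟨w, hw, hwD⟩ := hw
    refine ⟨Dᶜ, fun x hx => ?_, fun u v => by rw [sw_compl]; exact hD u v⟩
    by_contra hxU
    rw [mem_compl] at hx
    exact hx ((h1 w hw x hxU).1 hwD)
  · refine ⟨D, fun x hx => ?_, hD⟩
    by_contra hxU
    exact hw ⟨x, hxU, hx⟩

theorem key3 [Fintype α] {G : SimpleGraph α} {U : Finset α} (hU : Splits G U) (X S : Finset α)
    (φ : sw G X ≃g sw G S) :
    UEq G U (X ∩ U) (S ∩ U) ∨ UEq G U (X ∩ U) (symmDiff (S ∩ U) U) := by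
  have hσ : IsClassAut G φ.toEquiv := classAut_of_iso G X S φ
  have hinv := hU.1 _ hσ
  obtain ⟨τ, h1, h2, h3⟩ := restr hU hσ
  obtain ⟨D, hDU, hD⟩ := restrD h1 h3
  have hτU : ∀ x, τ x ∈ U ↔ x ∈ U := by
    intro x
    by_cases hx : x ∈ U
    · rw [h2 x hx]
      exact hinv x
    · rw [h3 x hx]
  have hrel : ∀ u ∈ U, ∀ v ∈ U, ((τ u ∈ D ↔ (τ u ∈ S ↔ u ∈ X)) ↔
      (τ v ∈ D ↔ (τ v ∈ S ↔ v ∈ X))) := by
    intro u hu v hv
    by_cases huv : u = v
    · rw [huv]
    · have hne : τ u ≠ τ v := fun h => huv (τ.injective h)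
      have e1 : (sw G S).Adj (τ u) (τ v) ↔ (sw G X).Adj u v := by
        rw [h2 u hu, h2 v hv]
        exact φ.map_rel_iff'
      have e2 := hD u v
      rw [sw_adj] at e1 e2
      rw [sw_adj] at e1
      simp only [hne, huv, ne_eq, not_false_eq_true, true_and] at e1 e2
      exact prop2 _ _ _ _ _ _ _ _ e1 e2
  -- the isomorphism in both cases
  have hiso : ∀ X' S' : Finset α, (∀ u, τ u ∈ D ↔ ¬ (τ u ∈ S' ↔ u ∈ X')) → UEq G U X' S' := by
    intro X' S' hh
    refine ⟨τ, h3, hτU, fun u v => ?_⟩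
    have e2 := hD u v
    rw [sw_adj] at e2 ⊢
    rw [sw_adj]
    by_cases huv : u = v
    · subst huv
      simp
    · have hne : τ u ≠ τ v := fun h => huv (τ.injective h)
      simp only [hne, huv, ne_eq, not_false_eq_true, true_and] at e2 ⊢
      exact prop3 _ _ _ _ _ _ _ _ e2 (hh u) (hh v)
  by_cases hc : ∃ u₀ ∈ U, (τ u₀ ∈ D ↔ (τ u₀ ∈ S ↔ u₀ ∈ X))
  · obtain ⟨u₀, hu₀, hc⟩ := hc
    right
    refine hiso _ _ fun u => ?_
    by_cases hu : u ∈ U
    · have e := (hrel u₀ hu₀ u hu).1 hc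
      have hu' := (hτU u).2 hu
      simp only [mem_symmDiff, mem_inter, hu, hu', and_true, not_true_eq_false, and_false,
        true_and, false_or]
      tauto
    · have hu' : τ u ∉ U := fun h => hu ((hτU u).1 h)
      have : τ u ∉ D := fun h => hu' (hDU h)
      simp [this, mem_symmDiff, hu, hu']
  · push Not at hc
    left
    refine hiso _ _ fun u => ?_
    by_cases hu : u ∈ U
    · have e := hc u hu
      have hu' := (hτU u).2 hu
      simp only [mem_inter, hu, hu', and_true]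
      tauto
    · have hu' : τ u ∉ U := fun h => hu ((hτU u).1 h)
      have : τ u ∉ D := fun h => hu' (hDU h)
      simp [this, hu, hu']

/-- relative size -/
def rr (U t Z : Finset α) : ℕ := ((symmDiff Z t) ∩ U).card

theorem rr_inter (U t Z : Finset α) : rr U t (Z ∩ U) = rr U t Z := by
  unfold rr
  congr 1
  ext x
  simp only [mem_inter, mem_symmDiff]
  tauto

theorem rr_flip (U t Z : Finset α) : rr U t (symmDiff Z U) + rr U t Z = U.card := by
  unfold rr
  have h1 : (symmDiff (symmDiff Z U) t) ∩ U = U \ ((symmDiff Z t) ∩ U) := by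
    ext x
    simp only [mem_inter, mem_symmDiff, mem_sdiff]
    tauto
  rw [h1, card_sdiff_of_subset inter_subset_right]
  have h2 := card_le_card (inter_subset_right : (symmDiff Z t) ∩ U ⊆ U)
  omega

/-- the neighbours of `x` -/
noncomputable def nbr [Fintype α] (G : SimpleGraph α) (x : α) : Finset α := by
  classical exact univ.filter fun v => G.Adj x v

theorem mem_nbr [Fintype α] (G : SimpleGraph α) (x v : α) : v ∈ nbr G x ↔ G.Adj x v := by
  simp [nbr]

theorem UEq.size [Fintype α] {G : SimpleGraph α} {U X S : Finset α} (h : UEq G U X S)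
    (hX : X ⊆ U) (hS : S ⊆ U) (w : α) (hw : w ∉ U) : rr U (nbr G w) S = rr U (nbr G w) X := by
  obtain ⟨τ, h1, h2, h3⟩ := h
  unfold rr
  have hmem : ∀ u ∈ U, (τ u ∈ symmDiff S (nbr G w) ↔ u ∈ symmDiff X (nbr G w)) := by
    intro u hu
    have e := h3 w u
    rw [h1 w hw, sw_adj, sw_adj] at e
    have n1 : w ≠ τ u := fun h => hw (h ▸ (h2 u).2 hu)
    have n2 : w ≠ u := fun h => hw (h ▸ hu)
    have n3 : w ∉ S := fun h => hw (hS h)
    have n4 : w ∉ X := fun h => hw (hX h)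
    simp only [n1, n2, n3, n4, ne_eq, not_false_eq_true, true_and, false_iff] at e
    simp only [mem_symmDiff, mem_nbr]
    tauto
  have himg : (symmDiff S (nbr G w)) ∩ U = ((symmDiff X (nbr G w)) ∩ U).map τ.toEmbedding := by
    ext x
    obtain ⟨u, rfl⟩ := τ.surjective x
    rw [mem_map_perm, mem_inter, mem_inter, h2 u]
    constructor
    · rintro ⟨a, b⟩
      exact ⟨(hmem u b).1 a, b⟩
    · rintro ⟨a, b⟩
      exact ⟨(hmem u b).2 a, b⟩
  rw [himg, card_map]

theorem size [Fintype α] {G : SimpleGraph α} {U : Finset α} (hU : Splits G U) (X S : Finset α)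
    (φ : sw G X ≃g sw G S) (w : α) (hw : w ∉ U) :
    rr U (nbr G w) S = rr U (nbr G w) X ∨ rr U (nbr G w) S + rr U (nbr G w) X = U.card := by
  rcases key3 hU X S φ with h | h
  · left
    have := h.size inter_subset_right inter_subset_right w hw
    rwa [rr_inter, rr_inter] at this
  · right
    have hs : symmDiff (S ∩ U) U ⊆ U := by
      intro x hx
      rw [mem_symmDiff] at hx
      rcases hx with h | h
      · exact (mem_inter.1 h.1).2
      · exact h.1
    have e1 := h.size inter_subset_right hs w hw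
    have e2 := rr_flip U (nbr G w) (S ∩ U)
    rw [rr_inter] at e1 e2
    omega

/-- a subset of `U` with a given relative size -/
theorem exists_rr (U t : Finset α) (c : ℕ) (hc : c ≤ U.card) : ∃ Y ⊆ U, rr U t Y = c := by
  obtain ⟨C, hCU, hC⟩ := exists_subset_card_eq hc
  refine ⟨(symmDiff C t) ∩ U, inter_subset_right, ?_⟩
  unfold rr
  rw [← hC]
  congr 1
  ext x
  simp only [mem_inter, mem_symmDiff]
  have : x ∈ C → x ∈ U := fun h => hCU h
  tauto

end Pool.Agent.NTI
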