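import Mathlib

/-!
# MP_e73337_co, sign matrices with equal sums after switching two rows (helper77)
-/

set_option autoImplicit false

namespace Pool.Agent.NTI

open Finset

variable {ι : Type} [DecidableEq ι]

/-- a symmetric sign matrix with `R_V + R_W = 2 D(V, W)` for all `V ≠ W` has 0, 1, 2 or 4 rows -/
theorem mat_count (P : Finset ι) (D : ι → ι → ℤ)
    (h1 : ∀ V ∈ P, ∀ W ∈ P, V ≠ W → D V W = 1 ∨ D V W = -1)
    (hR : ∀ V ∈ P, ∀ W ∈ P, V ≠ W →
      ∑ X ∈ P.erase V, D V X + ∑ X ∈ P.erase W, D W X = 2 * D V W) :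
    P.card = 0 ∨ P.card = 1 ∨ P.card = 2 ∨ P.card = 4 := by
  set R : ι → ℤ := fun V => ∑ X ∈ P.erase V, D V X with hRdef
  set T : ℤ := ∑ V ∈ P, R V with hT
  -- sum over `W ≠ V`
  have e1 : ∀ V ∈ P, ((P.card : ℤ) - 4) * R V + T = 0 := by
    intro V hV
    have a1 : ∑ W ∈ P.erase V, (R V + R W) = ∑ W ∈ P.erase V, 2 * D V W := by
      refine sum_congr rfl fun W hW => ?_
      rw [mem_erase] at hW
      exact hR V hV W hW.2 (fun h => hW.1 h.symm)
    rw [sum_add_distrib, ← mul_sum, sum_const, card_erase_of_mem hV, nsmul_eq_mul,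
      Nat.cast_sub (card_pos.2 ⟨V, hV⟩)] at a1
    have a2 : ∑ W ∈ P.erase V, R W + R V = T := sum_erase_add P R hV
    have a3 : ∑ W ∈ P.erase V, D V W = R V := rfl
    rw [a3] at a1
    push_cast at a1
    linarith
  have e2 : (2 * (P.card : ℤ) - 4) * T = 0 := by
    have a1 : ∑ V ∈ P, (((P.card : ℤ) - 4) * R V + T) = 0 := sum_eq_zero e1
    rw [sum_add_distrib, ← mul_sum, sum_const, nsmul_eq_mul] at a1
    linarith
  by_contra hcon
  simp only [not_or] at hcon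
  obtain ⟨n0, n1, n2, n4⟩ := hcon
  have hT0 : T = 0 := by
    rcases mul_eq_zero.1 e2 with h | h
    · omega
    · exact h
  have hR0 : ∀ V ∈ P, R V = 0 := by
    intro V hV
    have := e1 V hV
    rw [hT0, add_zero] at this
    rcases mul_eq_zero.1 this with h | h
    · omega
    · exact h
  obtain ⟨V, hV, W, hW, hVW⟩ : ∃ V ∈ P, ∃ W ∈ P, V ≠ W := by
    have : 1 < P.card := by omega
    exact (one_lt_card.1 this).imp fun V h => ⟨h.1, h.2.imp fun W h' => h'⟩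
  have h2 := hR V hV W hW hVW
  have h3 : ∑ X ∈ P.erase V, D V X = 0 := hR0 V hV
  have h4 : ∑ X ∈ P.erase W, D W X = 0 := hR0 W hW
  rw [h3, h4] at h2
  rcases h1 V hV W hW hVW with h | h <;> omega

/-- the sum of the entries of `D` over the pairs of different members of `P` -/
theorem switch_sum (P : Finset ι) (D D' : ι → ι → ℤ) (hs : ∀ V W, D V W = D W V)
    {V W : ι} (hV : V ∈ P) (hW : W ∈ P) (hVW : V ≠ W)
    (hD' : ∀ X ∈ P, ∀ Y ∈ P, X ≠ Y → D' X Y = if ((X = V ∨ X = W) ↔ (Y = V ∨ Y = W))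
      then D X Y else - D X Y)
    (hsum : ∑ X ∈ P, ∑ Y ∈ P.erase X, D' X Y = ∑ X ∈ P, ∑ Y ∈ P.erase X, D X Y) :
    ∑ X ∈ P.erase V, D V X + ∑ X ∈ P.erase W, D W X = 2 * D V W := by
  set Q := (P.erase V).erase W with hQ
  have hWV : W ∈ P.erase V := mem_erase.2 ⟨hVW.symm, hW⟩
  have hVW' : V ∈ P.erase W := mem_erase.2 ⟨hVW, hV⟩
  have hQc : (P.erase W).erase V = Q := by
    rw [hQ, erase_right_comm]
  have hQP : ∀ X ∈ Q, X ∈ P ∧ X ≠ V ∧ X ≠ W := by
    intro X hX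
    rw [hQ, mem_erase, mem_erase] at hX
    exact ⟨hX.2.2, hX.2.1, hX.1⟩
  -- split a double sum
  have split : ∀ E : ι → ι → ℤ, ∑ X ∈ P, ∑ Y ∈ P.erase X, E X Y =
      (E V W + ∑ Y ∈ Q, E V Y) + (E W V + ∑ Y ∈ Q, E W Y) +
        ∑ X ∈ Q, (E X V + E X W + ∑ Y ∈ Q.erase X, E X Y) := by
    intro E
    have s1 : ∑ X ∈ P, ∑ Y ∈ P.erase X, E X Y =
        ∑ Y ∈ P.erase V, E V Y + ∑ X ∈ P.erase V, ∑ Y ∈ P.erase X, E X Y :=
      (add_sum_erase P (fun X => ∑ Y ∈ P.erase X, E X Y) hV).symm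
    have s2 : ∑ X ∈ P.erase V, ∑ Y ∈ P.erase X, E X Y = ∑ Y ∈ P.erase W, E W Y +
        ∑ X ∈ (P.erase V).erase W, ∑ Y ∈ P.erase X, E X Y :=
      (add_sum_erase (P.erase V) (fun X => ∑ Y ∈ P.erase X, E X Y) hWV).symm
    have a1 : ∑ Y ∈ P.erase V, E V Y = E V W + ∑ Y ∈ Q, E V Y := (add_sum_erase _ _ hWV).symm
    have a2 : ∑ Y ∈ P.erase W, E W Y = E W V + ∑ Y ∈ Q, E W Y := by
      rw [← hQc]
      exact (add_sum_erase _ _ hVW').symm
    have a3 : ∑ X ∈ (P.erase V).erase W, ∑ Y ∈ P.erase X, E X Y =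
        ∑ X ∈ Q, (E X V + E X W + ∑ Y ∈ Q.erase X, E X Y) := by
      refine sum_congr rfl fun X hX => ?_
      obtain ⟨hXP, hXV, hXW⟩ := hQP X hX
      have b1 : V ∈ P.erase X := mem_erase.2 ⟨hXV.symm, hV⟩
      have b2 : W ∈ (P.erase X).erase V := mem_erase.2 ⟨hVW.symm, mem_erase.2 ⟨hXW.symm, hW⟩⟩
      have b3 : ((P.erase X).erase V).erase W = Q.erase X := by
        ext Y
        simp only [hQ, mem_erase]
        tauto
      rw [← add_sum_erase _ _ b1, ← add_sum_erase _ _ b2, b3]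
      ring
    rw [s1, s2, a1, a2, a3]
    ring
  rw [split, split] at hsum
  have c1 : D' V W = D V W := by
    rw [hD' V hV W hW hVW, if_pos (iff_of_true (Or.inl rfl) (Or.inr rfl))]
  have c2 : D' W V = D W V := by
    rw [hD' W hW V hV hVW.symm, if_pos (iff_of_true (Or.inr rfl) (Or.inl rfl))]
  have c3 : ∑ Y ∈ Q, D' V Y = - ∑ Y ∈ Q, D V Y := by
    rw [← sum_neg_distrib]
    refine sum_congr rfl fun Y hY => ?_
    obtain ⟨h1, h2, h3⟩ := hQP Y hY
    rw [hD' V hV Y h1 h2.symm, if_neg]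
    intro h
    rcases h.1 (Or.inl rfl) with h | h
    · exact h2 h
    · exact h3 h
  have c4 : ∑ Y ∈ Q, D' W Y = - ∑ Y ∈ Q, D W Y := by
    rw [← sum_neg_distrib]
    refine sum_congr rfl fun Y hY => ?_
    obtain ⟨h1, h2, h3⟩ := hQP Y hY
    rw [hD' W hW Y h1 h3.symm, if_neg]
    intro h
    rcases h.1 (Or.inr rfl) with h | h
    · exact h2 h
    · exact h3 h
  have c5 : ∑ X ∈ Q, (D' X V + D' X W + ∑ Y ∈ Q.erase X, D' X Y) =
      ∑ X ∈ Q, (- D V X - D W X + ∑ Y ∈ Q.erase X, D X Y) := by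
    refine sum_congr rfl fun X hX => ?_
    obtain ⟨h1, h2, h3⟩ := hQP X hX
    have n1 : ¬ (X = V ∨ X = W) := by
      rintro (h | h)
      · exact h2 h
      · exact h3 h
    have d1 : D' X V = - D X V := by
      rw [hD' X h1 V hV h2, if_neg (fun h => n1 (h.2 (Or.inl rfl)))]
    have d2 : D' X W = - D X W := by
      rw [hD' X h1 W hW h3, if_neg (fun h => n1 (h.2 (Or.inr rfl)))]
    have d3 : ∑ Y ∈ Q.erase X, D' X Y = ∑ Y ∈ Q.erase X, D X Y := by
      refine sum_congr rfl fun Y hY => ?_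
      rw [mem_erase] at hY
      obtain ⟨k1, k2, k3⟩ := hQP Y hY.2
      have n2 : ¬ (Y = V ∨ Y = W) := by
        rintro (h | h)
        · exact k2 h
        · exact k3 h
      rw [hD' X h1 Y k1 hY.1.symm, if_pos (iff_of_false n1 n2)]
    rw [d1, d2, d3, hs X V, hs X W]
    ring
  have c6 : ∑ X ∈ Q, (D X V + D X W + ∑ Y ∈ Q.erase X, D X Y) =
      ∑ X ∈ Q, (D V X + D W X + ∑ Y ∈ Q.erase X, D X Y) := by
    refine sum_congr rfl fun X _ => ?_
    rw [hs X V, hs X W]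
  rw [c1, c2, c3, c4, c5, c6] at hsum
  simp only [sum_add_distrib, sum_sub_distrib, sum_neg_distrib] at hsum
  have a1 : ∑ Y ∈ P.erase V, D V Y = D V W + ∑ Y ∈ Q, D V Y := (add_sum_erase _ _ hWV).symm
  have a2 : ∑ Y ∈ P.erase W, D W Y = D W V + ∑ Y ∈ Q, D W Y := by
    rw [← hQc]
    exact (add_sum_erase _ _ hVW').symm
  rw [a1, a2, hs W V]
  linarith

end Pool.Agent.NTI
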