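import Pool.Agent.NTI.M

/-!
# MP_e73337_co, invariant modules: the structure theorem, second part (helper77)
-/

set_option autoImplicit false

namespace Pool.Agent.NTI

open Finset Pool.Agent.Lib_helper61.SwitchBasic

section

variable {α : Type} [DecidableEq α] [Fintype α] {G H : SimpleGraph α}

theorem cntGG : 0 < cnt G G := cnt_pos G G ∅ (by rw [sw_empty]; exact ⟨SimpleGraph.Iso.refl⟩)

theorem cntGH (h : SameDeck G H) (i : α) : 0 < cnt G H := by
  obtain ⟨T, hT⟩ := exists_sw h i
  exact cnt_pos G H T hT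

theorem ff_pos (hne : ¬ Nonempty (G ≃g H)) (hp : 0 < cnt G H) (S : Finset α)
    (h : Nonempty (sw G S ≃g G)) : 0 < ff G H S := by
  have h2 : ¬ Nonempty (sw G S ≃g H) := by
    rintro ⟨ψ⟩
    obtain ⟨φ⟩ := h
    exact hne ⟨φ.symm.trans ψ⟩
  unfold ff
  rw [ind_of _ _ h, ind_of_not _ _ h2]
  linarith

theorem ff_neg (hne : ¬ Nonempty (G ≃g H)) (S : Finset α)
    (h : Nonempty (sw G S ≃g H)) : ff G H S < 0 := by
  have h2 : ¬ Nonempty (sw G S ≃g G) := by
    rintro ⟨ψ⟩
    obtain ⟨φ⟩ := h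
    exact hne ⟨ψ.symm.trans φ⟩
  have h3 : 0 < cnt G G := cntGG
  unfold ff
  rw [ind_of _ _ h, ind_of_not _ _ h2]
  linarith

theorem ff_cases (S : Finset α) (h : ff G H S ≠ 0) :
    Nonempty (sw G S ≃g G) ∨ Nonempty (sw G S ≃g H) := by
  by_contra hcon
  rw [not_or] at hcon
  apply h
  unfold ff
  rw [ind_of_not _ _ hcon.1, ind_of_not _ _ hcon.2]
  ring

theorem ff_nonneg (hne : ¬ Nonempty (G ≃g H)) (hp : 0 < cnt G H) (S : Finset α)
    (h : ¬ Nonempty (sw G S ≃g H)) : 0 ≤ ff G H S := by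
  by_cases h0 : ff G H S = 0
  · rw [h0]
  · rcases ff_cases S h0 with h1 | h1
    · exact (ff_pos hne hp S h1).le
    · exact absurd h1 h

theorem sw_univ : sw G univ = G := by
  ext u v
  rw [sw_adj]
  simp only [mem_univ, iff_true]
  constructor
  · exact fun h => h.2
  · exact fun h => ⟨h.ne, h⟩

theorem mod4 (hdeck : SameDeck G H) (hne : ¬ Nonempty (G ≃g H))
    (i : α) : Fintype.card α % 4 = 0 := by
  have hp := cntGH hdeck i
  have hfe : ff G H ∅ = cnt G H := ff_empty hne
  have hsum : ∀ S, ∑ i ∈ (univ : Finset α), ff G H (symmDiff S {i}) = ((0 : ℤ) : ℚ) * ff G H S := by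
    intro S
    rw [sum_ff hdeck S]
    simp
  have heig := eigen (univ : Finset α) 0 (ff G H) hsum
  rw [card_univ] at heig
  rcases Nat.even_or_odd (Fintype.card α) with he | ho
  · obtain ⟨j, hj⟩ := he
    have h1 := heig.1 j (by rw [hj]; push_cast; ring) ∅
    have h2 : symmDiff (∅ : Finset α) univ = univ := by
      rw [← Finset.bot_eq_empty, bot_symmDiff]
    rw [h2] at h1
    have h3 : ff G H univ = ff G H ∅ := by
      unfold ff
      rw [sw_univ, sw_empty]
    rw [h3, hfe] at h1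
    rcases Nat.even_or_odd j with hje | hjo
    · obtain ⟨m, hm⟩ := hje
      omega
    · exfalso
      rw [Int.negOnePow_odd _ (by exact_mod_cast hjo)] at h1
      push_cast at h1
      linarith
  · exfalso
    have h1 := heig.2 (by simpa using ho) ∅
    rw [hfe] at h1
    linarith

/-- if no subset of `U` switches `G` to `H`, then every subset of `U` is a trace -/
theorem occur (hdeck : SameDeck G H) (hne : ¬ Nonempty (G ≃g H)) (hp : 0 < cnt G H)
    (U : Finset α) (h : ∀ Y ⊆ U, ¬ Nonempty (sw G Y ≃g H)) (Y₀ : Finset α) (hY : Y₀ ⊆ U) :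
    ∃ S, S ∩ U = Y₀ ∧ ff G H S ≠ 0 := by
  by_contra hcon
  push Not at hcon
  have h1 := lemQall (ff G H) (sum_ff hdeck) U Y₀ hcon hY
  have h2 : 0 < ∑ Y ∈ U.powerset, ff G H Y := by
    refine sum_pos' (fun Y hYU => ff_nonneg hne hp Y (h Y (mem_powerset.1 hYU)))
      ⟨∅, mem_powerset.2 (empty_subset _), ?_⟩
    rw [ff_empty hne]
    exact hp
  linarith

/-- the possible relative sizes -/
theorem sizes {U : Finset α} (hU : Splits G U) (w : α) (hw : w ∉ U) (X₀ : Finset α)
    (hX : Nonempty (sw G X₀ ≃g H)) (S : Finset α) (hS : ff G H S ≠ 0) :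
    (rr U (nbr G w) S = rr U (nbr G w) ∅ ∨
      rr U (nbr G w) S + rr U (nbr G w) ∅ = U.card) ∨
    (rr U (nbr G w) S = rr U (nbr G w) X₀ ∨
      rr U (nbr G w) S + rr U (nbr G w) X₀ = U.card) := by
  rcases ff_cases S hS with h | h
  · obtain ⟨φ⟩ := h
    left
    have ψ : sw G ∅ ≃g sw G S := by
      rw [sw_empty]
      exact φ.symm
    exact size hU ∅ S ψ w hw
  · obtain ⟨φ⟩ := h
    right
    obtain ⟨θ⟩ := hX
    exact size hU X₀ S (θ.trans φ.symm) w hw

theorem rr_le (U t Z : Finset α) : rr U t Z ≤ U.card := card_le_card inter_subset_right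

/-- first step -/
theorem stepA (hdeck : SameDeck G H) (hne : ¬ Nonempty (G ≃g H)) {U : Finset α}
    (hU : Splits G U) (h4 : 4 ≤ U.card) (w : α) (hw : w ∉ U) :
    ∃ Y ⊆ U, Nonempty (sw G Y ≃g H) := by
  by_contra hcon
  have hcon' : ∀ Y ⊆ U, ¬ Nonempty (sw G Y ≃g H) := fun Y hY h => hcon ⟨Y, hY, h⟩
  have hp := cntGH hdeck w
  obtain ⟨X₀, hX⟩ := exists_sw hdeck w
  have hocc : ∀ c ≤ U.card, (c = rr U (nbr G w) ∅ ∨ c + rr U (nbr G w) ∅ = U.card) ∨
      (c = rr U (nbr G w) X₀ ∨ c + rr U (nbr G w) X₀ = U.card) := by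
    intro c hc
    obtain ⟨Y₀, hY₀, hr⟩ := exists_rr U (nbr G w) c hc
    obtain ⟨S, hS, hS0⟩ := occur hdeck hne hp U hcon' Y₀ hY₀
    have h1 := sizes hU w hw X₀ hX S hS0
    have h2 : rr U (nbr G w) S = c := by
      rw [← rr_inter, hS, hr]
    rwa [h2] at h1
  have h0 := hocc 0 (by omega)
  have h1 := hocc 1 (by omega)
  have h2 := hocc 2 (by omega)
  omega

/-- second step -/
theorem stepB (hdeck : SameDeck G H) (hne : ¬ Nonempty (G ≃g H)) {U : Finset α}
    (hU : Splits G U) (h2 : 2 ≤ U.card) (w : α) (hw : w ∉ U) (X₀ : Finset α)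
    (hX : Nonempty (sw G X₀ ≃g H)) (hd : X₀ ∩ U = ∅) :
    ∃ Y ⊆ U, Nonempty (sw G Y ≃g H) := by
  by_contra hcon
  have hcon' : ∀ Y ⊆ U, ¬ Nonempty (sw G Y ≃g H) := fun Y hY h => hcon ⟨Y, hY, h⟩
  have hp := cntGH hdeck w
  have hX0 : rr U (nbr G w) X₀ = rr U (nbr G w) ∅ := by
    rw [← rr_inter, hd]
  have hocc : ∀ c ≤ U.card, (c = rr U (nbr G w) ∅ ∨ c + rr U (nbr G w) ∅ = U.card) := by
    intro c hc
    obtain ⟨Y₀, hY₀, hr⟩ := exists_rr U (nbr G w) c hc
    obtain ⟨S, hS, hS0⟩ := occur hdeck hne hp U hcon' Y₀ hY₀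
    have h1 := sizes hU w hw X₀ hX S hS0
    have h2 : rr U (nbr G w) S = c := by
      rw [← rr_inter, hS, hr]
    rw [h2, hX0, or_self] at h1
    exact h1
  have h0 := hocc 0 (by omega)
  have h1 := hocc 1 (by omega)
  omega

/-- `H` is `G` switched at `U` -/
theorem switched (hn : Fintype.card α ≠ 4) (hdeck : SameDeck G H) (hne : ¬ Nonempty (G ≃g H))
    {U : Finset α} (hU : Splits G U) (h2 : 2 ≤ U.card) (h2' : 2 ≤ Uᶜ.card) :
    Nonempty (sw G U ≃g H) := by
  have hsum : U.card + Uᶜ.card = Fintype.card α := card_add_card_compl U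
  obtain ⟨w, hw⟩ : ∃ w, w ∈ Uᶜ := card_pos.1 (by omega)
  obtain ⟨v, hv⟩ : ∃ v, v ∈ U := card_pos.1 (by omega)
  have hwU : w ∉ U := mem_compl.1 hw
  have hvU : v ∉ Uᶜ := by rw [mem_compl, not_not]; exact hv
  have h4 := mod4 hdeck hne w
  have hUc : Splits G Uᶜ := splits_compl hU
  -- subsets of both parts
  obtain ⟨Y, hY, hYH, Z, hZ, hZH⟩ : ∃ Y ⊆ U, Nonempty (sw G Y ≃g H) ∧
      ∃ Z ⊆ Uᶜ, Nonempty (sw G Z ≃g H) := by
    rcases le_or_gt 4 U.card with h | h
    · obtain ⟨Y, hY, hYH⟩ := stepA hdeck hne hU h w hwU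
      refine ⟨Y, hY, hYH, stepB hdeck hne hUc h2' v hvU Y hYH ?_⟩
      ext x
      simp only [mem_inter, mem_compl, notMem_empty, iff_false, not_and, not_not]
      exact fun hx => hY hx
    · obtain ⟨Z, hZ, hZH⟩ := stepA hdeck hne hUc (by omega) v hvU
      obtain ⟨Y, hY, hYH⟩ := stepB hdeck hne hU h2 w hwU Z hZH (by
        ext x
        simp only [mem_inter, notMem_empty, iff_false, not_and]
        exact fun hx => mem_compl.1 (hZ hx))
      exact ⟨Y, hY, hYH, Z, hZ, hZH⟩
  obtain ⟨φ⟩ := hYH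
  obtain ⟨ψ⟩ := hZH
  have e1 : Y ∩ U = Y := inter_eq_left.2 hY
  have e2 : Z ∩ U = ∅ := by
    ext x
    simp only [mem_inter, notMem_empty, iff_false, not_and]
    exact fun hx => mem_compl.1 (hZ hx)
  have hk := key3 hU Y Z (φ.trans ψ.symm)
  rw [e1, e2] at hk
  rcases hk with h | h
  · obtain ⟨θ⟩ := h.iso
    rw [sw_empty] at θ
    exact absurd ⟨θ.symm.trans φ⟩ hne
  · have e3 : symmDiff (∅ : Finset α) U = U := by
      rw [← Finset.bot_eq_empty, bot_symmDiff]
    rw [e3] at h
    obtain ⟨θ⟩ := h.iso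
    exact ⟨θ.symm.trans φ⟩

/-- every vertex outside `U` has exactly half of `U` as neighbours -/
theorem half (hn : Fintype.card α ≠ 4) (hdeck : SameDeck G H) (hne : ¬ Nonempty (G ≃g H))
    {U : Finset α} (hU : Splits G U) (h3 : 3 ≤ U.card) (h2' : 2 ≤ Uᶜ.card) (w : α)
    (hw : w ∉ U) : 2 * ((nbr G w) ∩ U).card = U.card := by
  obtain ⟨θ⟩ := switched hn hdeck hne hU (by omega) h2'
  have hp := cntGH hdeck w
  have ha : rr U (nbr G w) ∅ = ((nbr G w) ∩ U).card := by
    unfold rr
    rw [← Finset.bot_eq_empty, bot_symmDiff]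
  have hb : rr U (nbr G w) U + rr U (nbr G w) ∅ = U.card := by
    have := rr_flip U (nbr G w) ∅
    rwa [show symmDiff (∅ : Finset α) U = U by rw [← Finset.bot_eq_empty, bot_symmDiff]] at this
  -- exact sizes inside `U`
  have hexact : ∀ Z ⊆ U, Nonempty (sw G Z ≃g H) →
      rr U (nbr G w) Z + rr U (nbr G w) ∅ = U.card := by
    rintro Z hZ ⟨φ⟩
    have e1 : Z ∩ U = Z := inter_eq_left.2 hZ
    have hk := key3 hU U Z (θ.trans φ.symm)
    rw [e1, inter_self] at hk
    rcases hk with h | h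
    · rw [h.size (Subset.refl U) hZ w hw]
      exact hb
    · exfalso
      have h' := h.flip
      rw [symmDiff_self, sd_cancel, Finset.bot_eq_empty] at h'
      obtain ⟨χ⟩ := h'.iso
      rw [sw_empty] at χ
      exact hne ⟨χ.trans φ⟩
  have hsz : ∀ S, ff G H S ≠ 0 → rr U (nbr G w) S = rr U (nbr G w) ∅ ∨
      rr U (nbr G w) S + rr U (nbr G w) ∅ = U.card := by
    intro S hS
    have h1 := sizes hU w hw U ⟨θ⟩ S hS
    have h5 := rr_le U (nbr G w) S
    omega
  by_contra hcon
  rw [← ha] at hcon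
  -- a set which is no trace, in a good position
  have hfin : ∀ Y₀ ⊆ U, rr U (nbr G w) Y₀ ≠ rr U (nbr G w) ∅ →
      rr U (nbr G w) Y₀ + rr U (nbr G w) ∅ ≠ U.card →
      (∀ Y ⊆ U, Y.card = Y₀.card →
        rr U (nbr G w) (symmDiff Y₀ Y) + rr U (nbr G w) ∅ ≠ U.card) → False := by
    intro Y₀ hY₀ h1 h2 h3
    have hno : ∀ S, S ∩ U = Y₀ → ff G H S = 0 := by
      intro S hS
      by_contra h0
      have h4 := hsz S h0
      rw [← rr_inter, hS] at h4
      rcases h4 with h4 | h4
      · exact h1 h4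
      · exact h2 h4
    have h5 := lemQ (ff G H) (sum_ff hdeck) U Y₀ hno Y₀.card Y₀ (inter_eq_left.2 hY₀)
    have h6 : 0 < ∑ Y ∈ U.powersetCard Y₀.card, ff G H (symmDiff Y₀ Y) := by
      refine sum_pos' (fun Y hY => ff_nonneg hne hp _ fun hH => ?_)
        ⟨Y₀, mem_powersetCard.2 ⟨hY₀, rfl⟩, ?_⟩
      · rw [mem_powersetCard] at hY
        refine h3 Y hY.1 hY.2 (hexact _ ?_ hH)
        intro x hx
        rw [mem_symmDiff] at hx
        rcases hx with h | h
        · exact hY₀ h.1
        · exact hY.1 h.1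
      · rw [symmDiff_self, Finset.bot_eq_empty, ff_empty hne]
        exact hp
    linarith
  by_cases hz : rr U (nbr G w) ∅ = 0 ∨ rr U (nbr G w) ∅ = U.card
  · -- one vertex
    obtain ⟨u, hu⟩ : ∃ u, u ∈ U := card_pos.1 (by omega)
    have hrr : ∀ Z ⊆ U, (rr U (nbr G w) ∅ = 0 → rr U (nbr G w) Z = Z.card) ∧
        (rr U (nbr G w) ∅ = U.card → rr U (nbr G w) Z + Z.card = U.card) := by
      intro Z hZ
      constructor
      · intro h0
        rw [ha, card_eq_zero] at h0
        unfold rr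
        congr 1
        ext x
        have h1 : x ∉ (nbr G w) ∩ U := by rw [h0]; exact notMem_empty x
        rw [mem_inter] at h1
        simp only [mem_inter, mem_symmDiff]
        have h2 : x ∈ Z → x ∈ U := fun h => hZ h
        tauto
      · intro h0
        rw [ha] at h0
        have h1 : (nbr G w) ∩ U = U := eq_of_subset_of_card_le inter_subset_right h0.ge
        have h2 : (symmDiff Z (nbr G w)) ∩ U = U \ Z := by
          ext x
          have h3 : x ∈ U → x ∈ nbr G w := fun h => (mem_inter.1 (h1.ge h)).1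
          simp only [mem_inter, mem_symmDiff, mem_sdiff]
          tauto
        unfold rr
        rw [h2, card_sdiff_of_subset hZ]
        have := card_le_card hZ
        omega
    have hsub : ({u} : Finset α) ⊆ U := singleton_subset_iff.2 hu
    have e1 := hrr {u} hsub
    rw [card_singleton] at e1
    refine hfin {u} hsub ?_ ?_ ?_
    · rcases hz with h | h
      · have := e1.1 h
        omega
      · have := e1.2 h
        omega
    · rcases hz with h | h
      · have := e1.1 h
        omega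
      · have := e1.2 h
        omega
    · intro Y hY hc
      rw [card_singleton, card_eq_one] at hc
      obtain ⟨v, rfl⟩ := hc
      have hv : v ∈ U := singleton_subset_iff.1 hY
      have hs2 : symmDiff ({u} : Finset α) {v} ⊆ U := by
        intro x hx
        simp only [mem_symmDiff, mem_singleton] at hx
        rcases hx with h | h
        · rw [h.1]; exact hu
        · rw [h.1]; exact hv
      have e2 := hrr _ hs2
      have hcard : (symmDiff ({u} : Finset α) {v}).card = 0 ∨
          (symmDiff ({u} : Finset α) {v}).card = 2 := by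
        by_cases huv : u = v
        · left
          subst huv
          rw [symmDiff_self]
          rfl
        · right
          have h7 : symmDiff ({u} : Finset α) {v} = {u, v} := by
            ext x
            simp only [mem_symmDiff, mem_singleton, mem_insert]
            constructor
            · tauto
            · rintro (h | h)
              · subst h
                exact Or.inl ⟨rfl, huv⟩
              · subst h
                exact Or.inr ⟨rfl, fun h => huv h.symm⟩
          rw [h7, card_pair huv]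
      rcases hz with h | h
      · have := e2.1 h
        omega
      · have := e2.2 h
        omega
  · rw [not_or] at hz
    -- the relative empty set
    have h0 : rr U (nbr G w) ((nbr G w) ∩ U) = 0 := by
      rw [rr_inter]
      unfold rr
      rw [symmDiff_self, bot_eq_empty, empty_inter, card_empty]
    refine hfin ((nbr G w) ∩ U) inter_subset_right ?_ ?_ ?_
    · rw [h0]
      exact fun h => hz.1 h.symm
    · rw [h0, zero_add]
      exact hz.2
    · intro Y hY hc
      rw [← ha] at hc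
      have h1 : rr U (nbr G w) (symmDiff ((nbr G w) ∩ U) Y) = Y.card := by
        unfold rr
        congr 1
        ext x
        simp only [mem_inter, mem_symmDiff]
        have h2 : x ∈ Y → x ∈ U := fun h => hY h
        tauto
      rw [h1, hc]
      omega

/-- the structure theorem -/
theorem structure_thm (hn : Fintype.card α ≠ 4) (hdeck : SameDeck G H)
    (hne : ¬ Nonempty (G ≃g H)) {U : Finset α} (hU : Splits G U) (h2 : 2 ≤ U.card)
    (h2' : 2 ≤ Uᶜ.card) : U.card % 4 = 2 := by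
  obtain ⟨w, hw⟩ : ∃ w, w ∈ Uᶜ := card_pos.1 (by omega)
  have hwU : w ∉ U := mem_compl.1 hw
  have hp := cntGH hdeck w
  have hsw := switched hn hdeck hne hU h2 h2'
  rcases Nat.even_or_odd U.card with he | ho
  · obtain ⟨j, hj⟩ := he
    have hj2 : U.card = 2 * j := by omega
    have h1 := ff_switch hn hdeck hU.1 j hj2 ∅
    have h3 : symmDiff (∅ : Finset α) U = U := by
      rw [← Finset.bot_eq_empty, bot_symmDiff]
    rw [h3, ff_empty hne] at h1
    have h4 := ff_neg hne U hsw
    rcases Nat.even_or_odd j with hje | hjo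
    · exfalso
      rw [Int.negOnePow_even _ (by exact_mod_cast hje)] at h1
      push_cast at h1
      linarith
    · obtain ⟨m, hm⟩ := hjo
      omega
  · exfalso
    obtain ⟨m, hm⟩ := ho
    have h1 := half hn hdeck hne hU (by omega) h2' w hwU
    omega

omit [Fintype α] in
theorem splits_union {U₁ U₂ : Finset α} (h1 : Splits G U₁) (h2 : Splits G U₂)
    (hd : Disjoint U₁ U₂) : Splits G (U₁ ∪ U₂) := by
  refine ⟨fun σ hσ v => ?_, fun σ τ hσ e1 e2 => ?_⟩
  · rw [mem_union, mem_union, h1.1 σ hσ v, h2.1 σ hσ v]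
  · obtain ⟨ρ₁, a1, b1, c1⟩ := restr h1 hσ
    obtain ⟨ρ₂, a2, b2, c2⟩ := restr h2 hσ
    have h3 : τ = ρ₁ * ρ₂ := by
      ext x
      rw [Equiv.Perm.mul_apply]
      by_cases hx2 : x ∈ U₂
      · rw [b2 x hx2, e1 x (mem_union_right _ hx2)]
        have h4 : σ x ∈ U₂ := (h2.1 σ hσ x).2 hx2
        rw [c1 _ (fun h => disjoint_left.1 hd h h4)]
      · rw [c2 x hx2]
        by_cases hx1 : x ∈ U₁
        · rw [b1 x hx1, e1 x (mem_union_left _ hx1)]
        · rw [c1 x hx1, e2 x (by rw [mem_union]; tauto)]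
    rw [h3]
    exact caut_mul a1 a2

/-- two disjoint sets -/
theorem two_sets (hn : Fintype.card α ≠ 4) (hdeck : SameDeck G H) {U₁ U₂ : Finset α}
    (h1 : Splits G U₁) (h2 : Splits G U₂) (hd : Disjoint U₁ U₂) (c1 : 2 ≤ U₁.card)
    (c2 : 2 ≤ U₂.card) (c3 : 2 ≤ (U₁ ∪ U₂)ᶜ.card) : Nonempty (G ≃g H) := by
  by_contra hne
  have s1 : 2 ≤ U₁ᶜ.card := c3.trans (card_le_card (compl_subset_compl.2 subset_union_left))
  have s2 : 2 ≤ U₂ᶜ.card := c3.trans (card_le_card (compl_subset_compl.2 subset_union_right))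
  have m1 := structure_thm hn hdeck hne h1 c1 s1
  have m2 := structure_thm hn hdeck hne h2 c2 s2
  have hu : (U₁ ∪ U₂).card = U₁.card + U₂.card := card_union_of_disjoint hd
  have m3 := structure_thm hn hdeck hne (splits_union h1 h2 hd) (by omega) c3
  omega

end

end Pool.Agent.NTI
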