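import Pool.Agent.NTI.E

/-!
# MP_e73337_co, the orbit of a module under the class automorphisms (helper77)
-/

set_option autoImplicit false

namespace Pool.Agent.NTI

open Finset Pool.Agent.Lib_helper61.SwitchBasic

theorem orbit_flip {α : Type} [DecidableEq α] [Fintype α] {B : SimpleGraph α}
    {f : Finset α → ℚ} (h : Two B f) (V : Finset α) (hb : 2 * V.card < Fintype.card α)
    (hmod : ∀ σ, IsClassAut B σ → Hom B (V.map σ.toEmbedding))
    (hdis : ∀ σ ρ, IsClassAut B σ → IsClassAut B ρ →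
      V.map σ.toEmbedding ≠ V.map ρ.toEmbedding →
      Disjoint (V.map σ.toEmbedding) (V.map ρ.toEmbedding))
    (hk : 2 * {W : Finset α | ∃ σ, IsClassAut B σ ∧ W = V.map σ.toEmbedding}.ncard ≤ V.card) :
    (∀ S, (0 < f S → f (symmDiff S V) < 0) ∧ (f S < 0 → 0 < f (symmDiff S V))) ∧
      ∀ S, 0 < f S → Even V.card := by
  classical
  set F : Finset (Finset α) :=
    univ.filter fun W => ∃ σ : Equiv.Perm α, IsClassAut B σ ∧ W = V.map σ.toEmbedding with hFdef
  have hFc : F.card =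
      {W : Finset α | ∃ σ, IsClassAut B σ ∧ W = V.map σ.toEmbedding}.ncard := by
    rw [← Set.ncard_coe_finset]
    congr 1
    ext W
    simp [hFdef]
  have hmem : ∀ W, W ∈ F ↔ ∃ σ : Equiv.Perm α, IsClassAut B σ ∧ W = V.map σ.toEmbedding := by
    intro W
    rw [hFdef, mem_filter]
    simp
  have hF : Fam B F V.card := by
    refine ⟨fun W hW => ?_, fun W hW X hX hWX => ?_, fun W hW ρ hρ => ?_, fun W hW => ?_⟩
    · obtain ⟨σ, hσ, rfl⟩ := (hmem W).1 hW
      exact hmod σ hσ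
    · obtain ⟨σ, hσ, rfl⟩ := (hmem W).1 hW
      obtain ⟨ρ, hρ, rfl⟩ := (hmem X).1 hX
      exact hdis σ ρ hσ hρ hWX
    · obtain ⟨σ, hσ, rfl⟩ := (hmem W).1 hW
      rw [hmem]
      refine ⟨ρ * σ, caut_mul hρ hσ, ?_⟩
      rw [map_map]
      rfl
    · obtain ⟨σ, hσ, rfl⟩ := (hmem W).1 hW
      exact card_map _
  have hV : V ∈ F := by
    rw [hmem]
    refine ⟨1, caut_one B, ?_⟩
    ext x
    exact (mem_map_perm (1 : Equiv.Perm α) V x).symm
  have hR : Rich B V F.card := rich_of_le V (by rw [hFc]; exact hk)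
  exact ⟨flipBoth h hF hb hV hR, fun S hS => evenB h hF hb hV hR S hS⟩

end Pool.Agent.NTI
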