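import Pool.Agent.NTI.E

/-!
# MP_e73337_co, modules which can be toggled: at most four (helper78)
-/

set_option autoImplicit false

namespace Pool.Agent.NTI

open Finset Pool.Agent.Lib_helper61.SwitchBasic

/-- A symmetric matrix with entries `1`, `-1` outside the diagonal whose row sums satisfy
`R v + R w = 2 D v w` has at most 2 or exactly 4 rows. -/
theorem matrix_four {ι : Type} [DecidableEq ι] (P : Finset ι) (D : ι → ι → ℤ)
    (hD : ∀ v ∈ P, ∀ w ∈ P, v ≠ w → D v w = 1 ∨ D v w = -1) (hd : ∀ v, D v v = 0)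
    (h : ∀ v ∈ P, ∀ w ∈ P, v ≠ w → ∑ x ∈ P, D v x + ∑ x ∈ P, D w x = 2 * D v w) :
    P.card ≤ 2 ∨ P.card = 4 := by
  by_contra hcon
  push Not at hcon
  obtain ⟨h3, h4⟩ := hcon
  set R : ℤ := ∑ v ∈ P, ∑ x ∈ P, D v x with hR
  have key : ∀ v ∈ P, ((P.card : ℤ) - 4) * ∑ x ∈ P, D v x + R = 0 := by
    intro v hv
    have h5 : ∑ w ∈ P.erase v, (∑ x ∈ P, D v x + ∑ x ∈ P, D w x) = ∑ w ∈ P.erase v, 2 * D v w := by
      refine sum_congr rfl fun w hw => ?_
      rw [mem_erase] at hw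
      exact h v hv w hw.2 hw.1.symm
    rw [sum_add_distrib, sum_const, ← mul_sum, card_erase_of_mem hv, nsmul_eq_mul] at h5
    have h6 : ∑ w ∈ P.erase v, ∑ x ∈ P, D w x = R - ∑ x ∈ P, D v x := by
      rw [hR, ← add_sum_erase P _ hv]
      ring
    have h7 : ∑ w ∈ P.erase v, D v w = ∑ x ∈ P, D v x := by
      rw [← add_sum_erase P _ hv, hd, zero_add]
    rw [h6, h7, Nat.cast_sub (by omega), Nat.cast_one] at h5
    linear_combination h5
  have hR0 : R = 0 := by
    have h5 : ∑ v ∈ P, (((P.card : ℤ) - 4) * ∑ x ∈ P, D v x + R) = 0 :=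
      sum_eq_zero key
    rw [sum_add_distrib, sum_const, ← mul_sum, ← hR, nsmul_eq_mul] at h5
    have h6 : (2 * (P.card : ℤ) - 4) * R = 0 := by linear_combination h5
    rcases mul_eq_zero.1 h6 with h7 | h7
    · omega
    · exact h7
  have hrow : ∀ v ∈ P, ∑ x ∈ P, D v x = 0 := by
    intro v hv
    have h5 := key v hv
    rw [hR0, add_zero] at h5
    rcases mul_eq_zero.1 h5 with h6 | h6
    · omega
    · exact h6
  obtain ⟨v, hv, w, hw, hvw⟩ := Finset.one_lt_card.1 (show 1 < P.card by omega)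
  have h5 := h v hv w hw hvw
  rw [hrow v hv, hrow w hw] at h5
  rcases hD v hv w hw hvw with h6 | h6 <;> omega

/-- The quadratic form of a matrix with two signs changed. -/
theorem form_two {ι : Type} [DecidableEq ι] (P : Finset ι) (D : ι → ι → ℤ)
    (hs : ∀ v w, D v w = D w v) (hd : ∀ v, D v v = 0) (δ : ι → ℤ) {a b : ι} (ha : a ∈ P)
    (hb : b ∈ P) (hab : a ≠ b) (h1 : ∀ v, v ≠ a → v ≠ b → δ v = 1) (h2 : δ a = -1)
    (h3 : δ b = -1) (h : ∑ v ∈ P, ∑ w ∈ P, δ v * δ w * D v w = ∑ v ∈ P, ∑ w ∈ P, D v w) :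
    ∑ x ∈ P, D a x + ∑ x ∈ P, D b x = 2 * D a b := by
  have hδ : ∀ v, δ v = 1 - 2 * (if v = a then 1 else 0) - 2 * (if v = b then 1 else 0) := by
    intro v
    by_cases hva : v = a
    · subst hva
      simp [hab, h2]
    · by_cases hvb : v = b
      · subst hvb
        simp [hva, h3]
      · simp [hva, hvb, h1 v hva hvb]
  have row : ∀ v, ∑ w ∈ P, δ v * δ w * D v w =
      δ v * (∑ w ∈ P, D v w - 2 * D v a - 2 * D v b) := by
    intro v
    have e : ∀ w, δ v * δ w * D v w = δ v * (D v w - 2 * (if w = a then D v w else 0) -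
        2 * (if w = b then D v w else 0)) := by
      intro w
      rw [hδ w]
      split_ifs <;> ring
    rw [sum_congr rfl fun w _ => e w, ← mul_sum, sum_sub_distrib, sum_sub_distrib, ← mul_sum,
      ← mul_sum, sum_ite_eq' P a, sum_ite_eq' P b, if_pos ha, if_pos hb]
  have col : ∀ g : ι → ℤ, ∑ v ∈ P, δ v * g v = ∑ v ∈ P, g v - 2 * g a - 2 * g b := by
    intro g
    have e : ∀ v, δ v * g v = g v - 2 * (if v = a then g v else 0) -
        2 * (if v = b then g v else 0) := by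
      intro v
      rw [hδ v]
      split_ifs <;> ring
    rw [sum_congr rfl fun v _ => e v, sum_sub_distrib, sum_sub_distrib, ← mul_sum,
      ← mul_sum, sum_ite_eq' P a, sum_ite_eq' P b, if_pos ha, if_pos hb]
  rw [sum_congr rfl fun v _ => row v, col] at h
  rw [sum_sub_distrib, sum_sub_distrib, ← mul_sum, ← mul_sum, hd, hd, hs b a] at h
  have e1 : ∑ v ∈ P, D v a = ∑ x ∈ P, D a x := sum_congr rfl fun v _ => hs v a
  have e2 : ∑ v ∈ P, D v b = ∑ x ∈ P, D b x := sum_congr rfl fun v _ => hs v b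
  rw [e1, e2] at h
  linarith

section sign

variable {α : Type} [DecidableEq α] [Fintype α] {B : SimpleGraph α}

theorem slett_refl (V S : Finset α) : SLett B V V S S :=
  ⟨1, caut_one B, fun _ => Iff.rfl, fun _ _ => Iff.rfl⟩

theorem SLett.symm' {V V' S S' : Finset α} (h : SLett B V V' S S') : SLett B V' V S' S := by
  obtain ⟨σ, h1, h2, h3⟩ := h
  have e : ∀ x, σ (σ⁻¹ x) = x := fun x => σ.apply_symm_apply x
  have h4 : ∀ x, σ⁻¹ x ∈ V ↔ x ∈ V' := by
    intro x
    have := h2 (σ⁻¹ x)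
    rw [e] at this
    exact this.symm
  refine ⟨σ⁻¹, caut_inv h1, h4, fun x hx => ?_⟩
  have := h3 (σ⁻¹ x) ((h4 x).2 hx)
  rw [e] at this
  exact this.symm

theorem SLett.trans' {V V' V'' S S' S'' : Finset α} (h : SLett B V V' S S')
    (k : SLett B V' V'' S' S'') : SLett B V V'' S S'' := by
  obtain ⟨σ, h1, h2, h3⟩ := h
  obtain ⟨ρ, k1, k2, k3⟩ := k
  refine ⟨ρ * σ, caut_mul k1 h1, fun x => ?_, ?_⟩
  · rw [Equiv.Perm.mul_apply, k2, h2]
  · intro x hx
    rw [Equiv.Perm.mul_apply, k3 _ ((h2 x).2 hx), h3 x hx]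

theorem SLett.compl' {V V' S S' : Finset α} (h : SLett B V V' S S') :
    SLett B V V' Sᶜ S'ᶜ := by
  obtain ⟨σ, h1, h2, h3⟩ := h
  refine ⟨σ, h1, h2, fun x hx => ?_⟩
  rw [mem_compl, mem_compl, h3 x hx]

/-- A sign for the pairs `(V, S)`, invariant under the class automorphisms. -/
theorem exists_sign (B : SimpleGraph α) : ∃ ε : Finset α → Finset α → Prop,
    (∀ V V' S S', SLett B V V' S S' → (ε V S ↔ ε V' S')) ∧
    (∀ V S, ¬ SLett B V V S Sᶜ → (ε V Sᶜ ↔ ¬ ε V S)) := by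
  classical
  obtain ⟨e⟩ : Nonempty (Finset α × Finset α ↪ ℕ) := by
    exact ⟨(Fintype.equivFin (Finset α × Finset α)).toEmbedding.trans Fin.valEmbedding⟩
  let A : Finset α → Finset α → Set ℕ := fun V S => {n | ∃ V' S', SLett B V V' S S' ∧ n = e (V', S')}
  have hne : ∀ V S, (A V S).Nonempty := fun V S => ⟨e (V, S), V, S, slett_refl V S, rfl⟩
  let μ : Finset α → Finset α → ℕ := fun V S => sInf (A V S)
  have hinv : ∀ V V' S S', SLett B V V' S S' → μ V S = μ V' S' := by
    intro V V' S S' h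
    have : A V S = A V' S' := by
      ext n
      constructor
      · rintro ⟨W, T, h1, h2⟩
        exact ⟨W, T, h.symm'.trans' h1, h2⟩
      · rintro ⟨W, T, h1, h2⟩
        exact ⟨W, T, h.trans' h1, h2⟩
    show sInf (A V S) = sInf (A V' S')
    rw [this]
  have hsep : ∀ V V' S S', μ V S = μ V' S' → SLett B V V' S S' := by
    intro V V' S S' h
    obtain ⟨W, T, h1, h2⟩ := Nat.sInf_mem (hne V S)
    obtain ⟨W', T', h3, h4⟩ := Nat.sInf_mem (hne V' S')
    have h5 : e (W, T) = e (W', T') := by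
      rw [← h2, ← h4]
      exact h
    have h6 := e.injective h5
    rw [Prod.mk.injEq] at h6
    obtain ⟨rfl, rfl⟩ := h6
    exact h1.trans' h3.symm'
  refine ⟨fun V S => μ V S < μ V Sᶜ, fun V V' S S' h => ?_, fun V S h => ?_⟩
  · show μ V S < μ V Sᶜ ↔ μ V' S' < μ V' S'ᶜ
    rw [hinv _ _ _ _ h, hinv _ _ _ _ h.compl']
  · show μ V Sᶜ < μ V Sᶜᶜ ↔ ¬ μ V S < μ V Sᶜ
    rw [compl_compl]
    have h1 : μ V S ≠ μ V Sᶜ := fun h2 => h (hsep _ _ _ _ h2)
    omega

end sign

theorem few_prop (A A' p q e g a b p' q' e' g' : Prop) (hp : (p' ↔ p) ↔ a) (hq : (q' ↔ q) ↔ b)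
    (he : (e' ↔ e) ↔ a) (hg : (g' ↔ g) ↔ b)
    (h : (A' ↔ (p' ↔ q')) ↔ (A ↔ (p ↔ q))) : (A' ↔ (e' ↔ g')) ↔ (A ↔ (e ↔ g)) := by
  have hp' : p' ↔ (p ↔ a) := by
    rw [← hp]
    by_cases h1 : p <;> simp [h1]
  have hq' : q' ↔ (q ↔ b) := by
    rw [← hq]
    by_cases h1 : q <;> simp [h1]
  have he' : e' ↔ (e ↔ a) := by
    rw [← he]
    by_cases h1 : e <;> simp [h1]
  have hg' : g' ↔ (g ↔ b) := by
    rw [← hg]
    by_cases h1 : g <;> simp [h1]
  rw [hp', hq'] at h
  rw [he', hg']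
  clear hp hq he hg hp' hq' he' hg'
  by_cases b1 : a <;> by_cases b2 : b <;> by_cases b3 : p <;> by_cases b4 : q <;>
    by_cases b5 : e <;> by_cases b6 : g <;> by_cases b7 : A <;> simp [b1, b2, b3, b4, b5, b6, b7] at h ⊢ <;>
    exact h

section few

variable {α : Type} [DecidableEq α] [Fintype α] {B : SimpleGraph α}

/-- Modules whose switching exchanges the two classes of the support: at most two, or four. -/
theorem few {f : Finset α → ℚ} (h : Two B f) (P : Finset (Finset α)) (hHom : ∀ V ∈ P, Hom B V)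
    (hne : ∀ V ∈ P, V.Nonempty) (hdis : ∀ V ∈ P, ∀ W ∈ P, V ≠ W → Disjoint V W)
    (hperm : ∀ V ∈ P, ∀ σ : Equiv.Perm α, IsClassAut B σ → V.map σ.toEmbedding ∈ P)
    (hout : ∀ V ∈ P, ∃ z, z ∉ V)
    (hflip : ∀ V ∈ P, ∀ S, (0 < f S → f (symmDiff S V) < 0) ∧ (f S < 0 → 0 < f (symmDiff S V)))
    (S₀ : Finset α) (h0 : 0 < f S₀) : P.card ≤ 2 ∨ P.card = 4 := by
  classical
  obtain ⟨ε, hε1, hε2⟩ := exists_sign B
  have hns : ∀ S, f S ≠ 0 → ∀ V ∈ P, ¬ SLett B V V S Sᶜ := by
    rintro S hS V hV ⟨σ, h1, h2, h3⟩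
    obtain ⟨τ, t1, t2, t3⟩ := restrB (hHom V hV) (hout V hV) h1 h2
    let φ : B ≃g B := ⟨τ, fun {u v} => t1 u v⟩
    have e1 : S.map φ.toEquiv.toEmbedding = symmDiff S V := by
      ext x
      obtain ⟨y, rfl⟩ := τ.surjective x
      have e2 : τ y ∈ S.map φ.toEquiv.toEmbedding ↔ y ∈ S := mem_map_perm τ S y
      rw [e2, mem_symmDiff]
      by_cases hy : y ∈ V
      · have e3 := h3 y hy
        rw [mem_compl] at e3
        have e4 := (h2 y).2 hy
        rw [t2 y hy]
        tauto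
      · rw [t3 y hy]
        tauto
    have e5 : Nonempty (sw B S ≃g sw B (symmDiff S V)) := by
      rw [← e1]
      exact ⟨isoSw φ S⟩
    have e6 := h.iso _ _ e5
    rcases lt_or_gt_of_ne hS with h7 | h7
    · have := (hflip V hV S).2 h7
      linarith
    · have := (hflip V hV S).1 h7
      linarith
  let adj : Finset α → Finset α → Prop := fun V W => ∃ x ∈ V, ∃ y ∈ W, B.Adj x y
  have hadjs : ∀ V W, adj V W ↔ adj W V := by
    intro V W
    constructor
    · rintro ⟨x, hx, y, hy, h1⟩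
      exact ⟨y, hy, x, hx, h1.symm⟩
    · rintro ⟨x, hx, y, hy, h1⟩
      exact ⟨y, hy, x, hx, h1.symm⟩
  have hadj : ∀ V ∈ P, ∀ W ∈ P, V ≠ W → ∀ x ∈ V, ∀ y ∈ W, (B.Adj x y ↔ adj V W) := by
    intro V hV W hW hVW x hx y hy
    constructor
    · intro h1
      exact ⟨x, hx, y, hy, h1⟩
    · rintro ⟨x', hx', y', hy', h1⟩
      have d := hdis V hV W hW hVW
      have n1 : x' ∉ W := fun h2 => (disjoint_left.1 d) hx' h2
      have n2 : y ∉ V := fun h2 => (disjoint_left.1 d) h2 hy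
      have h2 := (hHom W hW y' hy' y hy x' n1).1 h1
      exact ((hHom V hV x' hx' x hx y n2).1 h2.symm).symm
  let D : Finset α → Finset α → Finset α → ℤ := fun S V W =>
    if V = W then 0 else if (adj V W ↔ (ε V S ↔ ε W S)) then -1 else 1
  have hDd : ∀ S V, D S V V = 0 := fun S V => if_pos rfl
  have hDs : ∀ S V W, D S V W = D S W V := by
    intro S V W
    show (if V = W then 0 else if (adj V W ↔ (ε V S ↔ ε W S)) then -1 else 1) =
      (if W = V then (0 : ℤ) else if (adj W V ↔ (ε W S ↔ ε V S)) then -1 else 1)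
    by_cases h1 : V = W
    · rw [if_pos h1, if_pos h1.symm]
    · have h3 : W ≠ V := fun h2 => h1 h2.symm
      rw [if_neg h1, if_neg h3]
      exact if_congr (iff_congr (hadjs V W) Iff.comm) rfl rfl
  have hDv : ∀ S V W, V ≠ W → D S V W = 1 ∨ D S V W = -1 := by
    intro S V W h1
    show (if V = W then 0 else if (adj V W ↔ (ε V S ↔ ε W S)) then -1 else 1) = (1 : ℤ) ∨
      (if V = W then 0 else if (adj V W ↔ (ε V S ↔ ε W S)) then -1 else 1) = (-1 : ℤ)
    rw [if_neg h1]
    split_ifs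
    · exact Or.inr rfl
    · exact Or.inl rfl
  -- invariance of the sum of all entries
  have hsum : ∀ S T, f S ≠ 0 → f T ≠ 0 → Nonempty (sw B S ≃g sw B T) →
      ∑ V ∈ P, ∑ W ∈ P, D T V W = ∑ V ∈ P, ∑ W ∈ P, D S V W := by
    rintro S T hS hT ⟨φ⟩
    have hσ : IsClassAut B φ.toEquiv := classAut_of_iso B S T φ
    have had : ∀ u v, (sw B T).Adj (φ.toEquiv u) (φ.toEquiv v) ↔ (sw B S).Adj u v :=
      fun u v => φ.map_rel_iff'
    generalize φ.toEquiv = σ at hσ had
    have hkey : ∀ V ∈ P, ∃ a : Prop, (∀ u ∈ V, ((σ u ∈ T ↔ u ∈ S) ↔ a)) ∧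
        ((ε (V.map σ.toEmbedding) T ↔ ε V S) ↔ a) := by
      intro V hV
      have hV' := hperm V hV σ hσ
      rcases core had (hHom V hV) (hHom _ hV') (fun x => mem_map_perm σ V x) (hout V hV) with
        h1 | h1
      · refine ⟨True, fun u hu => iff_of_true (h1 u hu) trivial, iff_of_true ?_ trivial⟩
        exact (hε1 V _ S T ⟨σ, hσ, fun x => mem_map_perm σ V x, h1⟩).symm
      · refine ⟨False, fun u hu => ?_, ?_⟩
        · have := h1 u hu
          rw [iff_false]
          tauto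
        · have h2 := hε1 V (V.map σ.toEmbedding) S Tᶜ ⟨σ, hσ, fun x => mem_map_perm σ V x,
            fun u hu => by
              have := h1 u hu
              rw [mem_compl]
              tauto⟩
          have h3 := hε2 (V.map σ.toEmbedding) T (hns T hT _ hV')
          rw [iff_false]
          tauto
    have hDD : ∀ V ∈ P, ∀ W ∈ P, D T (V.map σ.toEmbedding) (W.map σ.toEmbedding) = D S V W := by
      intro V hV W hW
      by_cases hVW : V = W
      · subst hVW
        rw [hDd, hDd]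
      · have hVW' : V.map σ.toEmbedding ≠ W.map σ.toEmbedding :=
          fun h1 => hVW (map_injective _ h1)
        show (if V.map σ.toEmbedding = W.map σ.toEmbedding then 0 else
            if (adj (V.map σ.toEmbedding) (W.map σ.toEmbedding) ↔
              (ε (V.map σ.toEmbedding) T ↔ ε (W.map σ.toEmbedding) T)) then -1 else 1) =
          (if V = W then (0 : ℤ) else if (adj V W ↔ (ε V S ↔ ε W S)) then -1 else 1)
        rw [if_neg hVW, if_neg hVW']
        obtain ⟨x, hx⟩ := hne V hV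
        obtain ⟨y, hy⟩ := hne W hW
        obtain ⟨a, a1, a2⟩ := hkey V hV
        obtain ⟨b, b1, b2⟩ := hkey W hW
        have c1 := hadj V hV W hW hVW x hx y hy
        have c2 := hadj _ (hperm V hV σ hσ) _ (hperm W hW σ hσ) hVW' (σ x)
          ((mem_map_perm σ V x).2 hx) (σ y) ((mem_map_perm σ W y).2 hy)
        have n1 : x ≠ y := fun h1 => (disjoint_left.1 (hdis V hV W hW hVW)) hx (h1 ▸ hy)
        have n2 : σ x ≠ σ y := fun h1 => n1 (σ.injective h1)
        have c3 := had x y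
        rw [sw_adj, sw_adj] at c3
        simp only [n1, n2, ne_eq, not_false_eq_true, true_and] at c3
        rw [c1, c2] at c3
        have c4 := few_prop _ _ _ _ _ _ _ _ _ _ _ _ (a1 x hx) (b1 y hy) a2 b2 c3
        rw [if_congr c4 rfl rfl]
    have hinj : Function.Injective fun V : Finset α => V.map σ.toEmbedding := map_injective _
    have himg : P.image (fun V => V.map σ.toEmbedding) = P := by
      refine eq_of_subset_of_card_le ?_ ?_
      · intro W hW
        obtain ⟨V, hV, rfl⟩ := mem_image.1 hW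
        exact hperm V hV σ hσ
      · rw [card_image_of_injective _ hinj]
    have hre : ∀ g : Finset α → ℤ, ∑ V ∈ P, g V = ∑ V ∈ P, g (V.map σ.toEmbedding) := by
      intro g
      conv_lhs => rw [← himg]
      rw [sum_image (fun a _ b _ hab => hinj hab)]
    rw [hre]
    refine sum_congr rfl fun V hV => ?_
    rw [hre]
    exact sum_congr rfl fun W hW => hDD V hV W hW
  refine matrix_four P (D S₀) (fun V _ W _ hVW => hDv S₀ V W hVW) (hDd S₀) ?_
  intro a ha b hb hab
  set T := symmDiff (symmDiff S₀ a) b with hT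
  have hT0 : 0 < f T := (hflip b hb _).2 ((hflip a ha _).1 h0)
  have hs := hsum S₀ T h0.ne' hT0.ne' (h.pos S₀ T h0 hT0)
  have dab := hdis a ha b hb hab
  let δ : Finset α → ℤ := fun V => if V = a then -1 else if V = b then -1 else 1
  refine form_two P (D S₀) (hDs S₀) (hDd S₀) δ ha hb hab (fun V h1 h2 => ?_) ?_ ?_ ?_
  · show (if V = a then -1 else if V = b then -1 else (1 : ℤ)) = 1
    rw [if_neg h1, if_neg h2]
  · show (if a = a then -1 else if a = b then -1 else (1 : ℤ)) = -1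
    rw [if_pos rfl]
  · show (if b = a then -1 else if b = b then -1 else (1 : ℤ)) = -1
    rw [if_neg hab.symm, if_pos rfl]
  rw [← hs]
  -- the sign of a part after switching
  have hsg : ∀ V ∈ P, (δ V = 1 ∧ (ε V T ↔ ε V S₀)) ∨ (δ V = -1 ∧ (ε V T ↔ ¬ ε V S₀)) := by
    intro V hV
    have hin : ∀ x ∈ V, (x ∈ T ↔ ((x ∈ S₀ ↔ x ∉ a) ↔ x ∉ b)) := by
      intro x _
      rw [hT, mem_symmDiff, mem_symmDiff]
      by_cases h1 : x ∈ S₀ <;> by_cases h2 : x ∈ a <;> by_cases h3 : x ∈ b <;> simp [h1, h2, h3]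
    have hflipε : (∀ x ∈ V, (x ∈ T ↔ x ∉ S₀)) → (ε V T ↔ ¬ ε V S₀) := by
      intro h1
      have h2 := hε1 V V S₀ᶜ T ⟨1, caut_one B, fun _ => Iff.rfl, fun x hx => by
        rw [mem_compl]
        exact h1 x hx⟩
      rw [← h2]
      exact hε2 V S₀ (hns S₀ h0.ne' V hV)
    by_cases hVa : V = a
    · right
      refine ⟨if_pos hVa, hflipε fun x hx => ?_⟩
      have h1 : x ∈ a := hVa ▸ hx
      have h2 : x ∉ b := fun h3 => (disjoint_left.1 dab) h1 h3
      rw [hin x hx]
      simp [h1, h2]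
    · by_cases hVb : V = b
      · right
        refine ⟨?_, hflipε fun x hx => ?_⟩
        · show (if V = a then -1 else if V = b then -1 else (1 : ℤ)) = -1
          rw [if_neg hVa, if_pos hVb]
        · have h1 : x ∈ b := hVb ▸ hx
          have h2 : x ∉ a := fun h3 => (disjoint_left.1 dab) h3 h1
          rw [hin x hx]
          simp [h1, h2]
      · left
        refine ⟨?_, ?_⟩
        · show (if V = a then -1 else if V = b then -1 else (1 : ℤ)) = 1
          rw [if_neg hVa, if_neg hVb]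
        · refine (hε1 V V S₀ T ⟨1, caut_one B, fun _ => Iff.rfl, fun x hx => ?_⟩).symm
          have h1 : x ∉ a := fun h3 => (disjoint_left.1 (hdis V hV a ha hVa)) hx h3
          have h2 : x ∉ b := fun h3 => (disjoint_left.1 (hdis V hV b hb hVb)) hx h3
          show x ∈ T ↔ x ∈ S₀
          rw [hin x hx]
          simp [h1, h2]
  refine sum_congr rfl fun V hV => sum_congr rfl fun W hW => ?_
  show δ V * δ W * (if V = W then (0 : ℤ) else if (adj V W ↔ (ε V S₀ ↔ ε W S₀)) then -1 else 1) =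
    (if V = W then (0 : ℤ) else if (adj V W ↔ (ε V T ↔ ε W T)) then -1 else 1)
  by_cases hVW : V = W
  · rw [if_pos hVW, if_pos hVW, mul_zero]
  · rw [if_neg hVW, if_neg hVW]
    rcases hsg V hV with ⟨d1, e1⟩ | ⟨d1, e1⟩ <;> rcases hsg W hW with ⟨d2, e2⟩ | ⟨d2, e2⟩ <;>
      rw [d1, d2, e1, e2] <;> by_cases x1 : adj V W <;> by_cases x2 : ε V S₀ <;>
      by_cases x3 : ε W S₀ <;> simp [x1, x2, x3]

end few

end Pool.Agent.NTI
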