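import Pool.Agent.NTI.W

/-!
# MP_e73337_co, modules of a counterexample have many local automorphisms (helper77)
-/

set_option autoImplicit false

namespace Pool.Agent.NTI

open Finset Pool.Agent.Lib_helper61.SwitchBasic

section null

variable {α : Type} [DecidableEq α] [Fintype α]

/-- the support of a null design of strength `t` -/
theorem null_supp : ∀ (t : ℕ) (f : Finset α → ℚ),
    (∀ Y : Finset α, Y.card ≤ t → ∑ K : Finset α, (if Y ⊆ K then f K else 0) = 0) →
    (∃ K, f K ≠ 0) → 2 ^ (t + 1) ≤ (univ.filter fun K => f K ≠ 0).card := by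
  intro t
  -- two different members of the support, separated by `v`
  have two : ∀ (t : ℕ) (f : Finset α → ℚ),
      (∀ Y : Finset α, Y.card ≤ t → ∑ K : Finset α, (if Y ⊆ K then f K else 0) = 0) →
      (∃ K, f K ≠ 0) → ∃ K L v, f K ≠ 0 ∧ f L ≠ 0 ∧ v ∈ K ∧ v ∉ L := by
    intro t f hf hex
    obtain ⟨K, hK⟩ := hex
    have h0 := hf ∅ (by simp)
    simp only [empty_subset, if_true] at h0
    obtain ⟨L, hL, hLK⟩ : ∃ L, f L ≠ 0 ∧ L ≠ K := by
      by_contra hcon
      push Not at hcon
      rw [sum_eq_single K (fun L _ hL => by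
        by_contra h
        exact hL (hcon L h)) (fun h => absurd (mem_univ _) h)] at h0
      exact hK h0
    by_cases hs : K ⊆ L
    · have h1 : ¬ L ⊆ K := fun h => hLK (subset_antisymm h hs)
      rw [not_subset] at h1
      obtain ⟨v, hv1, hv2⟩ := h1
      exact ⟨L, K, v, hL, hK, hv1, hv2⟩
    · rw [not_subset] at hs
      obtain ⟨v, hv1, hv2⟩ := hs
      exact ⟨K, L, v, hK, hL, hv1, hv2⟩
  induction t with
  | zero =>
    intro f hf hex
    obtain ⟨K, L, v, hK, hL, hv1, hv2⟩ := two 0 f hf hex
    have h1 : 1 < (univ.filter fun K => f K ≠ 0).card := by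
      rw [one_lt_card]
      exact ⟨K, by simp [hK], L, by simp [hL], fun h => hv2 (h ▸ hv1)⟩
    exact h1
  | succ t ih =>
    intro f hf hex
    obtain ⟨K, L, v, hK, hL, hv1, hv2⟩ := two (t + 1) f hf hex
    have h1 := ih (fun K => if v ∈ K then f K else 0) (by
      intro Y hY
      have h2 := hf (insert v Y) ((card_insert_le _ _).trans (by omega))
      refine (sum_congr rfl fun K _ => ?_).trans h2
      by_cases a1 : v ∈ K <;> by_cases a2 : Y ⊆ K <;> simp [insert_subset_iff, a1, a2])
      ⟨K, by simp [hv1, hK]⟩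
    have h2 := ih (fun K => if v ∈ K then 0 else f K) (by
      intro Y hY
      have h2 := hf (insert v Y) ((card_insert_le _ _).trans (by omega))
      have h3 := hf Y (by omega)
      have h4 : (∑ K : Finset α, if Y ⊆ K then (if v ∈ K then 0 else f K) else 0) +
          ∑ K : Finset α, (if insert v Y ⊆ K then f K else 0) =
          ∑ K : Finset α, (if Y ⊆ K then f K else 0) := by
        rw [← sum_add_distrib]
        refine sum_congr rfl fun K _ => ?_
        by_cases a1 : v ∈ K <;> by_cases a2 : Y ⊆ K <;> simp [insert_subset_iff, a1, a2]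
      rw [h2, h3, add_zero] at h4
      exact h4) ⟨L, by simp [hv2, hL]⟩
    have h3 : (univ.filter fun K => (if v ∈ K then f K else 0) ≠ 0).card +
        (univ.filter fun K => (if v ∈ K then 0 else f K) ≠ 0).card =
        (univ.filter fun K => f K ≠ 0).card := by
      rw [← card_union_of_disjoint]
      · congr 1
        ext K
        simp only [mem_union, mem_filter, mem_univ, true_and]
        by_cases a1 : v ∈ K <;> simp [a1]
      · rw [disjoint_left]
        intro K hK hK'
        simp only [mem_filter, mem_univ, true_and] at hK hK'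
        by_cases a1 : v ∈ K <;> simp [a1] at hK hK'
    rw [pow_succ]
    omega

end null

section layer

variable {α : Type} [DecidableEq α] [Fintype α]

/-- the number of sets of the support in a fibre whose support lies in the middle layer around `C` -/
theorem middle (f : Finset α → ℚ) (hf : ∀ S, ∑ i : α, f (symmDiff S {i}) = 0) (V C : Finset α)
    (m : ℕ) (hm : 1 ≤ m)
    (hbal : ∀ T, f T ≠ 0 → (symmDiff (T ∩ V) (C ∩ V)).card = m)
    (K₀ : Finset α) (hK₀ : K₀ ⊆ V) (hne : f (symmDiff C K₀) ≠ 0) :
    2 ^ m ≤ (univ.filter fun K => K ⊆ V ∧ f (symmDiff C K) ≠ 0).card := by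
  set g : Finset α → ℚ := fun K => if K ⊆ V then f (symmDiff C K) else 0 with hg
  have hin : ∀ K ⊆ V, symmDiff ((symmDiff C K) ∩ V) (C ∩ V) = K := by
    intro K hK
    ext x
    have : x ∈ K → x ∈ V := fun h => hK h
    simp only [mem_symmDiff, mem_inter]
    tauto
  have hcard : ∀ K ⊆ V, f (symmDiff C K) ≠ 0 → K.card = m := by
    intro K hK h0
    have := hbal _ h0
    rw [hin K hK] at this
    exact this
  have hnull : ∀ Y : Finset α, Y.card ≤ m - 1 →
      ∑ K : Finset α, (if Y ⊆ K then g K else 0) = 0 := by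
    intro Y hY
    by_cases hYV : Y ⊆ V
    · have e1 : (symmDiff C Y) ∩ V = symmDiff (C ∩ V) Y := by
        ext x
        have : x ∈ Y → x ∈ V := fun h => hYV h
        simp only [mem_symmDiff, mem_inter]
        tauto
      have hno : ∀ S, S ∩ V = symmDiff (C ∩ V) Y → f S = 0 := by
        intro S hS
        by_contra h0
        have := hbal S h0
        rw [hS] at this
        have e2 : symmDiff (symmDiff (C ∩ V) Y) (C ∩ V) = Y := by
          rw [symmDiff_comm (C ∩ V) Y, sd_cancel]
        rw [e2] at this
        omega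
      have h1 := lemQ f hf V _ hno (m - Y.card) (symmDiff C Y) e1
      refine Eq.trans ?_ h1
      refine sum_bij_ne_zero (fun K _ _ => K \ Y) ?_ ?_ ?_ ?_
      · intro K _ hK
        by_cases a1 : Y ⊆ K
        · rw [if_pos a1, hg] at hK
          simp only at hK
          by_cases a2 : K ⊆ V
          · rw [if_pos a2] at hK
            rw [mem_powersetCard]
            refine ⟨sdiff_subset.trans a2, ?_⟩
            rw [card_sdiff_of_subset a1, hcard K a2 hK]
          · rw [if_neg a2] at hK
            exact absurd rfl hK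
        · rw [if_neg a1] at hK
          exact absurd rfl hK
      · intro K _ hK L _ hL hKL
        by_cases a1 : Y ⊆ K
        · by_cases a2 : Y ⊆ L
          · rw [← sdiff_union_of_subset a1, ← sdiff_union_of_subset a2, hKL]
          · rw [if_neg a2] at hL
            exact absurd rfl hL
        · rw [if_neg a1] at hK
          exact absurd rfl hK
      · intro Z hZ h0
        rw [mem_powersetCard] at hZ
        have e3 : symmDiff (symmDiff C Y) Z = symmDiff C (symmDiff Y Z) := symmDiff_assoc _ _ _
        have hYZ : symmDiff Y Z ⊆ V := by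
          intro x hx
          rw [mem_symmDiff] at hx
          rcases hx with h | h
          · exact hYV h.1
          · exact hZ.1 h.1
        rw [e3] at h0
        have e4 := hcard _ hYZ h0
        have e5 := card_sd Y Z
        have e6 : (Y ∩ Z).card = 0 := by omega
        rw [card_eq_zero] at e6
        have e7 : ∀ x, x ∈ Y → x ∉ Z := by
          intro x hx hx'
          have : x ∈ Y ∩ Z := mem_inter.2 ⟨hx, hx'⟩
          rw [e6] at this
          exact notMem_empty _ this
        have e8 : Y ⊆ symmDiff Y Z := fun x hx => mem_symmDiff.2 (Or.inl ⟨hx, e7 x hx⟩)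
        refine ⟨symmDiff Y Z, mem_univ _, ?_, ?_⟩
        · rw [if_pos e8, hg]
          simp only
          rw [if_pos hYZ]
          exact h0
        · ext x
          have := e7 x
          simp only [mem_sdiff, mem_symmDiff]
          tauto
      · intro K _ hK
        by_cases a1 : Y ⊆ K
        · rw [if_pos a1] at hK ⊢
          rw [hg] at hK ⊢
          simp only at hK ⊢
          by_cases a2 : K ⊆ V
          · rw [if_pos a2]
            congr 1
            ext x
            have : x ∈ Y → x ∈ K := fun h => a1 h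
            simp only [mem_sdiff, mem_symmDiff]
            tauto
          · rw [if_neg a2] at hK
            exact absurd rfl hK
        · rw [if_neg a1] at hK
          exact absurd rfl hK
    · refine sum_eq_zero fun K _ => ?_
      by_cases a1 : Y ⊆ K
      · rw [if_pos a1, hg]
        simp only
        rw [if_neg (fun h => hYV (a1.trans h))]
      · rw [if_neg a1]
  have h1 := null_supp (m - 1) g hnull ⟨K₀, by rw [hg]; simp only; rw [if_pos hK₀]; exact hne⟩
  rw [Nat.sub_add_cancel hm] at h1
  refine h1.trans (card_le_card fun K hK => ?_)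
  rw [mem_filter] at hK ⊢
  refine ⟨mem_univ _, ?_⟩
  have h2 := hK.2
  rw [hg] at h2
  simp only at h2
  by_cases a2 : K ⊆ V
  · rw [if_pos a2] at h2
    exact ⟨a2, h2⟩
  · rw [if_neg a2] at h2
    exact absurd rfl h2

end layer

section count

variable {α : Type} [DecidableEq α] [Fintype α]

theorem prop10 (A C t d : Prop) (a1 : (A ↔ ¬ t) ↔ C) (a2 : (A ↔ ¬ d) ↔ C) : d ↔ t := by
  by_cases b1 : A <;> by_cases b2 : C <;> by_cases b3 : t <;> by_cases b4 : d <;>
    simp [b1, b2, b3, b4] at a1 a2 ⊢

/-- the class automorphisms of `G` which fix all vertices outside `V` -/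
def Loc (G : SimpleGraph α) (V : Finset α) : Set (Equiv.Perm α) :=
  {τ | IsClassAut G τ ∧ ∀ x, x ∉ V → τ x = x}

omit [Fintype α] in
theorem loc_sw (G : SimpleGraph α) (S V : Finset α) : Loc (sw G S) V = Loc G V := by
  ext τ
  show (IsClassAut (sw G S) τ ∧ _) ↔ (IsClassAut G τ ∧ _)
  rw [caut_sw]

/-- a module of a family has many local automorphisms -/
theorem fam_loc {B : SimpleGraph α} {F : Finset (Finset α)} {b : ℕ} {f : Finset α → ℚ}
    (h : Two B f) (hF : Fam B F b) (hb : 2 * b < Fintype.card α) {V : Finset α} (hV : V ∈ F)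
    (hk : 2 * F.card < b) (S : Finset α) (hS : f S ≠ 0) :
    2 ^ (b / 2) ≤ 2 * (Loc B V).ncard := by
  classical
  have hbal : ∀ T, f T ≠ 0 → 2 * (T ∩ V).card = b := fun T hT =>
    balanced h hF hb hV hk T hT
  have hC : (S \ V) ∩ V = ∅ := by
    ext x
    simp only [mem_inter, mem_sdiff, notMem_empty]
    tauto
  have hSS : symmDiff (S \ V) (S ∩ V) = S := by
    ext x
    simp only [mem_symmDiff, mem_inter, mem_sdiff]
    tauto
  have h1 := middle f h.sum V (S \ V) (b / 2) (by
    have := card_pos.2 ⟨V, hV⟩
    omega) (fun T hT => by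
      rw [hC, sd_empty]
      have := hbal T hT
      omega) (S ∩ V) inter_subset_right (by rw [hSS]; exact hS)
  refine h1.trans ?_
  have hz := out (V := V) (by rw [hF.card V hV]; omega)
  -- the local automorphisms as a finset
  set W : Finset (Equiv.Perm α) := univ.filter fun τ =>
    (∀ u v, B.Adj (τ u) (τ v) ↔ B.Adj u v) ∧ ∀ x, x ∉ V → τ x = x with hW
  have h2 : W.card ≤ (Loc B V).ncard := by
    rw [← Set.ncard_coe_finset]
    refine Set.ncard_le_ncard ?_ (Set.toFinite _)
    intro τ hτ
    rw [hW, mem_coe, mem_filter] at hτ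
    exact ⟨⟨∅, fun u v => by rw [sw_empty]; exact hτ.2.1 u v⟩, hτ.2.2⟩
  have h3 : (univ.filter fun K => K ⊆ V ∧ f (symmDiff (S \ V) K) ≠ 0) ⊆
      (W ×ˢ (univ : Finset Bool)).image fun q => V.filter fun x => (q.1 x ∈ S ↔ q.2 = true) := by
    intro K hK
    rw [mem_filter] at hK
    obtain ⟨-, hKV, hfK⟩ := hK
    have h4 : ∀ x, x ∉ V → (x ∈ S ↔ x ∈ symmDiff (S \ V) K) := by
      intro x hx
      have : x ∉ K := fun h => hx (hKV h)
      simp only [mem_symmDiff, mem_sdiff]
      tauto
    obtain ⟨σ, s1, s2, s3⟩ := fibre h hF hb hV S _ hS hfK h4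
    obtain ⟨τ, t1, t2, t3⟩ := restrB (hF.mod V hV) hz s1 s2
    have hKx : ∀ x ∈ V, (x ∈ symmDiff (S \ V) K ↔ x ∈ K) := by
      intro x hx
      simp only [mem_symmDiff, mem_sdiff, hx]
      tauto
    rw [mem_image]
    rcases s3 with s3 | s3
    · refine ⟨(τ, true), by simp [hW]; exact ⟨t1, t3⟩, ?_⟩
      ext x
      simp only [mem_filter, iff_true]
      constructor
      · rintro ⟨hx, hx2⟩
        rw [t2 x hx] at hx2
        exact (hKx x hx).1 ((s3 x hx).1 hx2)
      · intro hx
        refine ⟨hKV hx, ?_⟩
        rw [t2 x (hKV hx)]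
        exact (s3 x (hKV hx)).2 ((hKx x (hKV hx)).2 hx)
    · refine ⟨(τ, false), by simp [hW]; exact ⟨t1, t3⟩, ?_⟩
      ext x
      simp only [mem_filter, Bool.false_eq_true, iff_false]
      constructor
      · rintro ⟨hx, hx2⟩
        rw [t2 x hx] at hx2
        have := s3 x hx
        have := hKx x hx
        tauto
      · intro hx
        refine ⟨hKV hx, ?_⟩
        rw [t2 x (hKV hx)]
        have := s3 x (hKV hx)
        have := hKx x (hKV hx)
        tauto
  have h5 := card_le_card h3
  have h6 := card_image_le (s := W ×ˢ (univ : Finset Bool))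
    (f := fun q => V.filter fun x => (q.1 x ∈ S ↔ q.2 = true))
  rw [card_product, card_univ, Fintype.card_bool] at h6
  omega

/-- a splitting set has many local automorphisms -/
theorem split_loc {G H : SimpleGraph α} (hn : Fintype.card α ≠ 4) (hdeck : SameDeck G H)
    (hne : ¬ Nonempty (G ≃g H)) {U : Finset α} (hU : Splits G U) (h3 : 3 ≤ U.card)
    (h2' : 2 ≤ Uᶜ.card) : 2 ^ (U.card / 2) ≤ 2 * (Loc G U).ncard := by
  classical
  obtain ⟨w, hw⟩ : ∃ w, w ∈ Uᶜ := card_pos.1 (by omega)
  have hwU : w ∉ U := mem_compl.1 hw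
  obtain ⟨θ⟩ := switched hn hdeck hne hU (by omega) h2'
  have hp := cntGH hdeck w
  have hhalf := half hn hdeck hne hU h3 h2' w hwU
  have ha : rr U (nbr G w) ∅ = ((nbr G w) ∩ U).card := by
    unfold rr
    rw [← Finset.bot_eq_empty, bot_symmDiff]
  have hsz : ∀ S, ff G H S ≠ 0 → rr U (nbr G w) S = U.card / 2 := by
    intro S hS
    have h1 := sizes hU w hwU U ⟨θ⟩ S hS
    have hb : rr U (nbr G w) U + rr U (nbr G w) ∅ = U.card := by
      have := rr_flip U (nbr G w) ∅
      rwa [show symmDiff (∅ : Finset α) U = U by rw [← Finset.bot_eq_empty, bot_symmDiff]] at this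
    omega
  have hCU : ((nbr G w) ∩ U) ∩ U = (nbr G w) ∩ U := by
    rw [inter_assoc, inter_self]
  have h1 := middle (ff G H) (sum_ff hdeck) U ((nbr G w) ∩ U) (U.card / 2) (by omega)
    (fun T hT => by
      rw [hCU]
      have := hsz T hT
      unfold rr at this
      rw [← this]
      congr 1
      ext x
      simp only [mem_symmDiff, mem_inter]
      tauto) ((nbr G w) ∩ U) inter_subset_right (by
        rw [symmDiff_self, Finset.bot_eq_empty, ff_empty hne]
        exact hp.ne')
  refine h1.trans ?_
  -- the switching set of a local class automorphism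
  let D : Equiv.Perm α → Finset α := fun τ =>
    if h : ∃ T : Finset α, T ⊆ U ∧ ∀ u v, (sw G T).Adj (τ u) (τ v) ↔ G.Adj u v then h.choose else ∅
  have hD : ∀ (τ : Equiv.Perm α) (T : Finset α), T ⊆ U →
      (∀ u v, (sw G T).Adj (τ u) (τ v) ↔ G.Adj u v) → D τ = T := by
    intro τ T hT hTa
    have hex : ∃ T : Finset α, T ⊆ U ∧ ∀ u v, (sw G T).Adj (τ u) (τ v) ↔ G.Adj u v :=
      ⟨T, hT, hTa⟩
    have e1 : D τ = hex.choose := by
      show (if h : ∃ T : Finset α, T ⊆ U ∧ ∀ u v, (sw G T).Adj (τ u) (τ v) ↔ G.Adj u v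
        then h.choose else ∅) = _
      rw [dif_pos hex]
    obtain ⟨e2, e3⟩ := hex.choose_spec
    rw [← e1] at e2 e3
    -- compare at `w`
    ext y
    by_cases hy : y ∈ U
    · have hyw : y ≠ w := fun h => hwU (h ▸ hy)
      obtain ⟨u, rfl⟩ := τ.surjective y
      obtain ⟨v, hv⟩ := τ.surjective w
      have a1 := hTa u v
      have a2 := e3 u v
      rw [hv, sw_adj] at a1 a2
      have n1 : w ∉ T := fun h => hwU (hT h)
      have n2 : w ∉ D τ := fun h => hwU (e2 h)
      simp only [hyw, ne_eq, not_false_eq_true, true_and, n1, n2, iff_false] at a1 a2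
      exact prop10 _ _ _ _ a1 a2
    · exact iff_of_false (fun h => hy (e2 h)) (fun h => hy (hT h))
  set W : Finset (Equiv.Perm α) := univ.filter fun τ => τ ∈ Loc G U with hW
  have h2 : W.card = (Loc G U).ncard := by
    rw [← Set.ncard_coe_finset]
    congr 1
    ext τ
    simp [hW]
  have hpart : (univ.filter fun K => K ⊆ U ∧ ff G H (symmDiff ((nbr G w) ∩ U) K) ≠ 0) ⊆
      (W ×ˢ (univ : Finset Bool)).image fun q =>
        if q.2 then symmDiff ((nbr G w) ∩ U) (D q.1)
        else symmDiff ((nbr G w) ∩ U) (symmDiff (D q.1) U) := by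
    intro K hK
    rw [mem_filter] at hK
    obtain ⟨-, hKU, hfK⟩ := hK
    set T := symmDiff ((nbr G w) ∩ U) K with hT
    have hTU : T ⊆ U := by
      intro x hx
      rw [hT, mem_symmDiff, mem_inter] at hx
      rcases hx with h | h
      · exact h.1.2
      · exact hKU h.1
    have hTi : T ∩ U = T := inter_eq_left.2 hTU
    have hKT : symmDiff ((nbr G w) ∩ U) T = K := by
      rw [hT, ← symmDiff_assoc, symmDiff_self, bot_symmDiff]
    have key : UEq G U ∅ T ∨ UEq G U ∅ (symmDiff T U) := by
      rcases ff_cases T hfK with hφ | hφ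
      · obtain ⟨φ⟩ := hφ
        have hk := key3 hU ∅ T ((show sw G ∅ ≃g G by rw [sw_empty]).trans φ.symm)
        rw [hTi, empty_inter] at hk
        exact hk
      · obtain ⟨φ⟩ := hφ
        have hk := key3 hU U T (θ.trans φ.symm)
        rw [hTi, inter_self] at hk
        rcases hk with h | h
        · right
          have := h.flip
          rwa [symmDiff_self, Finset.bot_eq_empty] at this
        · left
          have := h.flip
          rwa [symmDiff_self, Finset.bot_eq_empty, sd_cancel] at this
    rw [mem_image]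
    rcases key with ⟨τ, t1, t2, t4⟩ | ⟨τ, t1, t2, t4⟩
    · rw [sw_empty] at t4
      refine ⟨(τ, true), ?_, ?_⟩
      · simp only [mem_product, mem_univ, and_true, hW, mem_filter, true_and]
        exact ⟨⟨T, t4⟩, t1⟩
      · simp only [if_true]
        rw [hD τ T hTU t4, hKT]
    · rw [sw_empty] at t4
      have hTU' : symmDiff T U ⊆ U := by
        intro x hx
        rw [mem_symmDiff] at hx
        rcases hx with h | h
        · exact hTU h.1
        · exact h.1
      refine ⟨(τ, false), ?_, ?_⟩
      · simp only [mem_product, mem_univ, and_true, hW, mem_filter, true_and]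
        exact ⟨⟨_, t4⟩, t1⟩
      · simp only [Bool.false_eq_true, if_false]
        rw [hD τ _ hTU' t4, sd_cancel, hKT]
  have h5 := card_le_card hpart
  have h6 := card_image_le (s := W ×ˢ (univ : Finset Bool))
    (f := fun q => if q.2 then symmDiff ((nbr G w) ∩ U) (D q.1)
        else symmDiff ((nbr G w) ∩ U) (symmDiff (D q.1) U))
  rw [card_product, card_univ, Fintype.card_bool] at h6
  omega

/-- a module of a family of modules up to switching has many local class automorphisms -/
theorem mod_family_loc {G : SimpleGraph α} {F : Finset (Finset α)} {b : ℕ} (hF : ModFam G F b)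
    (hb : 2 * b < Fintype.card α) (hk : 2 * F.card < b) {H : SimpleGraph α}
    (hdeck : SameDeck G H) (hne : ¬ Nonempty (G ≃g H)) {V : Finset α} (hV : V ∈ F) :
    2 ^ (b / 2) ≤ 2 * (Loc G V).ncard := by
  obtain ⟨R, hR'⟩ := straight hF
  have hG : sw (sw G R) R = G := by
    rw [sw_sw, symmDiff_self, Finset.bot_eq_empty, sw_empty]
  have hFam : Fam (sw G R) F b :=
    ⟨hR', hF.disj, fun V hV σ hσ => hF.perm V hV σ ((caut_sw G R σ).1 hσ), hF.card⟩
  obtain ⟨i⟩ : Nonempty α := by
    rw [← Fintype.card_pos_iff]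
    omega
  have hp := cntGH hdeck i
  have h := two_ff (B := sw G R) (S₀ := R) (H := H) (by rw [hG]; exact hdeck) i
  have h0 : (fun S => ff (sw (sw G R) R) H (symmDiff R S)) R ≠ 0 := by
    show ff (sw (sw G R) R) H (symmDiff R R) ≠ 0
    rw [hG, symmDiff_self, Finset.bot_eq_empty, ff_empty hne]
    exact hp.ne'
  have h1 := fam_loc h hFam hb hV hk R h0
  rw [loc_sw] at h1
  exact h1

end count

end Pool.Agent.NTI
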