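import Pool.Agent.NTI.E

/-!
# MP_e73337_co, families of modules up to switching (helper77)
-/

set_option autoImplicit false

namespace Pool.Agent.NTI

open Finset Pool.Agent.Lib_helper61.SwitchBasic

section

variable {α : Type} [DecidableEq α] [Fintype α] {G : SimpleGraph α} {F : Finset (Finset α)} {b : ℕ}

/-- `F` is a family of pairwise disjoint modules up to switching of `G` with `b` vertices each, permuted by the
automorphisms of the switching class. -/
structure ModFam (G : SimpleGraph α) (F : Finset (Finset α)) (b : ℕ) : Prop where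
  mod : ∀ V ∈ F, IsModule G V
  disj : ∀ V ∈ F, ∀ W ∈ F, V ≠ W → Disjoint V W
  perm : ∀ V ∈ F, ∀ σ : Equiv.Perm α, IsClassAut G σ → V.map σ.toEmbedding ∈ F
  card : ∀ V ∈ F, V.card = b

/-- `V` has more than `2 k` subsets `Y` such that no two of the graphs `sw G Y` are isomorphic by an
isomorphism which fixes all vertices outside `V`. -/
def Many (G : SimpleGraph α) (V : Finset α) (k : ℕ) : Prop :=
  ∃ E : Finset (Finset α), 2 * k < E.card ∧ (∀ Y ∈ E, Y ⊆ V) ∧
    ∀ Y ∈ E, ∀ Z ∈ E, (∃ φ : sw G Y ≃g sw G Z, ∀ x, x ∉ V → φ x = x) → Y = Z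

theorem prop6 (A C Q : Prop) (h1 : Q) (h2 : C ↔ A) : (A ↔ Q) ↔ C := by
  by_cases a1 : A <;> by_cases a2 : C <;> simp [a1, a2, h1] at h2 ⊢

theorem prop7 (A C Q : Prop) (h1 : ¬ Q) (h2 : ¬ (C ↔ A)) : (A ↔ Q) ↔ C := by
  by_cases a1 : A <;> by_cases a2 : C <;> simp [a1, a2, h1] at h2 ⊢

theorem prop9 (z a y c : Prop) (s : (z ↔ a) ↔ (y ↔ c)) : z ↔ ((y ↔ c) ↔ a) := by
  rw [← s]
  by_cases a1 : a <;> simp [a1]

theorem prop8 (A C a1 a2 a3 a4 z1 z2 y1 y2 : Prop) (e : (A ↔ (a1 ↔ a2)) ↔ (C ↔ (a3 ↔ a4)))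
    (s1 : (z1 ↔ a1) ↔ (y1 ↔ a3)) (s2 : (z2 ↔ a2) ↔ (y2 ↔ a4)) :
    (A ↔ (z1 ↔ z2)) ↔ (C ↔ (y1 ↔ y2)) := by
  rw [prop9 _ _ _ _ s1, prop9 _ _ _ _ s2]
  clear s1 s2
  by_cases b1 : a1 <;> by_cases b2 : a2 <;> by_cases b3 : a3 <;> by_cases b4 : a4 <;>
    by_cases b5 : A <;> by_cases b6 : C <;> by_cases b7 : y1 <;> by_cases b8 : y2 <;>
    simp [b1, b2, b3, b4, b5, b6, b7, b8] at e ⊢

/-- straightening: some graph of the class has all members of the family as modules -/
theorem straight (hF : ModFam G F b) : ∃ R : Finset α, ∀ V ∈ F, Hom (sw G R) V := by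
  classical
  -- `x`, `y` are separated by nothing outside `V`
  let rel : Finset α → α → α → Prop := fun V x y => ∀ z, z ∉ V → (G.Adj z x ↔ G.Adj z y)
  have hex : ∀ V : Finset α, ∃ r : α → Prop, IsModule G V → ∀ x ∈ V, ∀ y ∈ V, ∀ z, z ∉ V →
      ((G.Adj z x ↔ r x) ↔ (G.Adj z y ↔ r y)) := by
    intro V
    by_cases hV : ∃ x₀, x₀ ∈ V
    · obtain ⟨x₀, hx₀⟩ := hV
      refine ⟨fun x => rel V x₀ x, fun hm => ?_⟩
      have key : ∀ x ∈ V, ∀ z, z ∉ V → ((G.Adj z x ↔ rel V x₀ x) ↔ G.Adj z x₀) := by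
        intro x hx z hz
        rcases hm x₀ hx₀ x hx with h | h
        · have h1 : rel V x₀ x := h
          exact prop6 _ _ _ h1 (h z hz)
        · have h1 : ¬ rel V x₀ x := fun h' => h z hz (h' z hz)
          exact prop7 _ _ _ h1 (h z hz)
      intro x hx y hy z hz
      rw [key x hx z hz, key y hy z hz]
    · exact ⟨fun _ => True, fun _ x hx => absurd ⟨x, hx⟩ hV⟩
  choose r hr using hex
  refine ⟨univ.filter fun x => ∃ V ∈ F, x ∈ V ∧ r V x, fun V hV x hx y hy z hz => ?_⟩
  have hmem : ∀ x ∈ V, (x ∈ (univ.filter fun x => ∃ V ∈ F, x ∈ V ∧ r V x) ↔ r V x) := by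
    intro x hx
    rw [mem_filter]
    constructor
    · rintro ⟨-, W, hW, hxW, hr'⟩
      by_cases hVW : W = V
      · rw [← hVW]
        exact hr'
      · exact absurd hx (disjoint_left.1 (hF.disj W hW V hV hVW) hxW)
    · intro h
      exact ⟨mem_univ _, V, hV, hx, h⟩
  have h1 := hr V (hF.mod V hV) x hx y hy z hz
  have n1 : z ≠ x := fun h => hz (h ▸ hx)
  have n2 : z ≠ y := fun h => hz (h ▸ hy)
  rw [sw_adj, sw_adj, hmem x hx, hmem y hy]
  simp only [n1, n2, ne_eq, not_false_eq_true, true_and]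
  generalize (z ∈ univ.filter fun x => ∃ V ∈ F, x ∈ V ∧ r V x) = Q
  by_cases a1 : Q <;> by_cases a2 : r V x <;> by_cases a3 : r V y <;>
    simp only [a1, a2, a3, iff_true, iff_false] at h1 ⊢ <;> tauto

/-- **Families of modules up to switching.** -/
theorem mod_family (hn : Fintype.card α ≠ 4) (hF : ModFam G F b) (hne' : F.Nonempty)
    (hb : 2 * b < Fintype.card α) (hR : 2 * F.card ≤ b ∨ ∀ V ∈ F, Many G V F.card)
    {H : SimpleGraph α} (hdeck : SameDeck G H) (hne : ¬ Nonempty (G ≃g H)) :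
    Even b ∧ (Odd F.card → b % 4 = 2) ∧ (∀ V ∈ F, Nonempty (sw G V ≃g H)) ∧
      (2 * F.card < b → ∀ V ∈ F, ∀ w, w ∉ V → 2 * ((nbr G w) ∩ V).card = b) := by
  classical
  obtain ⟨R, hR'⟩ := straight hF
  have hG : sw (sw G R) R = G := by
    rw [sw_sw, symmDiff_self, Finset.bot_eq_empty, sw_empty]
  have hFam : Fam (sw G R) F b :=
    ⟨hR', hF.disj, fun V hV σ hσ => hF.perm V hV σ ((caut_sw G R σ).1 hσ), hF.card⟩
  have hRich : ∀ V ∈ F, Rich (sw G R) V F.card := by
    intro V hV
    rcases hR with h | h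
    · exact rich_of_le V (by rw [hF.card V hV]; exact h)
    · obtain ⟨E, h1, h2, h3⟩ := h V hV
      refine ⟨E.image fun Y => symmDiff Y (R ∩ V), ?_, ?_, ?_⟩
      · rw [card_image_of_injective _ (fun Y Z hYZ => by
          have := congrArg (fun W => symmDiff W (R ∩ V)) hYZ
          simpa using this)]
        exact h1
      · intro Y hY
        rw [mem_image] at hY
        obtain ⟨Z, hZ, rfl⟩ := hY
        intro x hx
        rw [mem_symmDiff, mem_inter] at hx
        rcases hx with hx | hx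
        · exact h2 Z hZ hx.1
        · exact hx.1.2
      · rintro Y hY Z hZ ⟨τ, t1, t2, t3⟩
        rw [mem_image] at hY hZ
        obtain ⟨Y, hY, rfl⟩ := hY
        obtain ⟨Z, hZ, rfl⟩ := hZ
        have hYV := h2 Y hY
        have hZV := h2 Z hZ
        have h5 : Y = Z := by
          refine h3 Y hY Z hZ ⟨⟨τ, fun {u v} => ?_⟩, t2⟩
          have hτV : ∀ x, τ x ∈ V ↔ x ∈ V := by
            intro x
            constructor
            · intro hx
              by_contra hxV
              rw [t2 x hxV] at hx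
              exact hxV hx
            · intro hx
              by_contra hxV
              have := t2 (τ x) hxV
              rw [τ.injective this] at hxV
              exact hxV hx
          -- the sets correspond
          have hs : ∀ x, ((τ x ∈ Z ↔ τ x ∈ R) ↔ (x ∈ Y ↔ x ∈ R)) := by
            intro x
            by_cases hx : x ∈ V
            · have h6 := t3 x
              have h7 := (hτV x).2 hx
              simp only [mem_symmDiff, mem_inter, hx, h7, and_true] at h6
              tauto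
            · have h7 : x ∉ Y := fun h => hx (hYV h)
              have h8 : x ∉ Z := fun h => hx (hZV h)
              rw [t2 x hx]
              tauto
          have e := t1 u v
          rw [sw_adj, sw_adj] at e
          rw [sw_adj, sw_adj]
          by_cases huv : u = v
          · subst huv
            simp
          · have n : τ u ≠ τ v := fun h => huv (τ.injective h)
            have s1 := hs u
            have s2 := hs v
            simp only [n, huv, ne_eq, not_false_eq_true, true_and] at e ⊢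
            exact prop8 _ _ _ _ _ _ _ _ _ _ e s1 s2
        rw [h5]
  have hm := family (B := sw G R) (S₀ := R) (H := H) hn hFam hne' hb hRich (by rw [hG]; exact hdeck)
    (by rw [hG]; exact hne)
  rw [hG] at hm
  obtain ⟨m1, m2, m3, m4⟩ := hm
  refine ⟨m1, m2, m3, fun hk V hV w hw => ?_⟩
  have h1 := m4 hk V hV
  -- the neighbours of `w` in `V`
  have h2 : (nbr G w) ∩ V = R ∩ V ∨ (nbr G w) ∩ V = V \ R := by
    have h3 : ∀ x ∈ V, ∀ y ∈ V, ((G.Adj w x ↔ x ∈ R) ↔ (G.Adj w y ↔ y ∈ R)) := by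
      intro x hx y hy
      have h4 := hR' V hV x hx y hy w hw
      have n1 : w ≠ x := fun h => hw (h ▸ hx)
      have n2 : w ≠ y := fun h => hw (h ▸ hy)
      rw [sw_adj, sw_adj] at h4
      simp only [n1, n2, ne_eq, not_false_eq_true, true_and] at h4
      by_cases a1 : w ∈ R <;> by_cases a3 : x ∈ R <;> by_cases a4 : y ∈ R <;>
        simp only [a1, a3, a4, iff_true, iff_false] at h4 ⊢ <;> tauto
    by_cases h5 : ∃ x ∈ V, (G.Adj w x ↔ x ∈ R)
    · obtain ⟨x, hx, h5⟩ := h5
      left
      ext y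
      rw [mem_inter, mem_inter, mem_nbr]
      constructor
      · rintro ⟨a, c⟩
        exact ⟨((h3 x hx y c).1 h5).1 a, c⟩
      · rintro ⟨a, c⟩
        exact ⟨((h3 x hx y c).1 h5).2 a, c⟩
    · right
      ext y
      rw [mem_inter, mem_sdiff, mem_nbr]
      constructor
      · rintro ⟨a, c⟩
        exact ⟨c, fun h => h5 ⟨y, c, iff_of_true a h⟩⟩
      · rintro ⟨a, c⟩
        refine ⟨?_, a⟩
        by_contra h
        exact h5 ⟨y, a, iff_of_false h c⟩
  have h6 := card_sdiff_add_card_inter V R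
  rw [inter_comm V R, hF.card V hV] at h6
  rcases h2 with h2 | h2
  · rw [h2]
    exact h1
  · rw [h2]
    omega

end

end Pool.Agent.NTI
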